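import Mathlib
import Pool.Agent.R931.PD.Fin

/-!
# Local and global Frobenius elements
-/

set_option autoImplicit false

open Polynomial NumberField IsDedekindDomain
open Pool.Agent.Y142.ZO Pool.Agent.Y142.ZI Pool.Agent.Y142.SS Pool.Agent.Y971.ZI

namespace Pool.Agent.R931.ZF

open Pool.Agent.Y936.SS (Om)

/-- Frobenius elements at `ℓ` are conjugate on the roots of a polynomial -/
theorem conj_frob_roots (Q : ℚ[X]) (hQm : Q.Monic) (hQs : Q.Separable) :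
    ∃ b : ℕ, ∀ ℓ : ℕ, b < ℓ → ∀ _ : Fact ℓ.Prime, ∀ σ₀ σ : GK ℚ, FrobAt ℓ σ₀ → FrobAt ℓ σ →
      ∃ ρ : GK ℚ, ∀ x : QQ, aeval x Q = 0 → σ x = (ρ * σ₀ * ρ⁻¹) x := by
  obtain ⟨D, hD0, P, hPm, hP⟩ := exists_scale Q hQm
  have hDQ : (D : ℚ) ≠ 0 := by exact_mod_cast hD0.ne'
  have hDQQ : (D : QQ) ≠ 0 := by exact_mod_cast hD0.ne'
  have hPsep : (P.map (Int.castRingHom ℚ)).Separable := by
    rw [hP, separable_def, derivative_scale Q _]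
    exact isCoprime_scaleRoots _ _ _ (isUnit_iff_ne_zero.mpr hDQ) hQs
  obtain ⟨N, hN0, a, b, hab⟩ := sep_bound P hPsep
  refine ⟨N.natAbs, ?_⟩
  intro ℓ hℓ hfact σ₀ σ hfrob₀ hfrob
  have hℓp : ℓ.Prime := hfact.out
  have key' : ∀ x : QQ, aeval x Q = 0 → ∃ w : 𝓞 QQ, (w : QQ) = D * x ∧ aeval (w : QQ) P = 0 := by
    intro x hx
    have h3 := scaleRoots_eval₂_mul (p := Q) (algebraMap ℚ QQ) x (D : ℚ)
    rw [← hP, map_natCast, eval₂_map] at h3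
    have h5 : eval₂ (algebraMap ℚ QQ) x Q = 0 := hx
    rw [h5, mul_zero] at h3
    have h4 : aeval ((D : QQ) * x) P = 0 := by
      rw [RingHom.ext_int ((algebraMap ℚ QQ).comp (Int.castRingHom ℚ)) (algebraMap ℤ QQ)] at h3
      exact h3
    exact ⟨⟨(D : QQ) * x, P, hPm, h4⟩, rfl, h4⟩
  have hF0 := (Pool.Agent.Y726.ZI.frobAt_iff hℓp σ₀).1 hfrob₀
  obtain ⟨ρ, i, hi, hσ⟩ := Pool.Agent.W401.Frob.conj_frob (Pool.Agent.Y726.ZI.pv ℓ hℓp) σ₀ σ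
    hF0 ((Pool.Agent.Y726.ZI.frobAt_iff hℓp σ).1 hfrob)
  refine ⟨ρ, ?_⟩
  intro x hx
  obtain ⟨w, hwx, hw⟩ := key' x hx
  obtain ⟨𝔮, h𝔮, h𝔮v, hi'⟩ := hi
  have hℓq : (ℓ : 𝓞 QQ) ∈ 𝔮 := by
    have h1 : (ℓ : 𝓞 ℚ) ∈ (Pool.Agent.Y726.ZI.pv ℓ hℓp).asIdeal :=
      Ideal.mem_span_singleton_self _
    rw [← h𝔮v, Ideal.mem_comap, map_natCast] at h1
    exact h1
  have hwP : aeval w P = 0 := by
    apply RingOfIntegers.coe_injective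
    rw [map_zero, ← hw]
    exact (aeval_algebraMap_apply QQ w P).symm
  have h1 := Pool.Agent.Y297.SS.inert_fix hab hN0 hℓp hℓ i 𝔮 h𝔮.isPrime hℓq hi' w hwP
  have h2 : i (w : QQ) = (w : QQ) := congrArg (fun z : 𝓞 QQ => (z : QQ)) h1
  rw [hwx, map_mul, map_natCast] at h2
  have h3 : i x = x := mul_left_cancel₀ hDQQ h2
  rw [hσ, AlgEquiv.mul_apply (ρ * σ₀ * ρ⁻¹) i x, h3]

theorem exists_local (ℓ : ℕ) [Fact ℓ.Prime] :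
    ∃ t : (QQ →+* Om ℓ) × (Om ℓ ≃ₐ[ℚ_[ℓ]] Om ℓ) × GK ℚ, FrobAt ℓ t.2.2 ∧
      ∀ x : QQ, t.2.1 (t.1 x) = t.1 (t.2.2 x) := by
  have hLF : S_LF := Pool.Agent.Y255.SS.t
  obtain ⟨ι₀⟩ := emb ℓ
  obtain ⟨τ, hτ⟩ := hLF ℓ
  obtain ⟨σ₀, hσ₀⟩ := Pool.Agent.Y142.ZS.restrict0 ℓ ι₀ τ
  exact ⟨(ι₀, τ, σ₀), Pool.Agent.Y297.SS.frob0 ℓ ι₀ τ hτ σ₀ hσ₀, hσ₀⟩

/-- an embedding -/
noncomputable def ιL (ℓ : ℕ) [Fact ℓ.Prime] : QQ →+* Om ℓ := (exists_local ℓ).choose.1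

/-- a Frobenius element -/
noncomputable def τL (ℓ : ℕ) [Fact ℓ.Prime] : Om ℓ ≃ₐ[ℚ_[ℓ]] Om ℓ := (exists_local ℓ).choose.2.1

/-- its restriction -/
noncomputable def σL (ℓ : ℕ) [Fact ℓ.Prime] : GK ℚ := (exists_local ℓ).choose.2.2

theorem frob_σL (ℓ : ℕ) [Fact ℓ.Prime] : FrobAt ℓ (σL ℓ) := (exists_local ℓ).choose_spec.1

theorem τL_ιL (ℓ : ℕ) [Fact ℓ.Prime] (x : QQ) : τL ℓ (ιL ℓ x) = ιL ℓ (σL ℓ x) :=
  (exists_local ℓ).choose_spec.2 x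

end Pool.Agent.R931.ZF
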