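import Mathlib
import Pool.Agent.R931.GD.Defs

/-!
# Systems with coefficients: definitions
-/

set_option autoImplicit false

namespace Pool.Agent.R931.ZF

open NumberField Module Pool.Agent.Y114.TF Pool.Agent.Y114.GF Pool.Agent.Y114.RM Pool.Agent.R931.GD

variable {Γ : Type} [Group Γ] {N ℓ : ℕ} [Fact ℓ.Prime] {E : Type} [Field E]

/-- The extension of an endomorphism of `(ℚ_ℓ) ^ N` to the `N`-dimensional space over the algebraic
closure of `ℚ_ℓ`. -/
noncomputable def overClosure (X : End ℚ_[ℓ] (Fin N → ℚ_[ℓ])) :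
    End (PadicAlgCl ℓ) (Fin N → PadicAlgCl ℓ) :=
  Matrix.toLin' ((LinearMap.toMatrix' X).map (algebraMap ℚ_[ℓ] (PadicAlgCl ℓ)))

/-- The field `E` acts by the endomorphisms `ε a` on the representation `ρ`, and `(ℚ_ℓ) ^ N` is a free
module of rank `n` over `E ⊗ ℚ_ℓ` (this is expressed by the traces). -/
structure ActsFreely [Algebra ℚ E] (n : ℕ) (ρ : Rep1 Γ N ℓ)
    (ε : E →+* End ℚ_[ℓ] (Fin N → ℚ_[ℓ])) : Prop where
  galois : ∀ a γ, ε a * ρ () γ = ρ () γ * ε a
  trace : ∀ a, LinearMap.trace ℚ_[ℓ] (Fin N → ℚ_[ℓ]) (ε a) =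
    (n : ℚ_[ℓ]) * ((Algebra.trace ℚ E a : ℚ) : ℚ_[ℓ])

/-- The part of the representation, over the algebraic closure of `ℚ_ℓ`, which belongs to the embedding `φ`
of `E`: the field `E` acts on it through `φ`. -/
noncomputable def partAt (ε : E →+* End ℚ_[ℓ] (Fin N → ℚ_[ℓ])) (φ : E →+* PadicAlgCl ℓ) :
    Submodule (PadicAlgCl ℓ) (Fin N → PadicAlgCl ℓ) where
  carrier := {x | ∀ a, overClosure (ε a) x = φ a • x}
  add_mem' := fun {x y} hx hy a => by rw [map_add, smul_add, hx a, hy a]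
  zero_mem' := fun a => by rw [map_zero, smul_zero]
  smul_mem' := fun c x hx a => by rw [map_smul, hx a, smul_comm]

/-- The subspace `U` of the representation over the algebraic closure of `ℚ_ℓ` is irreducible, also for all
subgroups of finite index: it is not zero, and it has no stable subspaces except `0` and `U`. -/
def StronglyIrreducible (ρ : Rep1 Γ N ℓ) (U : Submodule (PadicAlgCl ℓ) (Fin N → PadicAlgCl ℓ)) :
    Prop :=
  U ≠ ⊥ ∧ ∀ Δ : Subgroup Γ, Δ.FiniteIndex →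
    ∀ W : Submodule (PadicAlgCl ℓ) (Fin N → PadicAlgCl ℓ), W ≤ U →
      (∀ γ ∈ Δ, ∀ x ∈ W, overClosure (ρ () γ) x ∈ W) → W = ⊥ ∨ W = U

end Pool.Agent.R931.ZF
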