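import Mathlib
import Pool.Agent.R931.PD.Defs

/-!
# Definitions
-/

set_option autoImplicit false

namespace Pool.Agent.R931.ZF

open Pool.Agent.R931.PD Pool.Agent.R931.ZL

/-- Every element of `T` is conjugate, by an element of `A`, to an element of the coset `N * y`. -/
def MeetsCoset {n : ℕ} (A N : Subgroup (Equiv.Perm (Fin n))) (y : Equiv.Perm (Fin n))
    (T : Set (Equiv.Perm (Fin n))) : Prop :=
  ∀ a ∈ T, ∃ x ∈ A, x⁻¹ * a * x * y⁻¹ ∈ N

/-- The combinatorial condition.  Let `M` be a normal subgroup of a subgroup `G` of `A`, such that for every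
`j` the elements of `T j` are conjugate (in `A`) to elements of one coset of `M` in `G`.  Then every
subgroup `N` of `A` which has a coset `N * y` (where `y` is in `A` and normalizes `N`) with conjugates of all
elements of some coset `M * g`, with `g` in `G`, has at most `m` orbits. -/
def OrbitBound {n : ℕ} {J : Type} (A : Subgroup (Equiv.Perm (Fin n)))
    (T : J → Set (Equiv.Perm (Fin n))) (m : ℕ) : Prop :=
  ∀ G M N : Subgroup (Equiv.Perm (Fin n)), ∀ g y : Equiv.Perm (Fin n), G ≤ A → M ≤ G →
    (∀ x ∈ G, ∀ u ∈ M, x * u * x⁻¹ ∈ M) → (∀ j, ∃ x ∈ G, MeetsCoset A M x (T j)) → g ∈ G →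
    N ≤ A → y ∈ A → (∀ u ∈ N, y * u * y⁻¹ ∈ N) → MeetsCoset A N y {a | a * g⁻¹ ∈ M} →
    orbitCount N ≤ m

/-- The property `C` of subgroups of `A` is forced by the types.  Let `M` be a normal subgroup of a
subgroup `G` of `A`, such that for every `j` the elements of `T j` are conjugate (in `A`) to elements of one
coset of `M` in `G`.  Then every subgroup `N` of `A` which has a coset `N * y` (where `y` is in `A` and
normalizes `N`) with conjugates of all elements of some coset `M * g`, with `g` in `G`, has the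
property `C`. -/
def Forces {n : ℕ} {J : Type} (A : Subgroup (Equiv.Perm (Fin n)))
    (T : J → Set (Equiv.Perm (Fin n))) (C : Subgroup (Equiv.Perm (Fin n)) → Prop) : Prop :=
  ∀ G M N : Subgroup (Equiv.Perm (Fin n)), ∀ g y : Equiv.Perm (Fin n), G ≤ A → M ≤ G →
    (∀ x ∈ G, ∀ u ∈ M, x * u * x⁻¹ ∈ M) → (∀ j, ∃ x ∈ G, MeetsCoset A M x (T j)) → g ∈ G →
    N ≤ A → y ∈ A → (∀ u ∈ N, y * u * y⁻¹ ∈ N) → MeetsCoset A N y {a | a * g⁻¹ ∈ M} → C N

/-- As `Forces`, for the primes which split in a number field.  Let `M` be a normal subgroup of a subgroup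
`G` of `A`, such that for every `j` the elements of `T j` are conjugate (in `A`) to elements of one coset of
`M` in `G`.  Then every subgroup `N` of `A` which contains conjugates of all elements of `M` has the property
`C`. -/
def ForcesSplit {n : ℕ} {J : Type} (A : Subgroup (Equiv.Perm (Fin n)))
    (T : J → Set (Equiv.Perm (Fin n))) (C : Subgroup (Equiv.Perm (Fin n)) → Prop) : Prop :=
  ∀ G M N : Subgroup (Equiv.Perm (Fin n)), G ≤ A → M ≤ G →
    (∀ x ∈ G, ∀ u ∈ M, x * u * x⁻¹ ∈ M) → (∀ j, ∃ x ∈ G, MeetsCoset A M x (T j)) →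
    ConjIn A M N → C N

/-- The orbits of `N` are stable under all dualities of the set `R` of relations, that is, all permutations
`c` which preserve `R` such that the products `z_i * z_{c(i)}` are equal, modulo the relations. -/
def SelfDualOrbits {n : ℕ} (R : Set (Fin n → ℤ)) (N : Subgroup (Equiv.Perm (Fin n))) : Prop :=
  ∀ c ∈ relAut R, (∀ i j, Pi.single i 1 + Pi.single (c i) 1 - Pi.single j 1 -
    Pi.single (c j) 1 ∈ R) → ∀ i, ∃ a ∈ N, a i = c i

end Pool.Agent.R931.ZF
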