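import Mathlib
import Pool.Agent.R931.PD.Endo

/-!
# Linear algebra over the algebraic closure
-/

set_option autoImplicit false
set_option linter.unusedSectionVars false

namespace Pool.Agent.R931.ZF

open Module Function Polynomial Pool.Agent.R931.ZL Pool.Agent.R931.ZM Pool.Agent.R931.PD

section diag

variable {k V I : Type} [Field k] [AddCommGroup V] [Module k V] [FiniteDimensional k V]
  [Fintype I]

/-- the eigenvectors in an invariant subspace are given by the characteristic polynomial -/
theorem mem_iff_charpoly (b : Basis I k V) {X : End k V} {y : I → k} (hyinj : Injective y)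
    (hXb : ∀ i, X (b i) = y i • b i) (W : Submodule k V) (hW : ∀ x ∈ W, X x ∈ W) (i : I) :
    b i ∈ W ↔ aeval (y i) (X.restrict hW).charpoly = 0 := by
  classical
  have h0 : aeval (y i) (X.restrict hW).charpoly = 0 ↔
      Module.End.HasEigenvalue (X.restrict hW) (y i) := by
    rw [Module.End.hasEigenvalue_iff_isRoot_charpoly, IsRoot.def, ← coe_aeval_eq_eval]
  rw [h0]
  constructor
  · intro hi
    refine Module.End.hasEigenvalue_of_hasEigenvector (x := ⟨b i, hi⟩)
      ⟨Module.End.mem_eigenspace_iff.2 ?_, ?_⟩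
    · apply Subtype.ext
      rw [LinearMap.coe_restrict_apply]
      exact hXb i
    · intro h1
      exact b.ne_zero i (congrArg Subtype.val h1)
  · intro hi
    obtain ⟨u, hu⟩ := hi.exists_hasEigenvector
    have h1 := congrArg (fun w : W => (w : V)) hu.apply_eq_smul
    simp only [LinearMap.coe_restrict_apply, Submodule.coe_smul] at h1
    have h2 : ∃ j, b.repr (u : V) j ≠ 0 := by
      by_contra hno
      push Not at hno
      apply hu.2
      apply Subtype.ext
      rw [← b.sum_repr (u : V)]
      exact Finset.sum_eq_zero fun j _ => by rw [hno j, zero_smul]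
    obtain ⟨j, hj⟩ := h2
    have h3 : b.repr (X u) j = y j * b.repr u j := by
      conv_lhs => rw [← b.sum_repr (u : V)]
      rw [map_sum, map_sum, Finsupp.finsetSum_apply, Finset.sum_eq_single j]
      · rw [map_smul, hXb, map_smul, map_smul, Basis.repr_self, Finsupp.smul_apply,
          Finsupp.smul_apply, Finsupp.single_eq_same, smul_eq_mul, smul_eq_mul, mul_one, mul_comm]
      · intro l _ hl
        rw [map_smul, hXb, map_smul, map_smul, Basis.repr_self, Finsupp.smul_apply,
          Finsupp.smul_apply, Finsupp.single_eq_of_ne (Ne.symm hl), smul_zero, smul_zero]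
      · intro h
        exact absurd (Finset.mem_univ j) h
    rw [h1, map_smul, Finsupp.smul_apply, smul_eq_mul] at h3
    have h4 : i = j := hyinj (mul_right_cancel₀ hj h3)
    rw [h4]
    exact comp_mem b hyinj hXb W hW u.2 hj

theorem pow_basis (b : Basis I k V) {G : End k V} {z : I → k} (hG : ∀ i, G (b i) = z i • b i)
    (M : ℕ) (i : I) : (G ^ M) (b i) = z i ^ M • b i := by
  induction M with
  | zero => rw [pow_zero, pow_zero, one_smul, Module.End.one_apply]
  | succ j ih => rw [pow_succ', Module.End.mul_apply, ih, map_smul, hG, smul_smul, pow_succ]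

/-- a subspace which is stable under a power is stable under functions of the element -/
theorem stab_of_pow (b : Basis I k V) {G X : End k V} {z y : I → k}
    (hG : ∀ i, G (b i) = z i • b i) (hX : ∀ i, X (b i) = y i • b i) {M : ℕ}
    (hM : Injective fun i => z i ^ M) (U : Submodule k V) (hU : ∀ u ∈ U, (G ^ M) u ∈ U) :
    ∀ u ∈ U, X u ∈ U := by
  classical
  intro u hu
  rw [← b.sum_repr u, map_sum]
  refine U.sum_mem fun i _ => ?_
  rw [map_smul, hX, smul_smul]
  by_cases hi : b.repr u i = 0
  · rw [hi, zero_mul, zero_smul]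
    exact U.zero_mem
  · exact U.smul_mem _ (comp_mem b hM (pow_basis b hG M) U hU hu hi)

end diag

section twist

variable {Ω I : Type} [Field Ω]

/-- the conjugate of a subspace -/
def twist (τ : Ω ≃+* Ω) (U : Submodule Ω (I → Ω)) : Submodule Ω (I → Ω) where
  carrier := {u | (fun i => τ.symm (u i)) ∈ U}
  add_mem' := by
    intro a b ha hb
    have h1 : (fun i => τ.symm ((a + b) i)) = (fun i => τ.symm (a i)) + fun i => τ.symm (b i) := by
      funext i
      rw [Pi.add_apply, map_add]
      rfl
    change (fun i => τ.symm ((a + b) i)) ∈ U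
    rw [h1]
    exact U.add_mem ha hb
  zero_mem' := by
    have h1 : (fun i => τ.symm ((0 : I → Ω) i)) = 0 := by
      funext i
      rw [Pi.zero_apply, map_zero]
    change (fun i => τ.symm ((0 : I → Ω) i)) ∈ U
    rw [h1]
    exact U.zero_mem
  smul_mem' := by
    intro c a ha
    have h1 : (fun i => τ.symm ((c • a) i)) = τ.symm c • fun i => τ.symm (a i) := by
      funext i
      rw [Pi.smul_apply, smul_eq_mul, map_mul]
      rfl
    change (fun i => τ.symm ((c • a) i)) ∈ U
    rw [h1]
    exact U.smul_mem _ ha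

theorem mem_twist {τ : Ω ≃+* Ω} {U : Submodule Ω (I → Ω)} {u : I → Ω} :
    u ∈ twist τ U ↔ (fun i => τ.symm (u i)) ∈ U := Iff.rfl

theorem twist_symm_twist (τ : Ω ≃+* Ω) (U : Submodule Ω (I → Ω)) : twist τ (twist τ.symm U) = U := by
  ext u
  rw [mem_twist, mem_twist]
  simp

end twist

section base

variable {k Ω n : Type} [Field k] [Field Ω] [Algebra k Ω] [Fintype n] [DecidableEq n]

/-- a matrix as an endomorphism over a larger field -/
noncomputable def mO (k Ω n : Type) [Field k] [Field Ω] [Algebra k Ω] [Fintype n]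
    [DecidableEq n] : Matrix n n k →+* End Ω (n → Ω) :=
  ((Matrix.toLinAlgEquiv' (R := Ω) (n := n)) : Matrix n n Ω →+* End Ω (n → Ω)).comp
    (algebraMap k Ω).mapMatrix

theorem mO_apply (A : Matrix n n k) : mO k Ω n A = Matrix.toLin' (A.map (algebraMap k Ω)) := rfl

theorem mO_apply' (A : Matrix n n k) (u : n → Ω) :
    mO k Ω n A u = (A.map (algebraMap k Ω)).mulVec u := rfl

theorem mO_charpoly (A : Matrix n n k) : (mO k Ω n A).charpoly = A.charpoly.map (algebraMap k Ω) := by
  rw [mO_apply, Matrix.charpoly_toLin', Matrix.charpoly_map]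

theorem mO_smul (t : k) (A : Matrix n n k) : mO k Ω n (t • A) = algebraMap k Ω t • mO k Ω n A := by
  refine LinearMap.ext fun u => ?_
  rw [LinearMap.smul_apply, mO_apply', mO_apply', ← Matrix.smul_mulVec]
  congr 1
  ext i j
  simp

theorem mO_aeval (A : Matrix n n k) (f : k[X]) :
    mO k Ω n (aeval A f) = aeval (mO k Ω n A) (f.map (algebraMap k Ω)) := by
  refine Polynomial.map_aeval_eq_aeval_map (φ := algebraMap k Ω) (ψ := mO k Ω n) ?_ f A
  ext t u
  simp [mO_apply', Matrix.algebraMap_eq_diagonal, Matrix.diagonal_map, Matrix.mulVec_diagonal,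
    Pi.single_apply]

theorem mO_eig {e : Basis n Ω (n → Ω)} {A : Matrix n n k} {z : n → Ω}
    (h : ∀ i, mO k Ω n A (e i) = z i • e i) (f : k[X]) (i : n) :
    mO k Ω n (aeval A f) (e i) = aeval (z i) f • e i := by
  rw [mO_aeval, aeval_basis e h, aeval_map_algebraMap]

theorem mO_twist (τ : Ω ≃ₐ[k] Ω) (A : Matrix n n k) (u : n → Ω) :
    (fun i => τ (mO k Ω n A u i)) = mO k Ω n A fun i => τ (u i) := by
  funext i
  rw [mO_apply', mO_apply', Matrix.mulVec, Matrix.mulVec, dotProduct, dotProduct, map_sum]
  refine Finset.sum_congr rfl fun j _ => ?_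
  rw [map_mul, Matrix.map_apply, AlgEquiv.commutes]

theorem twist_stable (τ : Ω ≃ₐ[k] Ω) (A : Matrix n n k) {U : Submodule Ω (n → Ω)}
    (hU : ∀ u ∈ U, mO k Ω n A u ∈ U) :
    ∀ u ∈ twist (τ : Ω ≃+* Ω) U, mO k Ω n A u ∈ twist (τ : Ω ≃+* Ω) U := by
  intro u hu
  rw [mem_twist] at hu ⊢
  have h1 := hU _ hu
  have h2 : (fun i => (τ : Ω ≃+* Ω).symm (mO k Ω n A u i)) =
      mO k Ω n A fun i => (τ : Ω ≃+* Ω).symm (u i) := mO_twist τ.symm A u
  rw [h2]
  exact h1

/-- the labels of the conjugate -/
theorem twist_label (τ : Ω ≃ₐ[k] Ω) {e : Basis n Ω (n → Ω)} {A : Matrix n n k} {z : n → Ω}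
    (hz : Injective z) (h : ∀ i, mO k Ω n A (e i) = z i • e i) {a : Equiv.Perm n}
    (ha : ∀ i, τ (z i) = z (a i)) (U : Submodule Ω (n → Ω)) (i : n) :
    e (a i) ∈ twist (τ : Ω ≃+* Ω) U ↔ e i ∈ U := by
  -- the conjugate of `e i` is a multiple of `e (a i)`
  have h1 : ∃ c : Ω, c ≠ 0 ∧ (fun l => τ (e i l)) = c • e (a i) := by
    set u : n → Ω := fun l => τ (e i l) with hu
    have h2 : mO k Ω n A u = z (a i) • u := by
      rw [hu, ← mO_twist, h i]
      funext l
      rw [Pi.smul_apply, smul_eq_mul, map_mul, ha]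
      rfl
    have h3 : ∀ j, j ≠ a i → e.repr u j = 0 := by
      intro j hj
      have h4 : e.repr (mO k Ω n A u) j = z j * e.repr u j := by
        conv_lhs => rw [← e.sum_repr u]
        rw [map_sum, map_sum, Finsupp.finsetSum_apply, Finset.sum_eq_single j]
        · rw [map_smul, h, map_smul, map_smul, Basis.repr_self, Finsupp.smul_apply,
            Finsupp.smul_apply, Finsupp.single_eq_same, smul_eq_mul, smul_eq_mul, mul_one, mul_comm]
        · intro l _ hl
          rw [map_smul, h, map_smul, map_smul, Basis.repr_self, Finsupp.smul_apply,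
            Finsupp.smul_apply, Finsupp.single_eq_of_ne (Ne.symm hl), smul_zero, smul_zero]
        · intro h
          exact absurd (Finset.mem_univ j) h
      rw [h2, map_smul, Finsupp.smul_apply, smul_eq_mul] at h4
      by_contra h5
      exact hj (hz (mul_right_cancel₀ h5 h4)).symm
    have h4 : u = e.repr u (a i) • e (a i) := by
      conv_lhs => rw [← e.sum_repr u]
      rw [Finset.sum_eq_single (a i)]
      · intro j _ hj
        rw [h3 j hj, zero_smul]
      · intro h
        exact absurd (Finset.mem_univ _) h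
    refine ⟨e.repr u (a i), ?_, h4⟩
    intro h5
    rw [h5, zero_smul] at h4
    apply e.ne_zero i
    funext l
    have h6 := congrFun h4 l
    rw [hu] at h6
    exact (map_eq_zero_iff τ τ.injective).1 h6
  obtain ⟨c, hc, h2⟩ := h1
  have h3 : e (a i) ∈ twist (τ : Ω ≃+* Ω) U ↔ c • e (a i) ∈ twist (τ : Ω ≃+* Ω) U := by
    rw [Submodule.smul_mem_iff _ hc]
  rw [h3, ← h2, mem_twist]
  have h4 : (fun l => (τ : Ω ≃+* Ω).symm (τ (e i l))) = e i := by
    funext l
    exact τ.symm_apply_apply _
  rw [h4]

/-- the dimension does not become larger over a larger field -/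
theorem finrank_le_of_base (C : Submodule k (Matrix n n k)) (D : Submodule Ω (End Ω (n → Ω)))
    (h : ∀ A ∈ C, mO k Ω n A ∈ D) : finrank k C ≤ finrank Ω D := by
  classical
  have hfree : Module.Free k C := Module.Free.of_divisionRing k C
  have hfin : FiniteDimensional k C := FiniteDimensional.finiteDimensional_submodule C
  have hfinD : FiniteDimensional Ω D := FiniteDimensional.finiteDimensional_submodule D
  let β := Module.finBasis k C
  let v : Fin (finrank k C) → End Ω (n → Ω) := fun j => mO k Ω n (β j)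
  have hli : LinearIndependent Ω v := by
    refine Fintype.linearIndependent_iff.2 fun ω hω j₀ => ?_
    obtain ⟨φ, hφ⟩ : ∃ φ : Matrix n n k →ₗ[k] k, ∀ j, φ (β j) = if j = j₀ then 1 else 0 := by
      obtain ⟨g, hg⟩ := LinearMap.exists_leftInverse_of_injective C.subtype (by
        rw [LinearMap.ker_eq_bot]
        exact C.subtype_injective)
      refine ⟨(β.coord j₀) ∘ₗ g, fun j => ?_⟩
      have h1 : g (β j) = β j := LinearMap.congr_fun hg (β j)
      rw [LinearMap.comp_apply, h1, Basis.coord_apply, Basis.repr_self, Finsupp.single_apply]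
    have h1 : ∑ j, ω j • (mO k Ω n (β j)) = 0 := hω
    have h2 : ∀ a b, ∑ j, ω j * algebraMap k Ω ((β j : Matrix n n k) a b) = 0 := by
      intro a b
      have h3 := congrFun (LinearMap.congr_fun h1 (Pi.single b 1)) a
      rw [LinearMap.sum_apply, Finset.sum_apply] at h3
      refine (Finset.sum_congr rfl fun j _ => ?_).trans h3
      rw [LinearMap.smul_apply, Pi.smul_apply, smul_eq_mul, mO_apply', Matrix.mulVec_single_one]
      rfl
    have h3 : ∀ A : Matrix n n k, φ A = ∑ a, ∑ b, A a b * φ (Matrix.single a b 1) := by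
      intro A
      conv_lhs => rw [Matrix.matrix_eq_sum_single A]
      rw [map_sum]
      refine Finset.sum_congr rfl fun a _ => ?_
      rw [map_sum]
      refine Finset.sum_congr rfl fun b _ => ?_
      rw [← smul_eq_mul, ← map_smul]
      congr 1
      rw [Matrix.smul_single, smul_eq_mul, mul_one]
    have h4 : ∑ j, ω j * algebraMap k Ω (φ (β j)) = 0 := by
      have h5 : ∀ j, ω j * algebraMap k Ω (φ (β j)) =
          ∑ a, ∑ b, ω j * algebraMap k Ω ((β j : Matrix n n k) a b) *
            algebraMap k Ω (φ (Matrix.single a b 1)) := by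
        intro j
        rw [h3, map_sum, Finset.mul_sum]
        refine Finset.sum_congr rfl fun a _ => ?_
        rw [map_sum, Finset.mul_sum]
        refine Finset.sum_congr rfl fun b _ => ?_
        rw [map_mul, mul_assoc]
      rw [Finset.sum_congr rfl fun j _ => h5 j, Finset.sum_comm]
      refine Finset.sum_eq_zero fun a _ => ?_
      rw [Finset.sum_comm]
      refine Finset.sum_eq_zero fun b _ => ?_
      rw [← Finset.sum_mul, h2, zero_mul]
    rw [Finset.sum_eq_single j₀] at h4
    · rwa [hφ, if_pos rfl, map_one, mul_one] at h4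
    · intro j _ hj
      rw [hφ, if_neg hj, map_zero, mul_zero]
    · intro hj
      exact absurd (Finset.mem_univ _) hj
  have h1 := finrank_span_eq_card hli
  rw [Fintype.card_fin] at h1
  rw [← h1]
  refine Submodule.finrank_mono ?_
  rw [Submodule.span_le]
  rintro _ ⟨j, rfl⟩
  exact h _ (β j).2

/-- the extension of a subspace to a larger field -/
noncomputable def ext (Ω : Type) [Field Ω] [Algebra k Ω] (W : Submodule k (n → k)) :
    Submodule Ω (n → Ω) :=
  Submodule.span Ω {u | ∃ w ∈ W, u = fun i => algebraMap k Ω (w i)}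

theorem mem_ext {W : Submodule k (n → k)} {w : n → k} :
    (fun i => algebraMap k Ω (w i)) ∈ ext Ω W ↔ w ∈ W := by
  classical
  constructor
  · intro h
    by_contra hw
    obtain ⟨φ, hφ, hφW⟩ := Submodule.exists_le_ker_of_notMem hw
    let φO : (n → Ω) →ₗ[Ω] Ω := ∑ i, algebraMap k Ω (φ (Pi.single i 1)) • LinearMap.proj i
    have h1 : ∀ w : n → k, φO (fun i => algebraMap k Ω (w i)) = algebraMap k Ω (φ w) := by
      intro w
      have h2 : w = ∑ i, w i • Pi.single i (1 : k) := by
        conv_lhs => rw [pi_eq_sum_univ' w]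
      conv_rhs => rw [h2]
      rw [map_sum, map_sum, LinearMap.sum_apply]
      refine Finset.sum_congr rfl fun i _ => ?_
      rw [LinearMap.smul_apply, LinearMap.proj_apply, map_smul, smul_eq_mul, smul_eq_mul, map_mul,
        mul_comm]
    have h2 : ext Ω W ≤ LinearMap.ker φO := by
      rw [ext, Submodule.span_le]
      rintro _ ⟨w, hw, rfl⟩
      rw [SetLike.mem_coe, LinearMap.mem_ker, h1, LinearMap.mem_ker.1 (hφW hw), map_zero]
    have h3 := LinearMap.mem_ker.1 (h2 h)
    rw [h1] at h3
    exact hφ ((map_eq_zero_iff _ (algebraMap k Ω).injective).1 h3)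
  · intro h
    exact Submodule.subset_span ⟨w, h, rfl⟩

theorem ext_stable {A : Matrix n n k} {W : Submodule k (n → k)} (hW : ∀ w ∈ W, A.mulVec w ∈ W) :
    ∀ u ∈ ext Ω W, mO k Ω n A u ∈ ext Ω W := by
  intro u hu
  refine Submodule.span_induction (p := fun u _ => mO k Ω n A u ∈ ext Ω W) ?_ ?_ ?_ ?_ hu
  · rintro _ ⟨w, hw, rfl⟩
    refine Submodule.subset_span ⟨A.mulVec w, hW w hw, ?_⟩
    funext i
    rw [mO_apply', Matrix.mulVec, Matrix.mulVec, dotProduct, dotProduct, map_sum]
    exact Finset.sum_congr rfl fun j _ => by rw [map_mul, Matrix.map_apply]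
  · rw [map_zero]
    exact Submodule.zero_mem _
  · intro a b _ _ ha hb
    rw [map_add]
    exact Submodule.add_mem _ ha hb
  · intro c a _ ha
    rw [map_smul]
    exact Submodule.smul_mem _ _ ha

end base

end Pool.Agent.R931.ZF
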