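import Mathlib
import Pool.Agent.R931.PD.Pencil

/-!
# The pencil, with a condition at infinitely many points of the line
-/

set_option autoImplicit false
set_option linter.unusedSectionVars false

namespace Pool.Agent.R931.ZF

open Module Finset Function Polynomial TensorProduct Pool.Agent.Y114.RM Pool.Agent.TH118.SG
  Pool.Agent.R931.ZL Pool.Agent.R931.ZM Pool.Agent.R931.PD

section pencil

variable {k : Type} [Field k] [CharZero k] {Ω : Type} [Field Ω] [CharZero Ω] [IsAlgClosed Ω]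
  [Algebra k Ω] {V : Type} [AddCommGroup V] [Module k V] [FiniteDimensional k V]

/-- the pencil -/
theorem pencilT {r : ℕ} {X₀ X₁ : End k V} (E : Finset (Fin (r + 1) → ℤ)) (hE0 : 0 ∉ E)
    {𝒯 : Set k} (h𝒯 : 𝒯.Infinite) (hline : ∀ t ∈ 𝒯, (X₀ + t • (X₁ - X₀)).charpoly.Separable →
      Dependent Ω E (X₀ + t • (X₁ - X₀)))
    {I : Type} [Fintype I] (y : I → Ω) (hyinj : Injective y)
    (hcard : Fintype.card I = finrank k V)
    (hy : ∀ i, aeval (y i) X₀.charpoly = 0) (hsep : X₁.charpoly.Separable)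
    (hr₀ : ∃ c : Fin r → I, Indep (y ∘ c))
    (hr₁ : ∃ w : Fin r → Ω, (∀ j, aeval (w j) X₁.charpoly = 0) ∧ Indep w) :
    ∃ z : I → Ω, Injective z ∧ (∀ i, aeval (z i) X₁.charpoly = 0) ∧
      (∀ n : I → ℤ, ∑ i, (n i : Ω) * z i = 0 ↔ ∑ i, (n i : Ω) * y i = 0) ∧
      ∀ (W : Submodule k V) (hW₀ : ∀ x ∈ W, X₀ x ∈ W) (hW₁ : ∀ x ∈ W, X₁ x ∈ W) (i : I),
        aeval (z i) (X₁.restrict hW₁).charpoly = 0 ↔
          aeval (y i) (X₀.restrict hW₀).charpoly = 0 := by
  classical
  obtain ⟨n, hn⟩ : ∃ n, n = finrank k V := ⟨_, rfl⟩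
  let β : Basis (Fin n) k V := (Module.finBasis k V).reindex (finCongr hn.symm)
  set M₀ := LinearMap.toMatrix β β X₀ with hM₀
  set M₁ := LinearMap.toMatrix β β X₁ with hM₁
  have f₀ : X₀.charpoly = M₀.charpoly := by rw [← LinearMap.charpoly_toMatrix X₀ β, ← hM₀]
  have f₁ : X₁.charpoly = M₁.charpoly := by rw [← LinearMap.charpoly_toMatrix X₁ β, ← hM₁]
  have hC0 : CharZero (CC k) := charZero_of_injective_algebraMap (algebraMap k (CC k)).injective
  have hinjC : Injective (algebraMap k[X] (CC k)) := by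
    rw [IsScalarTower.algebraMap_eq k[X] (FractionRing k[X]) (CC k), RingHom.coe_comp]
    exact (algebraMap (FractionRing k[X]) (CC k)).injective.comp
      (IsFractionRing.injective k[X] (FractionRing k[X]))
  obtain ⟨θ, hθ⟩ := exists_factor (C := CC k) (pen M₀ M₁).charpoly (Matrix.charpoly_monic _)
    (m := n) (by rw [Matrix.charpoly_natDegree_eq_dim, Fintype.card_fin])
  let B := integralClosure k[X] (CC k)
  have hinjB : Injective (algebraMap k[X] B) := by
    intro a b hab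
    exact hinjC (congrArg (fun x : B => (x : CC k)) hab)
  have hspec : ∀ a : k, ∃ φ : B →+* Ω, ∀ p : k[X], φ (algebraMap k[X] B p) =
      algebraMap k Ω (p.eval a) := fun a => exists_hom Ω B hinjB a
  obtain ⟨φ₀, hφ₀⟩ := hspec 0
  obtain ⟨φ₁, hφ₁⟩ := hspec 1
  have p₀ := pen_spec M₀ M₁ θ hθ φ₀ 0 hφ₀
  have p₁ := pen_spec M₀ M₁ θ hθ φ₁ 1 hφ₁
  rw [pen_zero, ← f₀] at p₀
  rw [pen_one, ← f₁] at p₁
  have hcardJ : Fintype.card (Fin n) = finrank k V := by rw [Fintype.card_fin, hn]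
  -- the orderings
  obtain ⟨ε, hε⟩ := exists_equiv hyinj (u := fun j => φ₀ (θ j))
    (fun i => (root_iff_of_prod p₀ (y i)).1 (hy i)) (hcard.trans hcardJ.symm)
  have hu₀ : Injective fun j => φ₀ (θ j) := inj_of_equiv hyinj ε hε
  have hu₁ : Injective fun j => φ₁ (θ j) := by
    have h1 : (X₁.charpoly.map (algebraMap k Ω)).Separable := hsep.map
    rw [p₁] at h1
    exact (separable_prod_X_sub_C_iff.1 h1)
  have hθinj : Injective fun j => ((θ j : B) : CC k) := by
    intro a b hab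
    apply hu₀
    have h1 : θ a = θ b := Subtype.ext hab
    change φ₀ (θ a) = φ₀ (θ b)
    rw [h1]
  have hBdom : IsDomain B := inferInstance
  have hmatβ : ∀ t : k, (X₀ + t • (X₁ - X₀)).charpoly = (M₀ + t • (M₁ - M₀)).charpoly := by
    intro t
    rw [← LinearMap.charpoly_toMatrix _ β, map_add, map_smul, map_sub]
  have hrank : ∀ (r' : ℕ) (c : Fin r' → Fin n),
      Indep (fun j => algebraMap B (CC k) (θ (c j))) → r' ≤ r := by
    intro r' c hc
    by_contra hlt
    push Not at hlt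
    have hle : r + 1 ≤ r' := hlt
    let c' : Fin (r + 1) → Fin n := fun j => c (Fin.castLE hle j)
    let b : B := ∏ η ∈ E, ∑ j, (η j : B) * θ (c' j)
    have hb : b ≠ 0 := by
      rw [Finset.prod_ne_zero_iff]
      intro η hη h0
      have h1 := congrArg (algebraMap B (CC k)) h0
      rw [map_sum, map_zero] at h1
      have h2 := hc (fun i => if h : (i : ℕ) < r + 1 then η ⟨i, h⟩ else 0) (by
        rw [← h1]
        symm
        refine Fintype.sum_of_injective (Fin.castLE hle) (Fin.castLE_injective hle) _ _ ?_ ?_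
        · intro i hi
          have h3 : ¬ (i : ℕ) < r + 1 := fun h => hi ⟨⟨i, h⟩, rfl⟩
          rw [dif_neg h3, Int.cast_zero, zero_mul]
        · intro j
          have h3 : ((Fin.castLE hle j : Fin r') : ℕ) < r + 1 := j.2
          rw [dif_pos h3, map_mul, map_intCast]
          rfl)
      apply hE0
      have h4 : η = 0 := by
        funext j
        have h5 := congrFun h2 (Fin.castLE hle j)
        have h3 : ((Fin.castLE hle j : Fin r') : ℕ) < r + 1 := j.2
        rw [dif_pos h3] at h5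
        exact h5
      rw [← h4]
      exact hη
    let Δ : B := ∏ u : Fin n × Fin n, if u.1 = u.2 then 1 else (θ u.1 - θ u.2)
    have hΔ : Δ ≠ 0 := by
      rw [Finset.prod_ne_zero_iff]
      rintro ⟨i, j⟩ -
      simp only
      split_ifs with hij
      · exact one_ne_zero
      · rw [sub_ne_zero]
        exact fun h => hij (hθinj (congrArg (fun x : B => (x : CC k)) h))
    have hbΔ : b * Δ ≠ 0 := mul_ne_zero hb hΔ
    have hcomap := Ideal.comap_ne_bot_of_integral_mem (R := k[X]) (I := Ideal.span {b * Δ}) hbΔ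
      (Ideal.mem_span_singleton_self _) (Algebra.IsIntegral.isIntegral _)
    obtain ⟨a, ha, ha0⟩ := Submodule.exists_mem_ne_zero_of_ne_bot hcomap
    rw [Ideal.mem_comap, Ideal.mem_span_singleton] at ha
    obtain ⟨b', hb'⟩ := ha
    obtain ⟨t, ht𝒯, ht⟩ : ∃ t ∈ 𝒯, a.eval t ≠ 0 := by
      by_contra hno
      push Not at hno
      exact ha0 (Polynomial.eq_zero_of_infinite_isRoot a (h𝒯.mono fun t ht => hno t ht))
    obtain ⟨φ, hφ⟩ := hspec t
    have q := pen_spec M₀ M₁ θ hθ φ t hφ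
    rw [pen_eval, ← hmatβ] at q
    have hφb : φ b * φ Δ ≠ 0 := by
      intro h0
      have h2 := hφ a
      rw [hb', map_mul, map_mul, h0, zero_mul] at h2
      exact ht ((map_eq_zero_iff _ (algebraMap k Ω).injective).1 h2.symm)
    have hinjt : Injective fun j => φ (θ j) := by
      intro i j hij
      by_contra hne
      apply (right_ne_zero_of_mul hφb)
      rw [map_prod]
      refine Finset.prod_eq_zero (Finset.mem_univ (i, j)) ?_
      simp only
      rw [if_neg hne, map_sub]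
      exact sub_eq_zero.2 hij
    have hsept : (X₀ + t • (X₁ - X₀)).charpoly.Separable := by
      rw [← Polynomial.separable_map (algebraMap k Ω), q]
      exact separable_prod_X_sub_C_iff.2 hinjt
    obtain ⟨η, hη, hη0⟩ := hline t ht𝒯 hsept (fun j => φ (θ (c' j)))
      fun j => (root_iff_of_prod q _).2 ⟨c' j, rfl⟩
    apply left_ne_zero_of_mul hφb
    rw [map_prod]
    refine Finset.prod_eq_zero hη ?_
    rw [map_sum, ← hη0]
    exact Finset.sum_congr rfl fun j _ => by rw [map_mul, map_intCast]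
  have hBinj : Injective (algebraMap B (CC k)) := Subtype.val_injective
  -- the relations
  have hrel₀ : ∀ n : Fin n → ℤ, ∑ j, (n j : Ω) * φ₀ (θ j) = 0 →
      ∑ j, (n j : B) * θ j = 0 := by
    obtain ⟨c, hc⟩ := hr₀
    refine rel_of_spec (algebraMap B (CC k)) hBinj φ₀ θ hrank ⟨fun i => ε (c i), ?_⟩
    have h1 : (fun j => φ₀ (θ (ε (c j)))) = y ∘ c := funext fun j => hε (c j)
    rw [h1]
    exact hc
  have hrel₁ : ∀ n : Fin n → ℤ, ∑ j, (n j : Ω) * φ₁ (θ j) = 0 →
      ∑ j, (n j : B) * θ j = 0 := by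
    obtain ⟨w, hw, hwi⟩ := hr₁
    choose c hc using fun j => (root_iff_of_prod p₁ (w j)).1 (hw j)
    refine rel_of_spec (algebraMap B (CC k)) hBinj φ₁ θ hrank ⟨c, ?_⟩
    have h1 : (fun j => φ₁ (θ (c j))) = w := funext hc
    rw [h1]
    exact hwi
  have hpush : ∀ (φ : B →+* Ω) (n : Fin n → ℤ), ∑ j, (n j : B) * θ j = 0 →
      ∑ j, (n j : Ω) * φ (θ j) = 0 := by
    intro φ n hn
    have h1 := congrArg φ hn
    rw [map_sum, map_zero] at h1
    rw [← h1]
    exact Finset.sum_congr rfl fun j _ => by rw [map_mul, map_intCast]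
  have hsum : ∀ (φ : B →+* Ω) (n : I → ℤ), ∑ i, (n i : Ω) * φ (θ (ε i)) =
      ∑ j, ((n (ε.symm j) : ℤ) : Ω) * φ (θ j) := by
    intro φ n
    rw [← Equiv.sum_comp ε]
    exact Finset.sum_congr rfl fun i _ => by rw [Equiv.symm_apply_apply]
  refine ⟨fun i => φ₁ (θ (ε i)), hu₁.comp ε.injective,
    fun i => (root_iff_of_prod p₁ _).2 ⟨ε i, rfl⟩, fun n => ?_, fun W hW₀ hW₁ i => ?_⟩
  · have h1 : ∑ i, (n i : Ω) * y i = ∑ i, (n i : Ω) * φ₀ (θ (ε i)) :=
      Finset.sum_congr rfl fun i _ => by rw [hε]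
    rw [h1, hsum, hsum]
    exact ⟨fun h => hpush φ₀ _ (hrel₁ _ h), fun h => hpush φ₁ _ (hrel₀ _ h)⟩
  · obtain ⟨e, β', hβ⟩ := exists_adapted W
    obtain ⟨d, hd⟩ : ∃ d, d = finrank k W := ⟨_, rfl⟩
    revert β'
    rw [← hd]
    intro β' hβ
    set N₀ := LinearMap.toMatrix β' β' X₀ with hN₀
    set N₁ := LinearMap.toMatrix β' β' X₁ with hN₁
    obtain ⟨b₀, c₀⟩ := hβ X₀ hW₀
    obtain ⟨b₁, c₁⟩ := hβ X₁ hW₁
    rw [← hN₀] at b₀ c₀
    rw [← hN₁] at b₁ c₁
    set A₀ := N₀.toBlocks₁₁ with hA₀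
    set A₁ := N₁.toBlocks₁₁ with hA₁
    set D₀ := N₀.toBlocks₂₂ with hD₀
    set D₁ := N₁.toBlocks₂₂ with hD₁
    have e₀ : N₀ = Matrix.fromBlocks A₀ N₀.toBlocks₁₂ 0 D₀ := by
      rw [← b₀, hA₀, hD₀, Matrix.fromBlocks_toBlocks]
    have e₁ : N₁ = Matrix.fromBlocks A₁ N₁.toBlocks₁₂ 0 D₁ := by
      rw [← b₁, hA₁, hD₁, Matrix.fromBlocks_toBlocks]
    have hmat : ∀ t : k, (X₀ + t • (X₁ - X₀)).charpoly =
        (A₀ + t • (A₁ - A₀)).charpoly * (D₀ + t • (D₁ - D₀)).charpoly := by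
      intro t
      have h1 : LinearMap.toMatrix β' β' (X₀ + t • (X₁ - X₀)) =
          Matrix.fromBlocks (A₀ + t • (A₁ - A₀))
            (N₀.toBlocks₁₂ + t • (N₁.toBlocks₁₂ - N₀.toBlocks₁₂)) 0 (D₀ + t • (D₁ - D₀)) := by
        rw [map_add, map_smul, map_sub, ← hN₀, ← hN₁]
        conv_lhs => rw [e₀, e₁]
        ext i j
        rcases i with i | i <;> rcases j with j | j <;> simp
      rw [← LinearMap.charpoly_toMatrix _ β', h1, Matrix.charpoly_fromBlocks_zero₂₁]
    have hprod : (pen M₀ M₁).charpoly = (pen A₀ A₁).charpoly * (pen D₀ D₁).charpoly := by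
      refine charpoly_ext fun t => ?_
      rw [Polynomial.map_mul, ← Matrix.charpoly_map, ← Matrix.charpoly_map, ← Matrix.charpoly_map]
      rw [pen_eval, pen_eval, pen_eval, ← hmatβ, hmat]
    obtain ⟨θA, hθA⟩ := exists_factor (C := CC k) (pen A₀ A₁).charpoly (Matrix.charpoly_monic _)
      (m := d) (by rw [Matrix.charpoly_natDegree_eq_dim, Fintype.card_fin])
    have hκ : ∀ j, ∃ i, θ i = θA j := by
      intro j
      have h1 : eval (θA j) ((pen M₀ M₁).charpoly.map (algebraMap k[X] B)) = 0 := by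
        rw [hprod, Polynomial.map_mul, eval_mul, hθA, eval_prod]
        rw [Finset.prod_eq_zero (Finset.mem_univ j) (by rw [eval_sub, eval_X, eval_C, sub_self]),
          zero_mul]
      rw [hθ, eval_prod, Finset.prod_eq_zero_iff] at h1
      obtain ⟨i, -, hi⟩ := h1
      rw [eval_sub, eval_X, eval_C, sub_eq_zero] at hi
      exact ⟨i, hi.symm⟩
    choose κ hκ using hκ
    have pA₀ := pen_spec A₀ A₁ θA hθA φ₀ 0 hφ₀
    have pA₁ := pen_spec A₀ A₁ θA hθA φ₁ 1 hφ₁
    rw [pen_zero] at pA₀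
    rw [pen_one] at pA₁
    rw [c₀, c₁, root_iff_of_prod pA₁, root_iff_of_prod pA₀, ← hε i]
    constructor
    · rintro ⟨j, hj⟩
      rw [← hκ] at hj
      have h1 : κ j = ε i := hu₁ hj
      exact ⟨j, by rw [← hκ, h1]⟩
    · rintro ⟨j, hj⟩
      rw [← hκ] at hj
      have h1 : κ j = ε i := hu₀ hj
      exact ⟨j, by rw [← hκ, h1]⟩

end pencil

end Pool.Agent.R931.ZF
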