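import Mathlib
import Pool.Agent.R931.ZF.Pencil
import Pool.Agent.R931.ZF.Lin
import Pool.Agent.R931.ZF.Defs

/-!
# The labels of the invariant subspaces over the algebraic closure
-/

set_option autoImplicit false
set_option linter.unusedSectionVars false

namespace Pool.Agent.R931.ZF

open Function Polynomial Module NumberField IsDedekindDomain Pool.Agent.TH118.SG
  Pool.Agent.Y114.RM Pool.Agent.Y114.MU Pool.Agent.Y114.TF Pool.Agent.Y114.GF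
  Pool.Agent.H204R3.GP Pool.Agent.R931.GD Pool.Agent.Y142.ZO Pool.Agent.Y142.ZI
  Pool.Agent.Y142.SS Pool.Agent.R931.BD Pool.Agent.R931.ZL Pool.Agent.R931.ZM Pool.Agent.R931.PD
open Pool.Agent.Y142.ZD (DistPow dist_of_nice)
open Pool.Agent.Y142.ZS (NiceP nice_of_p)
open Pool.Agent.Y497.ZO (Mt Aj)
open Pool.Agent.Y936.SS (Om)

/-- the matrices over the algebraic closure -/
noncomputable abbrev mOm (ℓ N : ℕ) [Fact ℓ.Prime] : Mt ℓ N →+* End (Om ℓ) (Fin N → Om ℓ) :=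
  mO ℚ_[ℓ] (Om ℓ) (Fin N)

section

variable {K : Type} [Field K] [NumberField K] {Γ : Type} [Group Γ] [TopologicalSpace Γ]
  [IsTopologicalGroup Γ] [CompactSpace Γ] {s : Gal(AlgebraicClosure K/K) →* Γ} {N : ℕ} {wt : ℤ}
  {c r : ℕ} {S : Set (HeightOneSpectrum (𝓞 K))} {P : HeightOneSpectrum (𝓞 K) → ℚ[X]}
  {ρ : ∀ (ℓ : ℕ) [Fact ℓ.Prime], Rep1 Γ N ℓ}

/-- an element with its eigenbasis and its logarithm -/
structure OmDat (ρ : ∀ (ℓ : ℕ) [Fact ℓ.Prime], Rep1 Γ N ℓ) (s : Gal(AlgebraicClosure K/K) →* Γ)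
    (S : Set (HeightOneSpectrum (𝓞 K))) (P : HeightOneSpectrum (𝓞 K) → ℚ[X])
    (r ℓ : ℕ) [Fact ℓ.Prime] (R : Set (Fin N → ℤ)) (γ : Γ) (z : Fin N → Om ℓ)
    (e : Basis (Fin N) (Om ℓ) (Fin N → Om ℓ)) (f : ℚ_[ℓ][X]) : Prop where
  place : ∃ v, GoodPl S P r v ∧ ∀ i, aeval (z i) ((P v).map (algebraMap ℚ ℚ_[ℓ])) = 0
  rel : relations z = R
  log : LogAt (ρ ℓ) γ z f
  rank : RankR r (relations z)
  tan : IsTangent ℓ ((matRep (ρ ℓ)).comp s) (aeval (matRep (ρ ℓ) γ) f)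
  dist : ∀ M : ℕ, 0 < M → Injective fun i => z i ^ M
  eig : ∀ i, mOm ℓ N (matRep (ρ ℓ) γ) (e i) = z i • e i

theorem exists_omDat (h : SetupG K Γ s N wt c r S P ρ) (ℓ : ℕ) [Fact ℓ.Prime]
    {v : HeightOneSpectrum (𝓞 K)} (hv : GoodPl S P r v) (hvℓ : ¬ Above v ℓ) {z : Fin N → Om ℓ}
    (hinj : Injective z) (hz : ∀ i, aeval (z i) ((P v).map (algebraMap ℚ ℚ_[ℓ])) = 0)
    {R : Set (Fin N → ℤ)} (hR : relations z = R) :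
    ∃ γ e f, OmDat ρ s S P r ℓ R γ z e f := by
  obtain ⟨γ, f, hc, hl, hr, ht⟩ := h.log ℓ hv hvℓ hinj hz
  obtain ⟨e, he⟩ := exists_eigenbasis (mOm ℓ N (matRep (ρ ℓ) γ)) z hinj
    (by rw [Module.finrank_fin_fun, Fintype.card_fin]) (fun i => by
      rw [Module.End.hasEigenvalue_iff_isRoot_charpoly, IsRoot.def, ← coe_aeval_eq_eval,
        mO_charpoly, hc, aeval_map_algebraMap]
      exact hz i)
  refine ⟨γ, e, f, ⟨v, hv, hz⟩, hR, hl, hr, ht, fun M hM i j hij => ?_, he⟩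
  exact hinj (dist_of_nice hv.1 ℓ M (z i) (z j) hM (hz i) (hz j) hij)

variable {ℓ : ℕ} [Fact ℓ.Prime] {R : Set (Fin N → ℤ)}

theorem OmDat.stab {γ : Γ} {z : Fin N → Om ℓ} {e : Basis (Fin N) (Om ℓ) (Fin N → Om ℓ)}
    {f : ℚ_[ℓ][X]} (h : OmDat ρ s S P r ℓ R γ z e f) {Δ : Subgroup Γ} (hΔ : Δ.FiniteIndex)
    {U : Submodule (Om ℓ) (Fin N → Om ℓ)}
    (hU : ∀ δ ∈ Δ, ∀ u ∈ U, mOm ℓ N (matRep (ρ ℓ) δ) u ∈ U) :
    ∀ u ∈ U, mOm ℓ N (aeval (matRep (ρ ℓ) γ) f) u ∈ U := by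
  obtain ⟨M, hM, -, hMΔ⟩ := Subgroup.exists_pow_mem_of_index_ne_zero hΔ.index_ne_zero γ
  refine stab_of_pow e (G := mOm ℓ N (matRep (ρ ℓ) γ)) (X := mOm ℓ N (aeval (matRep (ρ ℓ) γ) f))
    (M := M) h.eig (fun i => mO_eig h.eig f i) (h.dist M hM) U fun u hu => ?_
  rw [← map_pow, ← map_pow]
  exact hU _ hMΔ u hu

theorem compareT (h : SetupG K Γ s N wt c r S P ρ) {γ₀ γ₁ : Γ} {z₀ z₁ : Fin N → Om ℓ}
    {e₀ e₁ : Basis (Fin N) (Om ℓ) (Fin N → Om ℓ)} {f₀ f₁ : ℚ_[ℓ][X]}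
    (h₀ : OmDat ρ s S P r ℓ R γ₀ z₀ e₀ f₀) (h₁ : OmDat ρ s S P r ℓ R γ₁ z₁ e₁ f₁) :
    ∃ π ∈ relAut R, ∀ U : Submodule (Om ℓ) (Fin N → Om ℓ),
      (∀ u ∈ U, mOm ℓ N (aeval (matRep (ρ ℓ) γ₀) f₀) u ∈ U) →
      (∀ u ∈ U, mOm ℓ N (aeval (matRep (ρ ℓ) γ₁) f₁) u ∈ U) → ∀ i, e₁ (π i) ∈ U ↔ e₀ i ∈ U := by
  classical
  have hy₁ := h₁.log.rel ▸ h₁.rank
  obtain ⟨c₁, hc₁⟩ := hy₁.indep
  set A₀ := aeval (matRep (ρ ℓ) γ₀) f₀ with hA₀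
  set A₁ := aeval (matRep (ρ ℓ) γ₁) f₁ with hA₁
  have hline : ∀ t ∈ Set.range (algebraMap ℚ_[ℓ] (Om ℓ)), (mOm ℓ N A₀ + t •
      (mOm ℓ N A₁ - mOm ℓ N A₀)).charpoly.Separable →
      Dependent (Om ℓ) (exsK (r + 1) (finrank ℚ K) N c wt) (mOm ℓ N A₀ + t •
      (mOm ℓ N A₁ - mOm ℓ N A₀)) := by
    rintro _ ⟨t, rfl⟩ ht
    have e : mOm ℓ N A₀ + algebraMap ℚ_[ℓ] (Om ℓ) t • (mOm ℓ N A₁ - mOm ℓ N A₀) =
        mOm ℓ N (A₀ + t • (A₁ + (-1 : ℚ_[ℓ]) • A₀)) := by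
      have e2 : A₁ + (-1 : ℚ_[ℓ]) • A₀ = A₁ - A₀ := by
        rw [neg_smul, one_smul, ← sub_eq_add_neg]
      rw [e2, map_add, mO_smul, map_sub]
    rw [e, mO_charpoly, Polynomial.separable_map] at ht
    rw [e]
    have hdep := dependent_tangent h ℓ (Pool.Agent.Y708.ZO.tangent_add _ h₀.tan
      (Pool.Agent.Y708.ZO.tangent_smul _ t (Pool.Agent.Y708.ZO.tangent_add _ h₁.tan
        (Pool.Agent.Y708.ZO.tangent_smul _ (-1) h₀.tan)))) ht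
    intro w hw
    refine hdep w fun j => ?_
    have h1 := hw j
    rw [mO_charpoly, aeval_map_algebraMap] at h1
    rw [charpoly_lin]
    exact h1
  have hinf : (Set.range (algebraMap ℚ_[ℓ] (Om ℓ))).Infinite :=
    Set.infinite_range_of_injective (algebraMap ℚ_[ℓ] (Om ℓ)).injective
  obtain ⟨x, hxinj, hxroot, hxrel, hxW⟩ := pencilT (k := Om ℓ) (Ω := Om ℓ)
    (V := Fin N → Om ℓ) (exsK (r + 1) (finrank ℚ K) N c wt) (zero_notMem_exsK _ _ _ _ _) hinf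
    hline (fun i => aeval (z₀ i) f₀) h₀.log.yinj (by rw [Module.finrank_fin_fun, Fintype.card_fin])
    (fun i => by rw [mO_charpoly, aeval_map_algebraMap]; exact h₀.log.yroot i)
    (by rw [mO_charpoly, Polynomial.separable_map]; exact h₁.log.sep)
    (h₀.log.rel ▸ h₀.rank).indep ⟨fun j => aeval (z₁ (c₁ j)) f₁,
      fun j => by rw [mO_charpoly, aeval_map_algebraMap]; exact h₁.log.yroot _, hc₁⟩
  have hex : ∀ i, ∃ j, aeval (z₁ j) f₁ = x i := fun i =>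
    (sep_of_roots (Matrix.charpoly_monic _) (by
      rw [Matrix.charpoly_natDegree_eq_dim, Fintype.card_fin]) h₁.log.yinj h₁.log.yroot).2 (x i) (by
        have h2 := hxroot i
        rwa [mO_charpoly, aeval_map_algebraMap] at h2)
  obtain ⟨π, hπ⟩ := exists_equiv hxinj hex rfl
  refine ⟨π, fun n => ?_, fun U hU₀ hU₁ i => ?_⟩
  · rw [← h₀.rel, ← h₀.log.rel]
    have h3 : n ∈ lrel (fun i => aeval (z₀ i) f₀) ↔ n ∈ lrel (fun i => aeval (z₁ i) f₁) := by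
      rw [h₀.log.rel, h₁.log.rel, h₀.rel, h₁.rel]
    rw [h3, mem_lrel_perm π n]
    have h2 : (fun i => aeval (z₁ (π i)) f₁) = x := funext hπ
    rw [h2]
    exact (hxrel _).symm
  · rw [mem_iff_charpoly e₁ h₁.log.yinj (fun i => mO_eig h₁.eig f₁ i) U hU₁,
      mem_iff_charpoly e₀ h₀.log.yinj (fun i => mO_eig h₀.eig f₀ i) U hU₀]
    have h1 := hxW U hU₀ hU₁ i
    rw [← hπ i] at h1
    exact h1

/-- the labels of the invariant subspaces over the algebraic closure are stable under `H` -/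
def LabelsO (ρ : ∀ (ℓ : ℕ) [Fact ℓ.Prime], Rep1 Γ N ℓ) (ℓ : ℕ) [Fact ℓ.Prime]
    (e : Basis (Fin N) (Om ℓ) (Fin N → Om ℓ)) (H : Subgroup (Equiv.Perm (Fin N))) : Prop :=
  ∀ (Δ : Subgroup Γ), Δ.FiniteIndex → ∀ U : Submodule (Om ℓ) (Fin N → Om ℓ),
    (∀ δ ∈ Δ, ∀ u ∈ U, mOm ℓ N (matRep (ρ ℓ) δ) u ∈ U) → ∀ a ∈ H, ∀ i, e (a i) ∈ U ↔ e i ∈ U

/-- the type `a` occurs at `ℓ`, with respect to `τ` -/
def LocTypT (S : Set (HeightOneSpectrum (𝓞 K))) (P : HeightOneSpectrum (𝓞 K) → ℚ[X]) (r ℓ : ℕ)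
    [Fact ℓ.Prime] (R : Set (Fin N → ℤ)) (τ : Om ℓ ≃ₐ[ℚ_[ℓ]] Om ℓ) (a : Equiv.Perm (Fin N)) : Prop :=
  ∃ v, GoodPl S P r v ∧ ¬ Above v ℓ ∧ ∃ z : Fin N → Om ℓ, Injective z ∧
    (∀ i, aeval (z i) ((P v).map (algebraMap ℚ ℚ_[ℓ])) = 0) ∧ relations z = R ∧ ∀ i, τ (z i) = z (a i)

/-- the group of the labels -/
theorem label_coset (h : SetupG K Γ s N wt c r S P ρ) (τ : Om ℓ ≃ₐ[ℚ_[ℓ]] Om ℓ)
    {T : Set (Equiv.Perm (Fin N))} (hne : T.Nonempty) (hTA : T ⊆ relAut R)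
    (hloc : ∀ a ∈ T, LocTypT S P r ℓ R τ a) :
    ∃ (γ : Γ) (z : Fin N → Om ℓ) (e : Basis (Fin N) (Om ℓ) (Fin N → Om ℓ)) (f : ℚ_[ℓ][X])
      (H : Subgroup (Equiv.Perm (Fin N))) (y : Equiv.Perm (Fin N)), OmDat ρ s S P r ℓ R γ z e f ∧
      H ≤ relAut R ∧ y ∈ relAut R ∧ (∀ u ∈ H, y * u * y⁻¹ ∈ H) ∧ MeetsCoset (relAut R) H y T ∧
      LabelsO ρ ℓ e H := by
  classical
  obtain ⟨a₁, ha₁⟩ := hne
  obtain ⟨v₁, hv₁, hv₁ℓ, z₁, hz₁inj, hz₁, hz₁R, hτ₁⟩ := hloc a₁ ha₁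
  obtain ⟨γ₁, e, f₁, hd₁⟩ := exists_omDat h ℓ hv₁ hv₁ℓ hz₁inj hz₁ hz₁R
  let H : Subgroup (Equiv.Perm (Fin N)) :=
    { carrier := {a | a ∈ relAut R ∧ ∀ (Δ : Subgroup Γ), Δ.FiniteIndex →
        ∀ U : Submodule (Om ℓ) (Fin N → Om ℓ),
        (∀ δ ∈ Δ, ∀ u ∈ U, mOm ℓ N (matRep (ρ ℓ) δ) u ∈ U) → ∀ i, e (a i) ∈ U ↔ e i ∈ U}
      mul_mem' := fun {a a'} ha ha' => ⟨(relAut R).mul_mem ha.1 ha'.1, fun Δ hΔ W hW i => by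
        change e (a (a' i)) ∈ W ↔ e i ∈ W
        rw [ha.2 Δ hΔ W hW, ha'.2 Δ hΔ W hW]⟩
      one_mem' := ⟨(relAut R).one_mem, fun Δ hΔ W hW i => Iff.rfl⟩
      inv_mem' := fun {a} ha => ⟨(relAut R).inv_mem ha.1, fun Δ hΔ W hW i => by
        have h1 := ha.2 Δ hΔ W hW (a⁻¹ i)
        have h2 : a (a⁻¹ i) = i := Equiv.apply_symm_apply a i
        rw [h2] at h1
        exact h1.symm⟩ }
  -- the conjugate subspaces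
  have hst : ∀ (σ : Om ℓ ≃ₐ[ℚ_[ℓ]] Om ℓ) (Δ : Subgroup Γ) (U : Submodule (Om ℓ) (Fin N → Om ℓ)),
      (∀ δ ∈ Δ, ∀ u ∈ U, mOm ℓ N (matRep (ρ ℓ) δ) u ∈ U) →
      ∀ δ ∈ Δ, ∀ u ∈ twist (σ : Om ℓ ≃+* Om ℓ) U,
        mOm ℓ N (matRep (ρ ℓ) δ) u ∈ twist (σ : Om ℓ ≃+* Om ℓ) U :=
    fun σ Δ U hU δ hδ => twist_stable σ (matRep (ρ ℓ) δ) (hU δ hδ)
  have hback : ∀ U : Submodule (Om ℓ) (Fin N → Om ℓ),
      twist (τ : Om ℓ ≃+* Om ℓ) (twist (τ.symm : Om ℓ ≃+* Om ℓ) U) = U := fun U =>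
    twist_symm_twist (τ : Om ℓ ≃+* Om ℓ) U
  have hbase : ∀ (U : Submodule (Om ℓ) (Fin N → Om ℓ)) (i : Fin N),
      e (a₁ i) ∈ twist (τ : Om ℓ ≃+* Om ℓ) U ↔ e i ∈ U := fun U i =>
    twist_label τ hz₁inj hd₁.eig hτ₁ U i
  refine ⟨γ₁, z₁, e, f₁, H, a₁, hd₁, fun a ha => ha.1, hTA ha₁, fun u hu => ?_, fun a ha => ?_,
    fun Δ hΔ W hW a ha i => ha.2 Δ hΔ W hW i⟩
  · refine ⟨(relAut R).mul_mem ((relAut R).mul_mem (hTA ha₁) hu.1) ((relAut R).inv_mem (hTA ha₁)),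
      fun Δ hΔ U hU i => ?_⟩
    have h1 : (a₁ * u * a₁⁻¹) i = a₁ (u (a₁⁻¹ i)) := rfl
    have h2 : a₁ (a₁⁻¹ i) = i := Equiv.apply_symm_apply a₁ i
    rw [← hback U, h1, hbase, hu.2 Δ hΔ _ (hst τ.symm Δ U hU), ← hbase, h2]
  · obtain ⟨v, hv, hvℓ, z, hzinj, hz, hzR, hτ⟩ := hloc a ha
    obtain ⟨γ, e', f, hd⟩ := exists_omDat h ℓ hv hvℓ hzinj hz hzR
    obtain ⟨π, hπ, hlab⟩ := compareT h hd₁ hd
    refine ⟨π, hπ, (relAut R).mul_mem ((relAut R).mul_mem ((relAut R).mul_mem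
      ((relAut R).inv_mem hπ) (hTA ha)) hπ) ((relAut R).inv_mem (hTA ha₁)), fun Δ hΔ U hU i => ?_⟩
    have hl : ∀ U : Submodule (Om ℓ) (Fin N → Om ℓ),
        (∀ δ ∈ Δ, ∀ u ∈ U, mOm ℓ N (matRep (ρ ℓ) δ) u ∈ U) → ∀ i, e' (π i) ∈ U ↔ e i ∈ U :=
      fun U hU => hlab U (hd₁.stab hΔ hU) (hd.stab hΔ hU)
    set U' := twist (τ.symm : Om ℓ ≃+* Om ℓ) U with hU'
    have hU's := hst τ.symm Δ U hU
    have h1 : π ((π⁻¹ * a * π * a₁⁻¹) i) = a (π (a₁⁻¹ i)) :=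
      Equiv.apply_symm_apply π (a (π (a₁⁻¹ i)))
    have h2 : a₁ (a₁⁻¹ i) = i := Equiv.apply_symm_apply a₁ i
    have h3 : e' (a (π (a₁⁻¹ i))) ∈ twist (τ : Om ℓ ≃+* Om ℓ) U' ↔ e' (π (a₁⁻¹ i)) ∈ U' :=
      twist_label τ hzinj hd.eig hτ U' _
    have h4 : twist (τ : Om ℓ ≃+* Om ℓ) U' = U := hback U
    rw [← hl U hU, h1]
    rw [h4] at h3
    rw [h3, hl U' hU's, ← hbase, h4, h2]

end

end Pool.Agent.R931.ZF
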