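import Mathlib
import Pool.Agent.R931.ZF.Local

/-!
# Endomorphisms and invariant subspaces, and the labels over the algebraic closure
-/

set_option autoImplicit false
set_option linter.unusedSectionVars false

namespace Pool.Agent.R931.ZF

open Function Polynomial Module NumberField IsDedekindDomain Pool.Agent.TH118.SG
  Pool.Agent.Y114.RM Pool.Agent.Y114.MU Pool.Agent.Y114.TF Pool.Agent.Y114.GF
  Pool.Agent.H204R3.GP Pool.Agent.R931.GD Pool.Agent.Y142.ZO Pool.Agent.Y142.ZI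
  Pool.Agent.Y142.SS Pool.Agent.R931.BD Pool.Agent.R931.ZL Pool.Agent.R931.ZM Pool.Agent.R931.PD
open Pool.Agent.Y142.ZD (DistPow dist_of_nice)
open Pool.Agent.Y142.ZS (NiceP nice_of_p)
open Pool.Agent.Y497.ZO (Mt Aj)
open Pool.Agent.Y936.SS (Om)

section diag

variable {k V I : Type} [Field k] [AddCommGroup V] [Module k V] [FiniteDimensional k V]
  [Fintype I]

theorem repr_diag (b : Basis I k V) {X : End k V} {y : I → k} (h : ∀ i, X (b i) = y i • b i)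
    (u : V) (j : I) : b.repr (X u) j = y j * b.repr u j := by
  classical
  conv_lhs => rw [← b.sum_repr u]
  rw [map_sum, map_sum, Finsupp.finsetSum_apply, Finset.sum_eq_single j]
  · rw [map_smul, h, map_smul, map_smul, Basis.repr_self, Finsupp.smul_apply,
      Finsupp.smul_apply, Finsupp.single_eq_same, smul_eq_mul, smul_eq_mul, mul_one, mul_comm]
  · intro l _ hl
    rw [map_smul, h, map_smul, map_smul, Basis.repr_self, Finsupp.smul_apply,
      Finsupp.smul_apply, Finsupp.single_eq_of_ne (Ne.symm hl), smul_zero, smul_zero]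
  · intro h
    exact absurd (Finset.mem_univ j) h

theorem diag_of_comm (b : Basis I k V) {X Y : End k V} {y : I → k}
    (h : ∀ i, X (b i) = y i • b i) (hy : Injective y) (hXY : X * Y = Y * X) (i : I) :
    Y (b i) = b.repr (Y (b i)) i • b i := by
  classical
  have h1 : X (Y (b i)) = y i • Y (b i) := by
    have h2 := LinearMap.congr_fun hXY (b i)
    rw [Module.End.mul_apply, Module.End.mul_apply, h, map_smul] at h2
    exact h2
  have h3 : ∀ j, j ≠ i → b.repr (Y (b i)) j = 0 := by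
    intro j hj
    have h4 := repr_diag b h (Y (b i)) j
    rw [h1, map_smul, Finsupp.smul_apply, smul_eq_mul] at h4
    by_contra h5
    exact hj (hy (mul_right_cancel₀ h5 h4)).symm
  conv_lhs => rw [← b.sum_repr (Y (b i))]
  rw [Finset.sum_eq_single i]
  · intro j _ hj
    rw [h3 j hj, zero_smul]
  · intro h
    exact absurd (Finset.mem_univ _) h

end diag

section

variable {K : Type} [Field K] [NumberField K] {Γ : Type} [Group Γ] [TopologicalSpace Γ]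
  [IsTopologicalGroup Γ] [CompactSpace Γ] {s : Gal(AlgebraicClosure K/K) →* Γ} {N : ℕ} {wt : ℤ}
  {c r : ℕ} {S : Set (HeightOneSpectrum (𝓞 K))} {P : HeightOneSpectrum (𝓞 K) → ℚ[X]}
  {ρ : ∀ (ℓ : ℕ) [Fact ℓ.Prime], Rep1 Γ N ℓ} {ℓ : ℕ} [Fact ℓ.Prime] {R : Set (Fin N → ℤ)}

/-- the endomorphisms over the algebraic closure which commute with `Δ` -/
noncomputable def comO (ρ : ∀ (ℓ : ℕ) [Fact ℓ.Prime], Rep1 Γ N ℓ) (ℓ : ℕ) [Fact ℓ.Prime]
    (Δ : Subgroup Γ) : Submodule (Om ℓ) (End (Om ℓ) (Fin N → Om ℓ)) where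
  carrier := {Y | ∀ γ ∈ Δ, mOm ℓ N (matRep (ρ ℓ) γ) * Y = Y * mOm ℓ N (matRep (ρ ℓ) γ)}
  add_mem' := fun {Y Z} hY hZ γ hγ => by rw [mul_add, add_mul, hY γ hγ, hZ γ hγ]
  zero_mem' := fun γ _ => by rw [mul_zero, zero_mul]
  smul_mem' := fun a Y hY γ hγ => by rw [mul_smul_comm, smul_mul_assoc, hY γ hγ]

/-- the matrices which commute with `Δ` -/
noncomputable def comM (ρ : ∀ (ℓ : ℕ) [Fact ℓ.Prime], Rep1 Γ N ℓ) (ℓ : ℕ) [Fact ℓ.Prime]
    (Δ : Subgroup Γ) : Submodule ℚ_[ℓ] (Matrix (Fin N) (Fin N) ℚ_[ℓ]) where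
  carrier := {Y | ∀ γ ∈ Δ, matRep (ρ ℓ) γ * Y = Y * matRep (ρ ℓ) γ}
  add_mem' := fun {Y Z} hY hZ γ hγ => by rw [mul_add, add_mul, hY γ hγ, hZ γ hγ]
  zero_mem' := fun γ _ => by rw [mul_zero, zero_mul]
  smul_mem' := fun a Y hY γ hγ => by rw [mul_smul_comm, smul_mul_assoc, hY γ hγ]

theorem comO_le {γ : Γ} {z : Fin N → Om ℓ} {e : Basis (Fin N) (Om ℓ) (Fin N → Om ℓ)}
    {f : ℚ_[ℓ][X]} (hd : OmDat ρ s S P r ℓ R γ z e f) {H : Subgroup (Equiv.Perm (Fin N))}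
    (hH : LabelsO ρ ℓ e H) {Δ : Subgroup Γ} (hΔ : Δ.FiniteIndex) :
    finrank (Om ℓ) (comO ρ ℓ Δ) ≤ orbitCount H := by
  obtain ⟨M, hM, -, hMΔ⟩ := Subgroup.exists_pow_mem_of_index_ne_zero hΔ.index_ne_zero γ
  have hdiag : ∀ Y ∈ comO ρ ℓ Δ, ∀ i, Y (e i) = e.repr (Y (e i)) i • e i := by
    intro Y hY i
    refine diag_of_comm e (pow_basis e hd.eig M) (hd.dist M hM) ?_ i
    have h1 := hY _ hMΔ
    rwa [map_pow, map_pow] at h1
  refine finrank_le_orbits e H _ hdiag fun Y hY a ha i => ?_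
  set lam := e.repr (Y (e i)) i with hlam
  have hstab : ∀ δ ∈ Δ, ∀ w ∈ LinearMap.ker (Y - algebraMap (Om ℓ) _ lam),
      mOm ℓ N (matRep (ρ ℓ) δ) w ∈ LinearMap.ker (Y - algebraMap (Om ℓ) _ lam) := by
    intro δ hδ w hw
    rw [LinearMap.mem_ker, LinearMap.sub_apply, Module.algebraMap_end_apply, sub_eq_zero] at hw ⊢
    have h2 := LinearMap.congr_fun (hY δ hδ) w
    rw [Module.End.mul_apply, Module.End.mul_apply] at h2
    rw [← h2, hw, map_smul]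
  have h1 : e i ∈ LinearMap.ker (Y - algebraMap (Om ℓ) _ lam) := by
    rw [LinearMap.mem_ker, LinearMap.sub_apply, Module.algebraMap_end_apply, hdiag Y hY i, ← hlam,
      sub_self]
  have h2 := (hH Δ hΔ _ hstab a ha i).2 h1
  rw [LinearMap.mem_ker, LinearMap.sub_apply, Module.algebraMap_end_apply, sub_eq_zero] at h2
  rw [h2, map_smul, Finsupp.smul_apply, Basis.repr_self, Finsupp.single_eq_same, smul_eq_mul,
    mul_one]

theorem comM_le (Δ : Subgroup Γ) : finrank ℚ_[ℓ] (comM ρ ℓ Δ) ≤ finrank (Om ℓ) (comO ρ ℓ Δ) := by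
  refine finrank_le_of_base _ _ fun A hA γ hγ => ?_
  change mOm ℓ N (matRep (ρ ℓ) γ) * mOm ℓ N A = mOm ℓ N A * mOm ℓ N (matRep (ρ ℓ) γ)
  rw [← map_mul, ← map_mul, hA γ hγ]

theorem comS_leM (Δ : Subgroup Γ) : finrank ℚ_[ℓ] (comS ρ ℓ Δ) ≤ finrank ℚ_[ℓ] (comM ρ ℓ Δ) := by
  have hle : comS ρ ℓ Δ ≤ (comM ρ ℓ Δ).map (linHom ℓ N).toLinearMap := by
    intro Y hY
    have hA : lin (LinearMap.toMatrix' ((uu ℓ N).symm.conj Y)) = Y := by
      unfold lin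
      rw [Matrix.toLin'_toMatrix']
      refine LinearMap.ext fun x => ?_
      rw [LinearEquiv.conj_apply_apply, LinearEquiv.conj_apply_apply]
      simp
    refine ⟨LinearMap.toMatrix' ((uu ℓ N).symm.conj Y), fun γ hγ => ?_, hA⟩
    have hinj : Injective (lin : Mt ℓ N → End ℚ_[ℓ] (∀ _ : Unit, Fin N → ℚ_[ℓ])) := by
      intro A B hAB
      apply Matrix.toLin'.injective
      exact (uu ℓ N).conj.injective hAB
    apply hinj
    rw [lin_mul, lin_mul, hA, ← ZL.sumRep_eq]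
    exact hY γ hγ
  exact (Submodule.finrank_mono hle).trans (Submodule.finrank_map_le _ _)

theorem comS_leO {γ : Γ} {z : Fin N → Om ℓ} {e : Basis (Fin N) (Om ℓ) (Fin N → Om ℓ)}
    {f : ℚ_[ℓ][X]} (hd : OmDat ρ s S P r ℓ R γ z e f) {H : Subgroup (Equiv.Perm (Fin N))}
    (hH : LabelsO ρ ℓ e H) {Δ : Subgroup Γ} (hΔ : Δ.FiniteIndex) :
    finrank ℚ_[ℓ] (comS ρ ℓ Δ) ≤ orbitCount H :=
  ((comS_leM Δ).trans (comM_le Δ)).trans (comO_le hd hH hΔ)

theorem com_leS (Δ : Subgroup Γ) :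
    finrank ℚ_[ℓ] (commutant (ρ ℓ) Δ) ≤ finrank ℚ_[ℓ] (comS ρ ℓ Δ) := by
  have hconj : ∀ Y ∈ commutant (ρ ℓ) Δ, (uu ℓ N).conj Y ∈ comS ρ ℓ Δ := by
    intro Y hY δ hδ
    have h1 : sumRep (ρ ℓ) δ = (uu ℓ N).conj (ρ ℓ () δ) := sumRep_unit N (ρ ℓ ()) δ
    have h2 := hY δ hδ
    rw [h1]
    change (uu ℓ N).conj (ρ ℓ () δ) ∘ₗ (uu ℓ N).conj Y = (uu ℓ N).conj Y ∘ₗ (uu ℓ N).conj (ρ ℓ () δ)
    rw [← LinearEquiv.conj_comp, ← LinearEquiv.conj_comp]
    exact congrArg _ h2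
  let Ψ : commutant (ρ ℓ) Δ →ₗ[ℚ_[ℓ]] comS ρ ℓ Δ :=
    ((uu ℓ N).conj : End ℚ_[ℓ] (Fin N → ℚ_[ℓ]) →ₗ[ℚ_[ℓ]] _).restrict hconj
  refine LinearMap.finrank_le_finrank_of_injective (f := Ψ) fun Y Z hYZ => ?_
  apply Subtype.ext
  apply (uu ℓ N).conj.injective
  exact congrArg Subtype.val hYZ

theorem stable_leO {γ : Γ} {z : Fin N → Om ℓ} {e : Basis (Fin N) (Om ℓ) (Fin N → Om ℓ)}
    {f : ℚ_[ℓ][X]} (hd : OmDat ρ s S P r ℓ R γ z e f) {H : Subgroup (Equiv.Perm (Fin N))}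
    (hH : LabelsO ρ ℓ e H) {Δ : Subgroup Γ} (hΔ : Δ.FiniteIndex) :
    (stableSubspaces (ρ ℓ) Δ).encard ≤ 2 ^ orbitCount H := by
  classical
  let Q : Type := MulAction.orbitRel.Quotient H (Fin N)
  have hQ : Finite Q := Quotient.finite _
  let _ : Fintype Q := Fintype.ofFinite Q
  have hext : ∀ W ∈ stableSubspaces (ρ ℓ) Δ, ∀ δ ∈ Δ, ∀ u ∈ ext (Om ℓ) W,
      mOm ℓ N (matRep (ρ ℓ) δ) u ∈ ext (Om ℓ) W := by
    intro W hW δ hδ
    refine ext_stable fun w hw => ?_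
    have h1 := hW δ hδ w hw
    rw [matRep_apply, ← Matrix.toLin'_apply, Matrix.toLin'_toMatrix']
    exact h1
  let F : stableSubspaces (ρ ℓ) Δ → Set Q := fun W => {o | e (Quotient.out o) ∈ ext (Om ℓ) W.1}
  have hmem : ∀ (W : stableSubspaces (ρ ℓ) Δ) (i : Fin N),
      e i ∈ ext (Om ℓ) W.1 ↔ (Quotient.mk _ i : Q) ∈ F W := by
    intro W i
    have h4 : (MulAction.orbitRel H (Fin N)) (Quotient.out (Quotient.mk _ i : Q)) i :=
      Quotient.exact (Quotient.out_eq _)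
    rw [MulAction.orbitRel_apply] at h4
    obtain ⟨a, ha⟩ := h4
    have h5 : (a : Equiv.Perm (Fin N)) i = Quotient.out (Quotient.mk _ i : Q) := ha
    change _ ↔ e (Quotient.out (Quotient.mk _ i : Q)) ∈ ext (Om ℓ) W.1
    rw [← h5]
    exact (hH Δ hΔ _ (hext W W.2) a a.2 i).symm
  have hle : ∀ W₁ W₂ : stableSubspaces (ρ ℓ) Δ, F W₁ = F W₂ → W₁.1 ≤ W₂.1 := by
    intro W₁ W₂ hF w hw
    rw [← mem_ext (Ω := Om ℓ)] at hw ⊢
    rw [← e.sum_repr (fun i => algebraMap ℚ_[ℓ] (Om ℓ) (w i))]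
    refine Submodule.sum_mem _ fun i _ => ?_
    by_cases hi : e.repr (fun i => algebraMap ℚ_[ℓ] (Om ℓ) (w i)) i = 0
    · rw [hi, zero_smul]
      exact Submodule.zero_mem _
    · refine Submodule.smul_mem _ _ ?_
      have h1 := comp_mem e hd.log.yinj (fun i => mO_eig hd.eig f i) (ext (Om ℓ) W₁.1)
        (hd.stab hΔ (hext W₁ W₁.2)) hw hi
      rw [hmem] at h1 ⊢
      rw [← hF]
      exact h1
  have hinj : Injective F := fun W₁ W₂ hF =>
    Subtype.ext (le_antisymm (hle W₁ W₂ hF) (hle W₂ W₁ hF.symm))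
  have hfin : Finite (stableSubspaces (ρ ℓ) Δ) := Finite.of_injective F hinj
  have h1 := Nat.card_le_card_of_injective F hinj
  have h2 : Nat.card (Set Q) = 2 ^ orbitCount H := by
    rw [Nat.card_eq_fintype_card, Fintype.card_set, orbitCount, Nat.card_eq_fintype_card]
  rw [h2] at h1
  rw [← (Set.toFinite (stableSubspaces (ρ ℓ) Δ)).cast_ncard_eq]
  have h3 : (stableSubspaces (ρ ℓ) Δ).ncard ≤ 2 ^ orbitCount H := by
    rw [← Nat.card_coe_set_eq]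
    exact h1
  exact_mod_cast h3

end

end Pool.Agent.R931.ZF
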