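import Mathlib
import Pool.Agent.R931.ZL.Defs

/-!
# Types of tangent vectors: definitions
-/

set_option autoImplicit false

namespace Pool.Agent.R931.ZF

open NumberField IsDedekindDomain Polynomial Pool.Agent.Y114.TF Pool.Agent.Y114.GF
  Pool.Agent.Y114.RM Pool.Agent.R931.GD Pool.Agent.R931.ZL Filter Topology

/-- The matrix `X` is a tangent vector (at the identity) of the image of the Galois group: it is a limit of
matrices `ℓ ^ (-n) * (ρ (s (σ n)) - 1)`.  The tangent vectors form the Lie algebra of the image. -/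
def IsTangentVector {K : Type} [Field K] [NumberField K] {Γ : Type} [Group Γ] {N ℓ : ℕ}
    [Fact ℓ.Prime] (s : Gal(AlgebraicClosure K/K) →* Γ) (ρ : Rep1 Γ N ℓ)
    (X : Matrix (Fin N) (Fin N) ℚ_[ℓ]) : Prop :=
  ∃ σ : ℕ → Gal(AlgebraicClosure K/K),
    Tendsto (fun n : ℕ => ((ℓ : ℚ_[ℓ]) ^ n)⁻¹ • (LinearMap.toMatrix' (ρ () (s (σ n))) - 1))
      atTop (𝓝 X)

/-- The matrix `X` has the type `a`, with respect to the relations `R` and the automorphism `τ` of the
algebraic closure of `ℚ_ℓ`: it has `N` different eigenvalues `y i`, `R` is the set of the linear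
relations (with integer coefficients) between them, and `τ (y i) = y (a i)`. -/
def HasLieType {N ℓ : ℕ} [Fact ℓ.Prime] (X : Matrix (Fin N) (Fin N) ℚ_[ℓ])
    (R : Set (Fin N → ℤ)) (τ : Gal(PadicAlgCl ℓ/ℚ_[ℓ])) (a : Equiv.Perm (Fin N)) : Prop :=
  ∃ y : Fin N → PadicAlgCl ℓ, Function.Injective y ∧ (∀ i, aeval (y i) X.charpoly = 0) ∧
    {n : Fin N → ℤ | ∑ i, (n i : PadicAlgCl ℓ) * y i = 0} = R ∧ ∀ i, τ (y i) = y (a i)

/-- The type `a` occurs at `ℓ`: it is the type of an element of the image of the Galois group, or of a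
tangent vector of the image. -/
def TypeOccurs {K : Type} [Field K] [NumberField K] {Γ : Type} [Group Γ] {N ℓ : ℕ}
    [Fact ℓ.Prime] (s : Gal(AlgebraicClosure K/K) →* Γ) (ρ : Rep1 Γ N ℓ)
    (R : Set (Fin N → ℤ)) (τ : Gal(PadicAlgCl ℓ/ℚ_[ℓ])) (a : Equiv.Perm (Fin N)) : Prop :=
  (∃ σ : Gal(AlgebraicClosure K/K), HasType ρ (s σ) R τ a) ∨
    ∃ X, IsTangentVector s ρ X ∧ HasLieType X R τ a

end Pool.Agent.R931.ZF
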