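import Mathlib
import Pool.Agent.R931.ZF.Types
import Pool.Agent.R931.ZF.Defs
import Pool.Agent.R931.ZM.Fin

/-!
# Places of maximal rank near a tangent vector
-/

set_option autoImplicit false
set_option linter.unusedSectionVars false

namespace Pool.Agent.R931.ZF

open Function Polynomial Module NumberField IsDedekindDomain Pool.Agent.TH118.SG
  Pool.Agent.Y114.RM Pool.Agent.Y114.MU Pool.Agent.Y114.TF Pool.Agent.Y114.GF
  Pool.Agent.H204R3.GP Pool.Agent.R931.GD Pool.Agent.Y142.ZO Pool.Agent.Y142.ZI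
  Pool.Agent.Y142.SS Pool.Agent.R931.BD Pool.Agent.R931.ZL Pool.Agent.R931.ZM
open Pool.Agent.Y142.ZD (DistPow)
open Pool.Agent.Y142.ZS (NiceP nice_of_p)
open Pool.Agent.Y497.ZO (Mt Aj)
open Pool.Agent.Y936.SS (Om)

theorem isLat_lrel {F I : Type} [Field F] [CharZero F] [Fintype I] (y : I → F) :
    IsLat (lrel y) where
  zero := by
    change ∑ i, ((0 : I → ℤ) i : F) * y i = 0
    simp
  add := by
    intro m hm n hn
    have hm' : ∑ i, (m i : F) * y i = 0 := hm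
    have hn' : ∑ i, (n i : F) * y i = 0 := hn
    change ∑ i, ((m + n) i : F) * y i = 0
    simp only [Pi.add_apply, Int.cast_add, add_mul, Finset.sum_add_distrib, hm', hn', add_zero]
  neg := by
    intro m hm
    have hm' : ∑ i, (m i : F) * y i = 0 := hm
    change ∑ i, ((-m) i : F) * y i = 0
    simp only [Pi.neg_apply, Int.cast_neg, neg_mul, Finset.sum_neg_distrib, hm', neg_zero]
  sat := by
    intro a n ha h
    have h' : ∑ i, ((a • n) i : F) * y i = 0 := h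
    change ∑ i, (n i : F) * y i = 0
    have h1 : (a : F) * ∑ i, (n i : F) * y i = 0 := by
      rw [← h', Finset.mul_sum]
      refine Finset.sum_congr rfl fun i _ => ?_
      rw [Pi.smul_apply, smul_eq_mul, Int.cast_mul, mul_assoc]
    exact (mul_eq_zero.1 h1).resolve_left (by exact_mod_cast ha)

section

variable {K : Type} [Field K] [NumberField K] {Γ : Type} [Group Γ] [TopologicalSpace Γ]
  [IsTopologicalGroup Γ] [CompactSpace Γ] {s : Gal(AlgebraicClosure K/K) →* Γ} {N : ℕ} {wt : ℤ}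
  {c r : ℕ} {S : Set (HeightOneSpectrum (𝓞 K))} {P : HeightOneSpectrum (𝓞 K) → ℚ[X]}
  {ρ : ∀ (ℓ : ℕ) [Fact ℓ.Prime], Rep1 Γ N ℓ}

/-- realization of the type of a tangent vector by a place of maximal rank -/
theorem realizeT (h : SetupG K Γ s N wt c r S P ρ) (ℓ : ℕ) [Fact ℓ.Prime] {T : Mt ℓ N}
    (htan : IsTangent ℓ ((matRep (ρ ℓ)).comp s) T) (hsepT : T.charpoly.Separable)
    {y : Fin N → Om ℓ} (hinj : Injective y) (hy : ∀ a, aeval (y a) T.charpoly = 0)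
    (hr₀ : RankR r (lrel y)) :
    ∃ v, GoodPl S P r v ∧ ¬ Above v ℓ ∧ ∃ z : Fin N → Om ℓ, Injective z ∧
      (∀ a, aeval (z a) ((P v).map (algebraMap ℚ ℚ_[ℓ])) = 0) ∧ relations z = lrel y ∧
      ∀ (τ : Om ℓ ≃ₐ[ℚ_[ℓ]] Om ℓ) a b, τ (y a) = y b → τ (z a) = z b := by
  classical
  obtain ⟨d, hd⟩ := hr₀
  set D : ℕ := finrank ℚ K with hD
  let E : Finset (Fin N → ℤ) := (exsK r D N c wt).image (push d) ∪
    ((Finset.univ : Finset (Fin (r + 1) → Fin N)).biUnion fun d' =>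
      (exsK (r + 1) D N c wt).image (push d')).filter fun n => n ∉ lrel y
  have hE : ∀ n ∈ E, n ∉ lrel y := by
    intro n hn
    rcases Finset.mem_union.1 hn with hn | hn
    · intro hmem
      obtain ⟨e, he, rfl⟩ := Finset.mem_image.1 hn
      have h1 := hd e hmem
      rw [h1] at he
      exact zero_notMem_exsK r D N c wt he
    · exact (Finset.mem_filter.1 hn).2
  obtain ⟨δ, k₀, hδ, hclose⟩ := near_tangent h.pos (ρ ℓ) T hsepT hinj hy E hE
  obtain ⟨O, hO, hOne, hOσ⟩ := Pool.Agent.Y537.ZI.t (GK K) N Unit (fun _ => ℓ) (fun _ _ _ => rfl)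
    (fun _ => (matRep (ρ ℓ)).comp s) (fun _ => (h.cont ℓ ()).comp h.cont_s) (fun _ => T)
    (fun _ => htan) δ k₀ hδ
  have hfin : (S ∪ {v : HeightOneSpectrum (𝓞 K) | (ℓ : 𝓞 K) ∈ v.asIdeal}).Finite :=
    h.fin.union (finite_above ℓ (Fact.out : ℓ.Prime))
  obtain ⟨v, hv, s', hs, hsO⟩ := Pool.Agent.Y405.ZO.t K O hO hOne _ hfin
  rw [Set.mem_union, not_or] at hv
  have hvℓ : ¬ Above v ℓ := hv.2
  obtain ⟨hPm, hPd⟩ := h.monic hv.1
  obtain ⟨k, hk, hcl⟩ := hOσ s'⁻¹ hsO ()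
  have hmain := hclose k (s s'⁻¹) hk hcl
  have hz0' := fun (z : Om ℓ) hz => ne_zero_of_root (ρ ℓ) (s s'⁻¹) (z := z) hz
  rw [h.frob ℓ hv.1 hvℓ hs] at hmain hz0'
  obtain ⟨hs1, hs2, z, hzinj, hz, hzE, hzτ⟩ := hmain
  have hz0 : ∀ a, z a ≠ 0 := fun a => hz0' _ (hz a)
  obtain ⟨hind1, hind2⟩ := h.ind hv.1 (fun k => z (d k)) (fun k => hz _) fun e he hmem => by
    rw [mem_mrel_comp hz0] at hmem
    exact hzE _ (Finset.mem_union_left _ (Finset.mem_image_of_mem _ he)) hmem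
  have hnice : NiceP S P v := nice_of_p hv.1 hPm ℓ hs1 hs2
  refine ⟨v, ⟨hnice, hind2⟩, hvℓ, z, hzinj, hz, ?_, hzτ⟩
  refine lat_eq (isLat_relations hz0) (isLat_lrel y) d
    (fun e he => hind1 e ((mem_mrel_comp hz0 _ _).2 he)) hd fun a => ?_
  obtain ⟨e, he, hrel⟩ := h.dep hnice
    (fun k => z (Fin.snoc (α := fun _ => Fin N) d a k)) (fun k => hz _)
  rw [mem_mrel_comp hz0] at hrel
  have hrel' : push (Fin.snoc (α := fun _ => Fin N) d a) e ∈ lrel y := by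
    by_contra hno
    refine hzE _ (Finset.mem_union_right _ (Finset.mem_filter.2 ⟨?_, hno⟩)) hrel
    exact Finset.mem_biUnion.2 ⟨_, Finset.mem_univ _, Finset.mem_image_of_mem _ he⟩
  rw [push_snoc] at hrel hrel'
  have hlast : e (Fin.last r) ≠ 0 := by
    intro h0
    rw [h0, zero_smul, add_zero] at hrel'
    have h2 := hd _ hrel'
    have h3 : e = 0 := by
      funext k
      refine Fin.lastCases h0 (fun k => congrFun h2 k) k
    rw [h3] at he
    exact zero_notMem_exsK _ _ _ _ _ he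
  have e1 : e (Fin.last r) • Pi.single a (1 : ℤ) - push d (fun k => -e (Fin.castSucc k)) =
      push d (fun k => e (Fin.castSucc k)) + e (Fin.last r) • Pi.single a 1 := by
    have e2 : (fun k => -e (Fin.castSucc k)) = (-1 : ℤ) • fun k : Fin r => e (Fin.castSucc k) := by
      funext k
      simp
    rw [e2, push_smul, neg_smul, one_smul]
    abel
  refine ⟨e (Fin.last r), hlast, fun k => -e (Fin.castSucc k), ?_, ?_⟩
  · rw [e1]
    exact hrel
  · rw [e1]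
    exact hrel'

/-- the types at one prime give global types -/
theorem main_localT (h : SetupG K Γ s N wt c r S P ρ) (R : Set (Fin N → ℤ)) (hR : RankGE r R)
    (T : Set (Equiv.Perm (Fin N)))
    (ℓ₀ : ℕ) [Fact ℓ₀.Prime] (τ₀ : Gal(PadicAlgCl ℓ₀/ℚ_[ℓ₀]))
    (hτ₀ : ∀ a ∈ T, TypeOccurs s (ρ ℓ₀) R τ₀ a) :
    ∃ σ₀ : GK ℚ, ∀ a ∈ T, ∃ v, GoodPl S P r v ∧ σ₀ ∈ Typ R a (P v) := by
  obtain ⟨ι⟩ := emb ℓ₀
  obtain ⟨σ₀, hσ₀⟩ := restrict_aut ι τ₀
  have key : ∀ a, ∀ v, GoodPl S P r v → ∀ z' : Fin N → Om ℓ₀, Injective z' →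
      (∀ a, aeval (z' a) ((P v).map (algebraMap ℚ ℚ_[ℓ₀])) = 0) → relations z' = R →
      (∀ i, τ₀ (z' i) = z' (a i)) → σ₀ ∈ Typ R a (P v) := by
    intro a v hv z' hinj' hz' hzR' hτ'
    have hlift : ∀ a, ∃ y : QQ, aeval y (P v) = 0 ∧ ι y = z' a := fun a =>
      lift_root ℓ₀ ι hv.1.2.1.ne_zero (hz' a)
    choose x hx hxz using hlift
    have hxz' : (fun a => ι (x a)) = z' := funext hxz
    refine ⟨x, fun a b hab => hinj' (by rw [← hxz, ← hxz, hab]), hx, ?_, fun i => ?_⟩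
    · rw [← mrel_map ι x, hxz', hzR']
    · apply ι.injective
      rw [← hσ₀, hxz, hxz]
      exact hτ' i
  refine ⟨σ₀, fun a ha => ?_⟩
  rcases hτ₀ a ha with ⟨σ, z, hz', hpow, hzR, hτ⟩ | ⟨X, hX, y, hyinj, hy, hyR, hτ⟩
  · have hinj : Injective z := fun i j hij => hpow i j 1 one_pos (by rw [hij])
    have hchar : (matRep (ρ ℓ₀) (s σ)).charpoly = ((ρ ℓ₀) () (s σ)).charpoly := by
      rw [matRep_apply, ← Matrix.charpoly_toLin', Matrix.toLin'_toMatrix']
    have hz : ∀ i, aeval (z i) (matRep (ρ ℓ₀) (s σ)).charpoly = 0 := by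
      intro i
      rw [hchar]
      exact hz' i
    obtain ⟨hsep, hall⟩ := sep_of_roots (Matrix.charpoly_monic _) (by
      rw [Matrix.charpoly_natDegree_eq_dim, Fintype.card_fin]) hinj hz
    have hdist : DistPow ℓ₀ (matRep (ρ ℓ₀) (s σ)).charpoly := by
      intro n x y hn hx hy hxy
      obtain ⟨i, rfl⟩ := hall x hx
      obtain ⟨j, rfl⟩ := hall y hy
      rw [hpow i j n hn hxy]
    obtain ⟨v, hv, -, h1⟩ := ZM.realize h Unit (fun _ => ℓ₀) (fun _ _ _ => rfl) (fun _ => σ)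
      (fun _ => hsep) (fun _ => hdist) (fun _ => z) (fun _ => hinj) (fun _ => hz)
      (fun _ => by rw [hzR]; exact rankR_of hR)
    obtain ⟨z', hinj', hz', hzR', hτ'⟩ := h1 ()
    exact ⟨v, hv, key a v hv z' hinj' hz' (by rw [hzR', hzR]) fun i => hτ' τ₀ i (a i) (hτ i)⟩
  · have hsep := (sep_of_roots (Matrix.charpoly_monic X) (by
      rw [Matrix.charpoly_natDegree_eq_dim, Fintype.card_fin]) hyinj hy).1
    have hyR' : lrel y = R := hyR
    have hX' : IsTangent ℓ₀ ((matRep (ρ ℓ₀)).comp s) X := hX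
    obtain ⟨v, hv, -, z', hinj', hz', hzR', hτ'⟩ := realizeT h ℓ₀ hX' hsep hyinj hy
      (by rw [hyR']; exact rankR_of hR)
    exact ⟨v, hv, key a v hv z' hinj' hz' (by rw [hzR', hyR']) fun i => hτ' τ₀ i (a i) (hτ i)⟩

end

end Pool.Agent.R931.ZF
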