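import Mathlib
import Pool.Agent.R931.ZF.CF
import Pool.Agent.R931.ZF.Endo
import Pool.Agent.R931.ZF.Lie

/-!
# The types at almost all primes
-/

set_option autoImplicit false
set_option linter.unusedSectionVars false

namespace Pool.Agent.R931.ZF

open Function Polynomial Module NumberField IsDedekindDomain Pool.Agent.TH118.SG
  Pool.Agent.Y114.RM Pool.Agent.Y114.MU Pool.Agent.Y114.TF Pool.Agent.Y114.GF
  Pool.Agent.H204R3.GP Pool.Agent.R931.GD Pool.Agent.Y142.ZO Pool.Agent.Y142.ZI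
  Pool.Agent.Y142.SS Pool.Agent.R931.BD Pool.Agent.R931.ZL Pool.Agent.R931.ZM Pool.Agent.R931.PD
open Pool.Agent.Y142.ZD (DistPow dist_of_nice)
open Pool.Agent.Y142.ZS (NiceP nice_of_p S_SPL)
open Pool.Agent.Y936.SS (Om)

section

variable {K : Type} [Field K] [NumberField K] {Γ : Type} [Group Γ] [TopologicalSpace Γ]
  [IsTopologicalGroup Γ] [CompactSpace Γ] {s : Gal(AlgebraicClosure K/K) →* Γ} {N : ℕ} {wt : ℤ}
  {c r : ℕ} {S : Set (HeightOneSpectrum (𝓞 K))} {P : HeightOneSpectrum (𝓞 K) → ℚ[X]}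
  {ρ : ∀ (ℓ : ℕ) [Fact ℓ.Prime], Rep1 Γ N ℓ}

/-- the elements which agree on the roots -/
theorem core_of_agree {v : HeightOneSpectrum (𝓞 K)} (hv : GoodPl S P r v) {g h : GK ℚ}
    (hgh : ∀ x : QQ, aeval x (P v) = 0 → g x = h x) : h⁻¹ * g ∈ core S P r :=
  fix_le_core hv fun x hx => by
    rw [AlgEquiv.mul_apply, hgh x hx, ← AlgEquiv.mul_apply, inv_mul_cancel, AlgEquiv.one_apply]

theorem densityF (h : SetupG K Γ s N wt c r S P ρ) (hLOC : S_LOC) (hINT : S_INT)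
    (hDENS2 : S_DENS2) (R : Set (Fin N → ℤ)) (b : Equiv.Perm (Fin N))
    {v₁ : HeightOneSpectrum (𝓞 K)} (hv₁ : GoodPl S P r v₁) {w₀ w : GK ℚ}
    (hw : w ∈ Typ R b (P v₁)) (hwc : w * w₀⁻¹ ∈ core S P r) :
    Pool.Agent.Y142.ZI.DensityZero {ℓ | ∃ _ : Fact ℓ.Prime, σL ℓ * w₀⁻¹ ∈ core S P r ∧
      ¬ LocTypT S P r ℓ R (τL ℓ) b} := by
  classical
  set C := core S P r with hC
  have hΦ := typ_isClass R b
  refine hDENS2 _ N.factorial (fun ℓ hℓ => hℓ.1.out) fun M hM => ?_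
  obtain ⟨v, Q, hv, hMQ, hfix, σ, h1, h2, h3⟩ := key3R h hLOC hINT hv₁ w M hM
  obtain ⟨b₀, hb₀⟩ := conj_frob_roots (P v) (h.monic hv.1.1).1 hv.1.2.2.1
  have hdeg := (h.monic hv.1.1).2
  refine ⟨Lf (P v), {g | ¬ ∃ x : GK ℚ, x * g * x⁻¹ * w₀⁻¹ ∈ C} ∪ Typ R b (P v), Lf_finite _,
    Lf_normal _, ?_, ?_, ?_, ?_, max b₀ (Ideal.absNorm v.asIdeal), ?_⟩
  · have h1 := Lf_finrank hv.1.2.2.1
    rwa [hdeg] at h1
  · rintro g (hg | hg) y
    · left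
      rintro ⟨x, hx⟩
      apply hg
      refine ⟨x * y, ?_⟩
      have h4 : x * y * g * (x * y)⁻¹ * w₀⁻¹ = x * (y * g * y⁻¹) * x⁻¹ * w₀⁻¹ := by group
      rw [h4]
      exact hx
    · exact Or.inr (hΦ.conj _ g y hg)
  · rintro g (hg | hg) t ht
    · left
      rintro ⟨x, hx⟩
      apply hg
      refine ⟨x, ?_⟩
      have ht' : t ∈ C := fix_le_core hv fun x hx => ht x (mem_Lf hv.1.2.1.ne_zero hx)
      have h4 : x * g * x⁻¹ * w₀⁻¹ = x * (g * t) * x⁻¹ * w₀⁻¹ * ((w₀ * x) * t * (w₀ * x)⁻¹)⁻¹ := by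
        group
      rw [h4]
      exact C.mul_mem hx (C.inv_mem (core_conj _ _ ht'))
    · exact Or.inr (hΦ.mul _ g t hg fun x hx => ht x (mem_Lf hv.1.2.1.ne_zero hx))
  · intro g
    by_cases hg : ∃ x : GK ℚ, x * g * x⁻¹ * w₀⁻¹ ∈ C
    · obtain ⟨x, hx⟩ := hg
      have hσw : w⁻¹ * σ ∈ C := core_of_agree hv₁ h2
      have hσc : σ * w₀⁻¹ ∈ C := by
        have h4 : σ * w₀⁻¹ = w * w₀⁻¹ * (w₀ * (w⁻¹ * σ) * w₀⁻¹) := by group
        rw [h4]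
        exact C.mul_mem hwc (core_conj _ _ hσw)
      have ha : σ⁻¹ * (x * g * x⁻¹) ∈ C := by
        have h4 : σ⁻¹ * (x * g * x⁻¹) =
            σ⁻¹ * (x * g * x⁻¹ * w₀⁻¹ * (σ * w₀⁻¹)⁻¹) * σ⁻¹⁻¹ := by group
        rw [h4]
        exact core_conj _ _ (C.mul_mem hx (C.inv_mem hσc))
      obtain ⟨t, ht, hta⟩ := hfix _ ha
      have hσΦ : σ ∈ Typ R b (P v) := by
        refine hΦ.trans _ _ _ h3 ?_
        have e : σ = w * (w⁻¹ * σ) := by group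
        rw [e]
        refine hΦ.mul _ _ _ hw fun x hx => ?_
        rw [AlgEquiv.mul_apply, h2 x hx, ← AlgEquiv.mul_apply, inv_mul_cancel, AlgEquiv.one_apply]
      refine ⟨x⁻¹ * ((σ⁻¹ * (x * g * x⁻¹))⁻¹ * t) * x, fun y hy => ?_, Or.inr ?_⟩
      · have h4 := stable_Lf Q x (hMQ hy)
        rw [AlgEquiv.mul_apply, AlgEquiv.mul_apply, AlgEquiv.mul_apply, hta _ h4,
          ← AlgEquiv.mul_apply (σ⁻¹ * (x * g * x⁻¹))⁻¹, inv_mul_cancel, AlgEquiv.one_apply,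
          ← AlgEquiv.mul_apply x⁻¹, inv_mul_cancel, AlgEquiv.one_apply]
      · have h4 : g * (x⁻¹ * ((σ⁻¹ * (x * g * x⁻¹))⁻¹ * t) * x) = x⁻¹ * (σ * t) * x⁻¹⁻¹ := by
          group
        rw [h4]
        exact hΦ.conj _ _ _ (hΦ.mul _ _ _ hσΦ ht)
    · exact ⟨1, fun x _ => rfl, Or.inl (by rwa [mul_one])⟩
  · rintro ℓ ⟨hp, hc, hno⟩ hbℓ σ' hσ'
    obtain ⟨x, hx⟩ := hb₀ ℓ ((le_max_left _ _).trans_lt hbℓ) hp (σL ℓ) σ' (frob_σL ℓ) hσ'
    have hfx : (x * σL ℓ * x⁻¹)⁻¹ * σ' ∈ C := core_of_agree hv hx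
    rintro (hg | hg)
    · apply hg
      refine ⟨x⁻¹, ?_⟩
      have h4 : x⁻¹ * σ' * x⁻¹⁻¹ * w₀⁻¹ = σL ℓ * w₀⁻¹ *
          ((w₀ * x⁻¹) * ((x * σL ℓ * x⁻¹)⁻¹ * σ') * (w₀ * x⁻¹)⁻¹) := by group
      rw [h4]
      exact C.mul_mem hc (core_conj _ _ hfx)
    · apply hno
      have h5 : σL ℓ ∈ Typ R b (P v) := by
        have h6 : σL ℓ = x⁻¹ * (σ' * ((σ'⁻¹ * (x * σL ℓ * x⁻¹)))) * x⁻¹⁻¹ := by group
        rw [h6]
        refine hΦ.conj _ _ _ (hΦ.mul _ _ _ hg fun y hy => ?_)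
        rw [AlgEquiv.mul_apply, ← hx y hy, ← AlgEquiv.mul_apply, inv_mul_cancel,
          AlgEquiv.one_apply]
      obtain ⟨y, hinj, hy, hR, hya⟩ := h5
      refine ⟨v, hv, not_mem_of_lt v hp.out ((le_max_right _ _).trans_lt hbℓ), fun i => ιL ℓ (y i),
        (ιL ℓ).injective.comp hinj, fun i => push_root ℓ (ιL ℓ) (hy i), ?_, fun i => ?_⟩
      · rw [mrel_map, hR]
      · rw [τL_ιL, hya]

theorem density_biUnion {I : Type} (A : Finset I) (f : I → Set ℕ)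
    (h : ∀ i ∈ A, Pool.Agent.Y142.ZI.DensityZero (f i)) :
    Pool.Agent.Y142.ZI.DensityZero (⋃ i ∈ A, f i) := by
  classical
  induction A using Finset.induction_on with
  | empty =>
    simp only [Finset.notMem_empty, Set.iUnion_of_empty, Set.iUnion_empty]
    exact densityZero_finite Set.finite_empty
  | insert a A _ ih =>
    rw [Finset.set_biUnion_insert]
    exact (h a (Finset.mem_insert_self _ _)).union
      (ih fun i hi => h i (Finset.mem_insert_of_mem hi))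

/-- the types at almost all primes -/
theorem typesF (h : SetupG K Γ s N wt c r S P ρ) (R : Set (Fin N → ℤ))
    {J : Type} [Finite J] (T : J → Set (Equiv.Perm (Fin N))) (hne : ∃ j, (T j).Nonempty)
    (σ₀ : J → GK ℚ) (hσ₀ : ∀ j, ∀ a ∈ T j, ∃ v, GoodPl S P r v ∧ σ₀ j ∈ Typ R a (P v)) :
    ∃ G M : Subgroup (Equiv.Perm (Fin N)), G ≤ relAut R ∧ M ≤ G ∧
      (∀ x ∈ G, ∀ u ∈ M, x * u * x⁻¹ ∈ M) ∧ (∀ j, ∃ x ∈ G, MeetsCoset (relAut R) M x (T j)) ∧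
      (∃ v, GoodPl S P r v) ∧
      Pool.Agent.Y142.ZI.DensityZero {ℓ | ∃ _ : Fact ℓ.Prime,
        ¬ ∃ g ∈ G, (InCore S P r ℓ → g ∈ M) ∧
          ∀ a, a * g⁻¹ ∈ M → LocTypT S P r ℓ R (τL ℓ) a} := by
  classical
  have hINT : S_INT := Y484.ZI.t1
  have hCHEB : S_CHEB := Y726.ZI.t1
  have hDENS2 : S_DENS2 := Y681.ZI.t hCHEB
  have hLF : S_LF := Y255.SS.t
  have hCF : S_CF := Y297.SS.t hLF
  have hLOC : S_LOC := Y708.SS.Loc.t hCF
  set C := core S P r with hC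
  have hmem : ∀ v, GoodPl S P r v → ∀ g ∈ Fix (P v), g ∈ C := fun v hv g hg => fix_le_core hv hg
  have hconj : ∀ g : GK ℚ, ∀ d ∈ C, g * d * g⁻¹ ∈ C := fun g d hd => core_conj g d hd
  let T' : Type := Σ j, T j
  have hT'fin : Finite T' := inferInstanceAs (Finite (Σ j, T j))
  obtain ⟨j₀, b₀, hb₀⟩ := hne
  let a₀ : T' := ⟨j₀, b₀, hb₀⟩
  have : Nonempty T' := ⟨a₀⟩
  choose u hu x hinj hx hR hg using fun a : T' => hσ₀ a.1 a.2 a.2.2
  have hdeg := fun a => h.monic (hu a).1.1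
  obtain ⟨v, hv, hσ⟩ := key_rel h hLOC T' u hu (fun a => σ₀ a.1) (Lf (P (u a₀))) (Lf_finite _)
  have hdv := h.monic hv.1.1
  have h1 : ∀ a : T', ∃ σ : GK ℚ, (σ₀ a.1)⁻¹ * σ ∈ C ∧ σ ∈ Typ R a.2 (P v) := by
    intro a
    obtain ⟨σ, hM, hσP, hrel⟩ := hσ a
    refine ⟨σ, core_of_agree (hu a₀) fun y hy => hM y (mem_Lf (hdeg a₀).1.ne_zero hy),
      (typ_isClass R (a.2 : Equiv.Perm (Fin N))).trans _ _ _ hrel
      ⟨x a, hinj a, hx a, hR a, fun i => ?_⟩⟩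
    rw [hσP _ (hx a i)]
    exact hg a i
  choose σ hσC y hyinj hy hyR hyσ using h1
  have hperm : ∀ w : Fin N → QQ, Injective w → (∀ i, aeval (w i) (P v) = 0) → relations w = R →
      ∃ π ∈ relAut R, ∀ i, y a₀ (π i) = w i := by
    intro w hwinj hw hwR
    obtain ⟨π, hπ⟩ := exists_equiv hwinj (u := y a₀)
      (fun i => exhaust hdv.1.ne_zero hdv.2 (hyinj a₀) (hy a₀) (hw i)) rfl
    refine ⟨π, mem_autR_of (hyR a₀) ?_, hπ⟩
    rw [show (fun i => y a₀ (π i)) = w from funext hπ, hwR]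
  have hact : ∀ g : GK ℚ, ∃ π ∈ relAut R, ∀ i, g (y a₀ i) = y a₀ (π i) := by
    intro g
    obtain ⟨π, hπ, h2⟩ := hperm (fun i => g (y a₀ i)) (g.injective.comp (hyinj a₀))
      (fun i => aeval_aut _ (hy a₀ i))
      ((mrel_map (g : QQ ≃ₐ[ℚ] QQ).toRingEquiv.toRingHom (y a₀)).trans (hyR a₀))
    exact ⟨π, hπ, fun i => (h2 i).symm⟩
  -- the action on the roots of `P v`, restricted to a subgroup
  let im : Subgroup (GK ℚ) → Subgroup (Equiv.Perm (Fin N)) := fun 𝒟 =>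
    { carrier := {a | a ∈ relAut R ∧ ∃ d ∈ 𝒟, ∀ i, d (y a₀ i) = y a₀ (a i)}
      mul_mem' := by
        rintro a b ⟨ha, d, hd, hda⟩ ⟨hb, e, he, heb⟩
        refine ⟨(relAut R).mul_mem ha hb, d * e, 𝒟.mul_mem hd he, fun i => ?_⟩
        rw [AlgEquiv.mul_apply, heb, hda]
        rfl
      one_mem' := ⟨(relAut R).one_mem, 1, 𝒟.one_mem, fun i => rfl⟩
      inv_mem' := by
        rintro a ⟨ha, d, hd, hda⟩
        refine ⟨(relAut R).inv_mem ha, d⁻¹, 𝒟.inv_mem hd, fun i => ?_⟩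
        have h2 := hda (a⁻¹ i)
        have h3 : a (a⁻¹ i) = i := Equiv.apply_symm_apply a i
        rw [h3] at h2
        have h4 := congrArg (d⁻¹ : GK ℚ) h2
        rw [← AlgEquiv.mul_apply, inv_mul_cancel, AlgEquiv.one_apply] at h4
        exact h4.symm }
  -- the permutations `π a * a * (π a)⁻¹`
  have hπ : ∀ a : T', ∃ π ∈ relAut R, ∀ i, (σ a) (y a₀ i) = y a₀ ((π * a.2 * π⁻¹) i) := by
    intro a
    obtain ⟨π, hπ, h2⟩ := hperm (y a) (hyinj a) (hy a) (hyR a)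
    refine ⟨π, hπ, fun i => ?_⟩
    have h3 : π (π⁻¹ i) = i := Equiv.apply_symm_apply π i
    have h4 := hyσ a (π⁻¹ i)
    rw [← h2, ← h2, h3] at h4
    exact h4
  choose π hπA hπσ using hπ
  have hTA : ∀ a : T', (a.2 : Equiv.Perm (Fin N)) ∈ relAut R := by
    intro a
    refine mem_autR_of (hyR a) ?_
    have h2 : (fun i => y a ((a.2 : Equiv.Perm (Fin N)) i)) = fun i => (σ a) (y a i) :=
      funext fun i => (hyσ a i).symm
    rw [h2]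
    exact (mrel_map (σ a : QQ ≃ₐ[ℚ] QQ).toRingEquiv.toRingHom (y a)).trans (hyR a)
  have hcA : ∀ a : T', π a * a.2 * (π a)⁻¹ ∈ relAut R := fun a =>
    (relAut R).mul_mem ((relAut R).mul_mem (hπA a) (hTA a)) ((relAut R).inv_mem (hπA a))
  -- products
  have hprod : ∀ (g d : GK ℚ) (a b : Equiv.Perm (Fin N)), (∀ i, g (y a₀ i) = y a₀ (a i)) →
      (∀ i, d (y a₀ i) = y a₀ (b i)) → ∀ i, (g * d⁻¹) (y a₀ i) = y a₀ ((a * b⁻¹) i) := by
    intro g d a b hga hdb i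
    have h10 := hdb (b⁻¹ i)
    have h11 : b (b⁻¹ i) = i := Equiv.apply_symm_apply b i
    rw [h11] at h10
    have h12 := congrArg (d⁻¹ : GK ℚ) h10
    rw [← AlgEquiv.mul_apply, inv_mul_cancel, AlgEquiv.one_apply] at h12
    rw [AlgEquiv.mul_apply, ← h12, hga]
    rfl
  refine ⟨im ⊤, im C, fun a ha => ha.1, fun a ha => ⟨ha.1, ha.2.choose, Subgroup.mem_top _,
    ha.2.choose_spec.2⟩, ?_, ?_, ⟨v, hv⟩, ?_⟩
  · rintro x ⟨hx, g, -, hgx⟩ a ⟨ha, d, hd, hda⟩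
    refine ⟨(relAut R).mul_mem ((relAut R).mul_mem hx ha) ((relAut R).inv_mem hx), g * d * g⁻¹,
      hconj g d hd, fun i => ?_⟩
    refine hprod (g * d) g (x * a) x (fun i => ?_) hgx i
    rw [AlgEquiv.mul_apply, hda, hgx]
    rfl
  · intro j
    by_cases hj : (T j).Nonempty
    · obtain ⟨b, hb⟩ := hj
      let b' : T' := ⟨j, b, hb⟩
      refine ⟨π b' * b * (π b')⁻¹, ⟨hcA b', σ b', Subgroup.mem_top _, hπσ b'⟩, fun a ha => ?_⟩
      let a' : T' := ⟨j, a, ha⟩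
      refine ⟨(π a')⁻¹, (relAut R).inv_mem (hπA a'), ?_⟩
      have h2 : σ a' * (σ b')⁻¹ ∈ C := by
        have h3 := C.mul_mem (hσC a') (C.inv_mem (hσC b'))
        have h4 := hconj (σ₀ j) _ h3
        have h5 : σ₀ j * ((σ₀ j)⁻¹ * σ a' * ((σ₀ j)⁻¹ * σ b')⁻¹) * (σ₀ j)⁻¹ =
            σ a' * (σ b')⁻¹ := by group
        rw [← h5]
        exact h4
      have h6 : (π a')⁻¹⁻¹ * a * (π a')⁻¹ * (π b' * b * (π b')⁻¹)⁻¹ =
          (π a' * a * (π a')⁻¹) * (π b' * b * (π b')⁻¹)⁻¹ := by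
        rw [inv_inv]
      rw [h6]
      exact ⟨(relAut R).mul_mem (hcA a') ((relAut R).inv_mem (hcA b')), _, h2,
        hprod _ _ _ _ (hπσ a') (hπσ b')⟩
    · exact ⟨1, (im ⊤).one_mem, fun a ha => absurd ⟨a, ha⟩ hj⟩
  · -- the bad primes
    have hex : ∀ g : {g : Equiv.Perm (Fin N) // g ∈ im ⊤}, ∃ w : GK ℚ,
        ∀ i, w (y a₀ i) = y a₀ (g.1 i) := fun g => ⟨_, g.2.2.choose_spec.2⟩
    choose w hw using hex
    let I : Type := {g : Equiv.Perm (Fin N) // g ∈ im ⊤} × Equiv.Perm (Fin N)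
    let _ : Fintype I := Fintype.ofFinite I
    refine Y142.ZI.DensityZero.mono (density_biUnion (Finset.univ : Finset I)
      (fun i => {ℓ | i.2 * i.1.1⁻¹ ∈ im C ∧ ∃ _ : Fact ℓ.Prime, σL ℓ * (w i.1)⁻¹ ∈ core S P r ∧
        ¬ LocTypT S P r ℓ R (τL ℓ) i.2}) fun i _ => ?_) ?_
    · by_cases hi : i.2 * i.1.1⁻¹ ∈ im C
      · refine Y142.ZI.DensityZero.mono (?_ : Pool.Agent.Y142.ZI.DensityZero
          {ℓ | ∃ _ : Fact ℓ.Prime, σL ℓ * (w i.1)⁻¹ ∈ core S P r ∧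
            ¬ LocTypT S P r ℓ R (τL ℓ) i.2}) (fun ℓ hℓ => hℓ.2)
        obtain ⟨hiA, d, hd, hdi⟩ := hi
        refine densityF h hLOC hINT hDENS2 R i.2 hv (w₀ := w i.1) (w := d * w i.1) ?_ ?_
        · refine ⟨y a₀, hyinj a₀, hy a₀, hyR a₀, fun l => ?_⟩
          rw [AlgEquiv.mul_apply, hw, hdi]
          exact congrArg (fun q => y a₀ (i.2 q)) (Equiv.symm_apply_apply i.1.1 l)
        · rw [mul_inv_cancel_right]
          exact hd
      · refine Y142.ZI.DensityZero.mono (densityZero_finite Set.finite_empty) ?_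
        rintro ℓ ⟨h2, -⟩
        exact absurd h2 hi
    · rintro ℓ ⟨hp, hno⟩
      by_contra hcon
      apply hno
      obtain ⟨g, hgA, hgσ⟩ := hact (σL ℓ)
      have hgG : g ∈ im ⊤ := ⟨hgA, σL ℓ, Subgroup.mem_top _, hgσ⟩
      refine ⟨g, hgG, fun hin => ⟨hgA, σL ℓ, hin _ (frob_σL ℓ), hgσ⟩, fun a ha => ?_⟩
      by_contra hloc
      apply hcon
      refine Set.mem_iUnion₂.2 ⟨(⟨g, hgG⟩, a), Finset.mem_univ _, ha, hp, ?_, hloc⟩
      have h2 : (w ⟨g, hgG⟩)⁻¹ * σL ℓ ∈ core S P r := core_of_agree hv fun q hq => by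
        obtain ⟨i, rfl⟩ := exhaust hdv.1.ne_zero hdv.2 (hyinj a₀) (hy a₀) hq
        rw [hgσ, hw]
      have h3 := core_conj (S := S) (P := P) (r := r) (w ⟨g, hgG⟩) _ h2
      have h4 : w ⟨g, hgG⟩ * ((w ⟨g, hgG⟩)⁻¹ * σL ℓ) * (w ⟨g, hgG⟩)⁻¹ = σL ℓ * (w ⟨g, hgG⟩)⁻¹ := by
        group
      rwa [h4] at h3

/-- the types at almost all primes -/
theorem typesJ (h : SetupG K Γ s N wt c r S P ρ) (R : Set (Fin N → ℤ)) (hRr : RankGE r R)
    {J : Type} (T : J → Set (Equiv.Perm (Fin N))) (hne : ∃ j, (T j).Nonempty)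
    (p : J → ℕ) [∀ j, Fact (p j).Prime] (τ : ∀ j, Gal(PadicAlgCl (p j)/ℚ_[p j]))
    (hτ : ∀ j, ∀ a ∈ T j, TypeOccurs s (ρ (p j)) R (τ j) a) :
    ∃ G M : Subgroup (Equiv.Perm (Fin N)), G ≤ relAut R ∧ M ≤ G ∧
      (∀ x ∈ G, ∀ u ∈ M, x * u * x⁻¹ ∈ M) ∧ (∀ j, ∃ x ∈ G, MeetsCoset (relAut R) M x (T j)) ∧
      (∃ v, GoodPl S P r v) ∧
      Pool.Agent.Y142.ZI.DensityZero {ℓ | ∃ _ : Fact ℓ.Prime,
        ¬ ∃ g ∈ G, (InCore S P r ℓ → g ∈ M) ∧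
          ∀ a, a * g⁻¹ ∈ M → LocTypT S P r ℓ R (τL ℓ) a} := by
  classical
  choose σ₀ hσ₀ using fun j => main_localT h R hRr (T j) (p j) (τ j) (hτ j)
  have hfin : Finite (Set.range T) := Set.toFinite (Set.range T)
  choose sec hsec using fun V : Set.range T => V.2
  obtain ⟨G, M, h1, h2, h3, h4, h5, h6⟩ := typesF h R (J := Set.range T) (fun V => V.1)
    (by
      obtain ⟨j, hj⟩ := hne
      exact ⟨⟨T j, j, rfl⟩, hj⟩) (fun V => σ₀ (sec V)) (fun V a ha => hσ₀ (sec V) a (by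
        rw [hsec V]
        exact ha))
  exact ⟨G, M, h1, h2, h3, fun j => h4 ⟨T j, j, rfl⟩, h5, h6⟩

end

end Pool.Agent.R931.ZF
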