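import Mathlib
import Pool.Agent.R931.ZF.Key
import Pool.Agent.R931.PD.Sums

/-!
# The zero-one law
-/

set_option autoImplicit false
set_option linter.unusedSectionVars false
set_option linter.unusedVariables false

namespace Pool.Agent.R931.ZF

open Function Polynomial Module NumberField IsDedekindDomain TensorProduct Pool.Agent.TH118.SG
  Pool.Agent.Y114.RM Pool.Agent.Y114.MU Pool.Agent.Y114.TF Pool.Agent.Y114.GF
  Pool.Agent.H204R3.GP Pool.Agent.R931.GD Pool.Agent.Y142.ZO Pool.Agent.Y142.ZI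
  Pool.Agent.Y142.SS Pool.Agent.R931.BD Pool.Agent.R931.ZL Pool.Agent.R931.ZM Pool.Agent.R931.PD
open Pool.Agent.Y142.ZD (DistPow dist_of_nice)
open Pool.Agent.Y142.ZS (NiceP nice_of_p S_SPL)
open Pool.Agent.Y936.SS (Om)

section

variable {K : Type} [Field K] [NumberField K] {Γ : Type} [Group Γ] [TopologicalSpace Γ]
  [IsTopologicalGroup Γ] [CompactSpace Γ] {s : Gal(AlgebraicClosure K/K) →* Γ} {N : ℕ} {wt : ℤ}
  {c r : ℕ} {S : Set (HeightOneSpectrum (𝓞 K))} {P : HeightOneSpectrum (𝓞 K) → ℚ[X]}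
  {ρ : ∀ (ℓ : ℕ) [Fact ℓ.Prime], Rep1 Γ N ℓ}

/-- the rank of the Frobenius eigenvalues -/
theorem rank_of_motivic {𝔤 : ∀ (ℓ : ℕ) [Fact ℓ.Prime], End1 N ℓ} (h : Setup K Γ s N wt c r S P ρ 𝔤)
    {v : HeightOneSpectrum (𝓞 K)} (hv : NiceP S P v) : ¬ IndepRoots (r + 1) {P v} := by
  classical
  intro hind
  obtain ⟨ℓ, hℓ, hp⟩ := Nat.exists_infinite_primes (Ideal.absNorm v.asIdeal + 1)
  have : Fact ℓ.Prime := ⟨hp⟩
  have hvℓ : ¬ Above v ℓ := not_mem_of_lt v hp (by omega)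
  obtain ⟨σ, hσ⟩ := Pool.Agent.W401.Frob.exists_frob v
  have hchar := h.frob ℓ hv.1 hvℓ hσ
  obtain ⟨hPm, hPd⟩ := h.monic hv.1
  obtain ⟨x, hxinj, hx⟩ := exists_ordering' hPd hv.2.2.1
  obtain ⟨ι⟩ := emb ℓ
  obtain ⟨f, hf, -⟩ := exists_log (ρ ℓ) (h.cont ℓ) s σ⁻¹ (by rw [hchar]; exact hv.2.2.1.map)
    (by rw [hchar]; exact dist_of_nice hv ℓ) (z := fun i => ι (x i)) (ι.injective.comp hxinj)
    (fun i => by rw [hchar]; exact push_root ℓ ι (hx i))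
  have hr : RankR (r + 1) (relations fun i => ι (x i)) := by
    rw [mrel_map]
    exact rank_of_indep hPm.ne_zero x (fun y hy => exhaust hPm.ne_zero hPd hxinj hx hy)
      (fun a => h.ne_zero hv.1 (hx a)) hind
  obtain ⟨d, hd⟩ := (hf.rel ▸ hr).indep
  have hmot : IsMotivic (ρ ℓ) (𝔤 ℓ) := h.motivic ℓ
  have h1 := rank_le (C := Om ℓ) (𝔤 ℓ) hmot.bracket (fun X hX => hmot.algebraic X hX) (h.rank ℓ)
    (X := (lin (aeval (matRep (ρ ℓ) (s σ⁻¹)) f)).baseChange (Om ℓ))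
    (Submodule.subset_span ⟨_, hf.mem hmot, rfl⟩) (fun i => aeval (ι (x i)) f) hf.yinj
    (by rw [finrank_uu, Fintype.card_fin]) (fun i => by
      rw [Module.End.hasEigenvalue_iff_isRoot_charpoly, LinearMap.charpoly_baseChange, IsRoot.def,
        ← coe_aeval_eq_eval, aeval_map_algebraMap, charpoly_lin]
      exact hf.yroot i) d hd
  omega

theorem setup_of_motivic {𝔤 : ∀ (ℓ : ℕ) [Fact ℓ.Prime], End1 N ℓ}
    (h : Setup K Γ s N wt c r S P ρ 𝔤) : SetupG K Γ s N wt c r S P ρ :=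
  ⟨h.pos, h.cont_s, h.cont, h.fin, h.good, h.integral, fun _ hv => rank_of_motivic h hv⟩

/-- the zero-one law, general form -/
theorem main_F (h : SetupG K Γ s N wt c r S P ρ) (R : Set (Fin N → ℤ)) (hRr : RankGE r R)
    {J : Type} (T : J → Set (Equiv.Perm (Fin N))) (hne : ∃ j, (T j).Nonempty)
    (p : J → ℕ) [∀ j, Fact (p j).Prime] (τ : ∀ j, Gal(PadicAlgCl (p j)/ℚ_[p j]))
    (hτ : ∀ j, ∀ a ∈ T j, TypeOccurs s (ρ (p j)) R (τ j) a)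
    (C : ∀ (ℓ : ℕ) [Fact ℓ.Prime], Prop) (B : Set ℕ) (hB : B.Finite)
    (hC : ∀ (G M : Subgroup (Equiv.Perm (Fin N))), G ≤ relAut R → M ≤ G →
      (∀ x ∈ G, ∀ u ∈ M, x * u * x⁻¹ ∈ M) → (∀ j, ∃ x ∈ G, MeetsCoset (relAut R) M x (T j)) →
      (∃ v, GoodPl S P r v) → ∀ (ℓ : ℕ) [Fact ℓ.Prime], ℓ ∉ B →
      ∀ (γ : Γ) (z : Fin N → Om ℓ) (e : Basis (Fin N) (Om ℓ) (Fin N → Om ℓ)) (f : ℚ_[ℓ][X])
      (H : Subgroup (Equiv.Perm (Fin N))) (g y : Equiv.Perm (Fin N)), OmDat ρ s S P r ℓ R γ z e f →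
      g ∈ G → H ≤ relAut R → y ∈ relAut R → (∀ u ∈ H, y * u * y⁻¹ ∈ H) →
      MeetsCoset (relAut R) H y {a | a * g⁻¹ ∈ M} → LabelsO ρ ℓ e H → C ℓ) :
    HasDensityZero {ℓ | ∃ _ : Fact ℓ.Prime, ¬ C ℓ} := by
  obtain ⟨G, M, hGA, hMG, hnorm, hmeet, hgood, hd⟩ := typesJ h R hRr T hne p τ hτ
  refine Y142.ZI.DensityZero.mono (hd.union (densityZero_finite hB)) ?_
  rintro ℓ ⟨hp, hno⟩
  by_contra hnot
  rw [Set.mem_union, not_or] at hnot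
  obtain ⟨hn1, hn2⟩ := hnot
  by_cases hloc : ∃ g ∈ G, (InCore S P r ℓ → g ∈ M) ∧
      ∀ a, a * g⁻¹ ∈ M → LocTypT S P r ℓ R (τL ℓ) a
  · obtain ⟨g, hg, -, hloc⟩ := hloc
    obtain ⟨γ, z, e, f, H, y, hd, hHA, hyA, hyn, hm, hlab⟩ := label_coset h (τL ℓ)
      (T := {a | a * g⁻¹ ∈ M}) ⟨g, by
        change g * g⁻¹ ∈ M
        rw [mul_inv_cancel]
        exact M.one_mem⟩ (fun a ha => by
        have h1 := (relAut R).mul_mem (hGA (hMG (show a * g⁻¹ ∈ M from ha))) (hGA hg)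
        rwa [inv_mul_cancel_right] at h1) fun a ha => hloc a ha
    exact hno (hC G M hGA hMG hnorm hmeet hgood ℓ hn2 γ z e f H g y hd hg hHA hyA hyn hm hlab)
  · exact hn1 ⟨hp, hloc⟩

/-- endomorphisms and invariant subspaces -/
theorem main_irrF (h : SetupG K Γ s N wt c r S P ρ) (R : Set (Fin N → ℤ)) (hRr : RankGE r R)
    {J : Type} (T : J → Set (Equiv.Perm (Fin N))) (hne : ∃ j, (T j).Nonempty)
    (p : J → ℕ) [∀ j, Fact (p j).Prime] (τ : ∀ j, Gal(PadicAlgCl (p j)/ℚ_[p j]))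
    (hτ : ∀ j, ∀ a ∈ T j, TypeOccurs s (ρ (p j)) R (τ j) a)
    (m : ℕ) (hm : OrbitBound (relAut R) T m) :
    HasDensityZero {ℓ | ∃ _ : Fact ℓ.Prime, ¬ ∀ Δ : Subgroup Γ, Δ.FiniteIndex →
        centralizerDim (ρ ℓ () '' (Δ : Set Γ)) ≤ m ∧
          (stableSubspaces (ρ ℓ) Δ).encard ≤ 2 ^ m} := by
  refine main_F h R hRr T hne p τ hτ (fun ℓ _ => ∀ Δ : Subgroup Γ, Δ.FiniteIndex →
        centralizerDim (ρ ℓ () '' (Δ : Set Γ)) ≤ m ∧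
          (stableSubspaces (ρ ℓ) Δ).encard ≤ 2 ^ m) ∅ Set.finite_empty ?_
  intro G M hGA hMG hnorm hmeet hgood ℓ _ _ γ z e f H g y hd hg hHA hyA hyn hmc hlab Δ hΔ
  have hH : orbitCount H ≤ m := hm G M H g y hGA hMG hnorm hmeet hg hHA hyA hyn hmc
  refine ⟨?_, (stable_leO hd hlab hΔ).trans (pow_le_pow_right₀ one_le_two hH)⟩
  rw [centralizerDim_eq]
  exact ((com_leS Δ).trans (comS_leO hd hlab hΔ)).trans hH

/-- the Mumford-Tate conjecture -/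
theorem main_MTF {𝔤 : ∀ (ℓ : ℕ) [Fact ℓ.Prime], End1 N ℓ} (h' : Setup K Γ s N wt c r S P ρ 𝔤)
    (hK : HasGoodPrime S P r) (R : Set (Fin N → ℤ)) (hRr : RankGE r R)
    {J : Type} (T : J → Set (Equiv.Perm (Fin N))) (hne : ∃ j, (T j).Nonempty)
    (p : J → ℕ) [∀ j, Fact (p j).Prime] (τ : ∀ j, Gal(PadicAlgCl (p j)/ℚ_[p j]))
    (hτ : ∀ j, ∀ a ∈ T j, TypeOccurs s (ρ (p j)) R (τ j) a)
    (m : ℕ) (hm : OrbitBound (relAut R) T m)
    (hend : ∀ (ℓ : ℕ) [Fact ℓ.Prime], m ≤ commutantDim (𝔤 ℓ)) :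
    HasDensityZero {ℓ | ∃ _ : Fact ℓ.Prime, ¬ (Semisimple (ρ ℓ) ∧ TateTensorsOf (ρ ℓ) (𝔤 ℓ))} := by
  classical
  have h := setup_of_motivic h'
  obtain ⟨p₀, hp₀⟩ : ∃ p₀ : ℕ, (∃ v, GoodPl S P r v) → p₀.Prime ∧ UnramifiedIn K p₀ ∧
      (∀ v, Above v p₀ → v ∉ S) ∧ IndependentPlaces (fun v (_ : Unit) => P v) p₀ ∧
        ∃ v, Above v p₀ ∧ IndepRoots r {P v} := by
    by_cases hex : ∃ v, GoodPl S P r v
    · rcases hK with hK | hK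
      · obtain ⟨v, hv⟩ := hex
        obtain ⟨p, hp, hpv⟩ := exists_prime' v
        exact ⟨p, fun _ => ⟨hp, unramified_one hK hp, fun v' hv' => by
          rw [(above_iff_one hK hp hpv v').1 hv']
          exact hv.1.1, independentPlaces_of_one _ (above_iff_one hK hp hpv), v, hpv, hv.2⟩⟩
      · obtain ⟨p, hp⟩ := hK
        exact ⟨p, fun _ => hp⟩
    · exact ⟨0, fun h => absurd h hex⟩
  refine main_F h R hRr T hne p τ hτ
    (fun ℓ _ => Semisimple (ρ ℓ) ∧ TateTensorsOf (ρ ℓ) (𝔤 ℓ)) {p₀} (Set.finite_singleton p₀) ?_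
  intro G M hGA hMG hnorm hmeet hgood ℓ _ hℓ γ z e f H g y hd hg hHA hyA hyn hmc hlab
  have hH : orbitCount H ≤ m := hm G M H g y hGA hMG hnorm hmeet hg hHA hyA hyn hmc
  obtain ⟨hp, hunr, hpS, hind, v₀, hv₀, hr⟩ := hp₀ hgood
  exact full_place s h.cont_s (fun _ => wt) S h.fin (fun v _ => P v) ℓ (ρ ℓ) (h.cont ℓ)
    (fun v hv hvℓ _ => h.good ℓ v hv hvℓ) _ (h'.motivic ℓ) r (h'.rank ℓ) hp
    (fun he => hℓ he.symm) hunr hpS hind hv₀ (independentRoots_one hr)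
    (endos_of_dim (h'.motivic ℓ) (fun Δ hΔ => (comS_leO hd hlab hΔ).trans hH) (hend ℓ))

end

end Pool.Agent.R931.ZF
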