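import Mathlib
import Pool.Agent.R931.GD.Main
import Pool.Agent.R931.ZL.Add

/-!
# The trace form on the Lie algebra of the Tate tensors
-/

set_option autoImplicit false
set_option linter.unusedSectionVars false

namespace Pool.Agent.R931.ZF

open Module Polynomial TensorProduct Pool.Agent.TH118.SG Pool.Agent.Y114.MU
  Pool.Agent.Y114.TF Pool.Agent.Y114.GF Pool.Agent.H204R3.GP Pool.Agent.Y114.RM
  Pool.Agent.R931.ZL

section nil

variable {E : Type} [AddCommGroup E] [Module ℂ E] [FiniteDimensional ℂ E]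

/-- if the trace of the product with the complex conjugate is zero then `X` is nilpotent -/
theorem nilpotent_of_trace {X T : End ℂ E}
    (hT : ∀ β, ∀ x ∈ X.maxGenEigenspace β, T x = (starRingEnd ℂ β) • x)
    (h0 : LinearMap.trace ℂ E (X * T) = 0) : IsNilpotent X := by
  classical
  have hint := gen_internal X
  have hfin : {μ | X.maxGenEigenspace μ ≠ ⊥}.Finite :=
    WellFoundedGT.finite_ne_bot_of_iSupIndep X.independent_maxGenEigenspace
  have hX : ∀ μ, ∀ x ∈ X.maxGenEigenspace μ, X x ∈ X.maxGenEigenspace μ :=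
    fun μ => X.mapsTo_maxGenEigenspace_of_comm (Commute.refl _) μ
  have hXT : ∀ μ, ∀ x ∈ X.maxGenEigenspace μ, (X * T : End ℂ E) x ∈ X.maxGenEigenspace μ := by
    intro μ x hx
    rw [Module.End.mul_apply, hT μ x hx, map_smul]
    exact Submodule.smul_mem _ _ (hX μ x hx)
  have hnil : ∀ μ, IsNilpotent (X.restrict (hX μ) - algebraMap ℂ _ μ) := by
    intro μ
    have h2 := X.isNilpotent_restrict_maxGenEigenspace_sub_algebraMap μ
    exact h2
  rw [LinearMap.trace_eq_sum_trace_restrict' hint hfin hXT] at h0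
  have hval : ∀ μ, LinearMap.trace ℂ _ ((X * T : End ℂ E).restrict (hXT μ)) =
      ((‖μ‖ ^ 2 * finrank ℂ (X.maxGenEigenspace μ) : ℝ) : ℂ) := by
    intro μ
    have h1 : (X * T : End ℂ E).restrict (hXT μ) = (starRingEnd ℂ μ) • X.restrict (hX μ) := by
      refine LinearMap.ext fun x => Subtype.ext ?_
      change (X * T : End ℂ E) (x : E) = (starRingEnd ℂ μ) • X (x : E)
      rw [Module.End.mul_apply, hT μ x x.2, map_smul]
    have h3 : LinearMap.trace ℂ _ (X.restrict (hX μ)) = μ * finrank ℂ (X.maxGenEigenspace μ) := by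
      have h4 := (LinearMap.isNilpotent_trace_of_isNilpotent (hnil μ)).eq_zero
      rw [map_sub, sub_eq_zero] at h4
      refine h4.trans ?_
      rw [Algebra.algebraMap_eq_smul_one, map_smul, LinearMap.trace_one, smul_eq_mul]
    rw [h1, map_smul, h3, smul_eq_mul, ← mul_assoc, mul_comm (starRingEnd ℂ μ), Complex.mul_conj,
      Complex.normSq_eq_norm_sq]
    push_cast
    rfl
  rw [Finset.sum_congr rfl fun μ _ => hval μ, ← Complex.ofReal_sum, Complex.ofReal_eq_zero,
    Finset.sum_eq_zero_iff_of_nonneg fun μ _ => by positivity] at h0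
  have h1 : ∀ μ, X.maxGenEigenspace μ ≠ ⊥ → μ = 0 := by
    intro μ hμ
    have h2 := h0 μ (hfin.mem_toFinset.2 hμ)
    rcases mul_eq_zero.1 h2 with h3 | h3
    · exact norm_eq_zero.1 (pow_eq_zero_iff (two_ne_zero) |>.1 h3)
    · exfalso
      apply hμ
      rw [Nat.cast_eq_zero, Submodule.finrank_eq_zero] at h3
      exact h3
  have h2 : X.maxGenEigenspace 0 = ⊤ := by
    rw [eq_top_iff, ← Module.End.iSup_maxGenEigenspace_eq_top X]
    refine iSup_le fun μ => ?_
    by_cases hμ : X.maxGenEigenspace μ = ⊥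
    · rw [hμ]
      exact bot_le
    · rw [h1 μ hμ]
  have h3 := hnil 0
  rw [map_zero, sub_zero] at h3
  obtain ⟨n, hn⟩ := h3
  refine ⟨n, LinearMap.ext fun x => ?_⟩
  have hx : x ∈ X.maxGenEigenspace 0 := by
    rw [h2]
    exact Submodule.mem_top
  have h4 := congrArg Subtype.val (LinearMap.congr_fun hn ⟨x, hx⟩)
  rw [Module.End.pow_restrict] at h4
  exact h4

end nil

section engel

attribute [local instance 100] LieRing.ofAssociativeRing

variable {k : Type} [Field k] {V : Type} [AddCommGroup V] [Module k V] [FiniteDimensional k V]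

/-- Engel's theorem -/
theorem engel_vec (𝔫 : Submodule k (End k V)) (hLie : IsLie 𝔫) (hnil : ∀ X ∈ 𝔫, IsNilpotent X)
    (W : Submodule k V) (hW : ∀ X ∈ 𝔫, ∀ w ∈ W, X w ∈ W) (hne : W ≠ ⊥) :
    ∃ w ∈ W, w ≠ 0 ∧ ∀ X ∈ 𝔫, X w = 0 := by
  classical
  let L' : LieSubalgebra k (End k V) :=
    { 𝔫 with
      lie_mem' := fun {X Y} hX hY => by
        rw [Ring.lie_def]
        exact hLie X hX Y hY }
  let M' : LieSubmodule k L' V :=
    { W with
      lie_mem := fun {X w} hw => hW X X.2 w hw }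
  have hnt : Nontrivial M' := by
    obtain ⟨w, hw, hw0⟩ := Submodule.exists_mem_ne_zero_of_ne_bot hne
    exact ⟨(⟨w, hw⟩ : M'), (0 : M'), fun h => hw0 (congrArg (fun x : M' => (x : V)) h)⟩
  have hnilp : LieModule.IsNilpotent L' M' := by
    rw [LieModule.isNilpotent_iff_forall (R := k)]
    intro X
    obtain ⟨n, hn⟩ := hnil X X.2
    refine ⟨n, LinearMap.ext fun w => Subtype.ext ?_⟩
    have h1 : ∀ (j : ℕ) (w : M'), (((LieModule.toEnd k L' M' X) ^ j) w : V) =
        ((X : End k V) ^ j) (w : V) := by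
      intro j
      induction j with
      | zero => intro w; rfl
      | succ j ih =>
        intro w
        rw [pow_succ', pow_succ', Module.End.mul_apply, Module.End.mul_apply, ← ih]
        rfl
    rw [h1, hn]
    rfl
  have hmax : Nontrivial (LieModule.maxTrivSubmodule k L' M') :=
    LieModule.nontrivial_max_triv_of_isNilpotent k L' M'
  obtain ⟨w, hw⟩ := exists_ne (0 : LieModule.maxTrivSubmodule k L' M')
  refine ⟨((w : M') : V), (w : M').2, fun h => hw (Subtype.ext (Subtype.ext h)), fun X hX => ?_⟩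
  have h1 := (LieModule.mem_maxTrivSubmodule (R := k) (L := L') (M := M') (w : M')).1 w.2 ⟨X, hX⟩
  exact congrArg Subtype.val h1

end engel

section nondeg

variable {k : Type} [Field k] [CharZero k] [Algebra k ℂ] {V : Type} [AddCommGroup V] [Module k V]
  [FiniteDimensional k V] {Γ : Type} [Group Γ] {ρ : Representation k Γ V}

/-- the trace form is nondegenerate if the representation is semisimple -/
theorem nonDeg_of_semisimple {L : Submodule k (End k V)}
    (hLT : ∀ X, X ∈ L ↔ ∀ (m : ℕ) (φ : Tensor k V m), TateTensor ρ φ → KillsTensor X φ)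
    (hLie : IsLie L) (hAd : ∀ γ, ∀ X ∈ L, AdE (ρ γ) (ρ γ⁻¹) X ∈ L)
    (hss : FiniteIndexSemisimple ρ) : NonDeg L := by
  classical
  have halg : ∀ X, (∀ (m : ℕ) (φ : Tensor k V m), (∀ Y ∈ L, KillsTensor Y φ) →
      KillsTensor X φ) → X ∈ L := fun X hX =>
    (hLT X).2 fun m φ hφ => hX m φ fun Y hY => (hLT Y).1 hY m φ hφ
  let 𝔫 : Submodule k (End k V) :=
    { carrier := {X | X ∈ L ∧ ∀ Y ∈ L, LinearMap.trace k V (X * Y) = 0}
      add_mem' := fun {A B} hA hB => ⟨L.add_mem hA.1 hB.1, fun Y hY => by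
        rw [add_mul, map_add, hA.2 Y hY, hB.2 Y hY, add_zero]⟩
      zero_mem' := ⟨L.zero_mem, fun Y _ => by rw [zero_mul, map_zero]⟩
      smul_mem' := fun c A hA => ⟨L.smul_mem c hA.1, fun Y hY => by
        rw [smul_mul_assoc, map_smul, hA.2 Y hY, smul_zero]⟩ }
  have h𝔫L : ∀ X ∈ 𝔫, X ∈ L := fun X hX => hX.1
  have h𝔫Lie : IsLie 𝔫 := by
    intro X hX Y hY
    refine ⟨hLie X hX.1 Y hY.1, fun Z hZ => ?_⟩
    have h1 := hX.2 (Y * Z - Z * Y) (hLie Y hY.1 Z hZ)
    rw [mul_sub, map_sub] at h1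
    rw [sub_mul, map_sub, mul_assoc, mul_assoc Y X Z, LinearMap.trace_mul_comm k Y (X * Z),
      mul_assoc X Z Y]
    exact h1
  have h𝔫nil : ∀ X ∈ 𝔫, IsNilpotent X := by
    intro X hX
    obtain ⟨T, hT⟩ := exists_op (X.baseChange ℂ) (fun z => starRingEnd ℂ z)
    have hTL : T ∈ bcS ℂ L := add_mem L halg (mem_bcS hX.1) (starRingEnd ℂ : ℂ →+ ℂ) hT
    have h0 : ∀ T' ∈ bcS ℂ L, LinearMap.trace ℂ _ (X.baseChange ℂ * T') = 0 := by
      intro T' hT'
      induction hT' using Submodule.span_induction with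
      | mem Y hY =>
        obtain ⟨Z, hZ, rfl⟩ := hY
        rw [← bc_mul, LinearMap.trace_baseChange, hX.2 Z hZ, map_zero]
      | zero => rw [mul_zero, map_zero]
      | add Y Z _ _ hY hZ => rw [mul_add, map_add, hY, hZ, add_zero]
      | smul c Y _ hY => rw [mul_smul_comm, map_smul, hY, smul_zero]
    obtain ⟨n, hn⟩ := nilpotent_of_trace hT (h0 T hTL)
    refine ⟨n, bc_inj (C := ℂ) ?_⟩
    have h1 : (X ^ n).baseChange ℂ = (X.baseChange ℂ) ^ n := by
      clear hn
      induction n with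
      | zero => rw [pow_zero, pow_zero, bc_one]
      | succ n ih => rw [pow_succ, pow_succ, bc_mul, ih]
    rw [h1, hn, LinearMap.baseChange_zero]
  have h𝔫Ad : ∀ γ, ∀ X ∈ 𝔫, AdE (ρ γ) (ρ γ⁻¹) X ∈ 𝔫 := by
    intro γ X hX
    refine ⟨hAd γ X hX.1, fun Y hY => ?_⟩
    have h1 := hX.2 _ (hAd γ⁻¹ Y hY)
    rw [AdE_apply, inv_inv] at h1
    rw [AdE_apply, mul_assoc, LinearMap.trace_mul_comm, mul_assoc, mul_assoc]
    exact h1
  -- the vectors which are killed by `𝔫`
  let W : Submodule k V :=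
    { carrier := {v | ∀ X ∈ 𝔫, X v = 0}
      add_mem' := fun {a b} ha hb X hX => by rw [map_add, ha X hX, hb X hX, add_zero]
      zero_mem' := fun X _ => map_zero X
      smul_mem' := fun c a ha X hX => by rw [map_smul, ha X hX, smul_zero] }
  have hWρ : ∀ γ ∈ (⊤ : Subgroup Γ), ∀ v ∈ W, ρ γ v ∈ W := by
    intro γ _ v hv X hX
    have h1 := hv _ (h𝔫Ad γ⁻¹ X hX)
    rw [AdE_apply, inv_inv, Module.End.mul_apply, Module.End.mul_apply] at h1
    have h2 := congrArg (ρ γ) h1
    rw [map_zero, ← Module.End.mul_apply, ← map_mul, mul_inv_cancel, map_one,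
      Module.End.one_apply] at h2
    exact h2
  obtain ⟨P, hP1, hP2, hP3⟩ := hasProj_of hss ⊤ inferInstance W hWρ
  have hcomm : ∀ X ∈ L, X * P = P * X := fun X hX =>
    tate_comm ρ (fun m φ hφ => (hLT X).1 hX m φ hφ) (P := P) (Δ := ⊤) inferInstance
      fun s hs => LinearMap.ext fun v => hP3 s hs v
  have hker : LinearMap.ker P = ⊥ := by
    by_contra hne
    obtain ⟨w, hw, hw0, hwX⟩ := engel_vec 𝔫 h𝔫Lie h𝔫nil (LinearMap.ker P) (fun X hX w hw => by
      rw [LinearMap.mem_ker] at hw ⊢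
      have h1 := LinearMap.congr_fun (hcomm X hX.1) w
      rw [Module.End.mul_apply, Module.End.mul_apply, hw, map_zero] at h1
      exact h1.symm) hne
    have h1 := hP2 w hwX
    rw [LinearMap.mem_ker] at hw
    exact hw0 (h1.symm.trans hw)
  have hWtop : ∀ v, v ∈ W := by
    intro v
    have h1 : v - P v ∈ LinearMap.ker P := by
      rw [LinearMap.mem_ker, map_sub, hP2 _ (hP1 v), sub_self]
    rw [hker, Submodule.mem_bot, sub_eq_zero] at h1
    rw [h1]
    exact hP1 v
  intro X hX hXY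
  exact LinearMap.ext fun v => hWtop v X ⟨hX, hXY⟩

end nondeg

end Pool.Agent.R931.ZF
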