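import Mathlib
import Pool.Agent.R931.ZF.Nil

/-!
# The Tate tensors, if the representation is semisimple and there are no new endomorphisms
-/

set_option autoImplicit false
set_option linter.unusedSectionVars false
set_option linter.unusedVariables false

namespace Pool.Agent.R931.ZF

open NumberField IsDedekindDomain Module Polynomial TensorProduct Pool.Agent.TH118.SG
  Pool.Agent.Y114.MU Pool.Agent.Y114.TF Pool.Agent.Y114.GF Pool.Agent.H204R3.GP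
  Pool.Agent.Y114.RM Pool.Agent.R931.IR Pool.Agent.R931.BD
open Pool.Agent.W569.FM Pool.Agent.W571.FM Pool.Agent.Y115.R Pool.Agent.Y115.T Pool.Agent.Y115.Chi

section main

variable {ι : Type} [Fintype ι] [DecidableEq ι] {n : ι → ℕ} {ℓ : ℕ} [hℓ : Fact ℓ.Prime]
  {Γ : Type} [Group Γ] [TopologicalSpace Γ] [IsTopologicalGroup Γ] [CompactSpace Γ]

theorem full_of_ss (ρ : ∀ i, Representation ℚ_[ℓ] Γ (Fin (n i) → ℚ_[ℓ]))
    (hρ : ∀ i, Continuous fun g => LinearMap.toMatrix' (ρ i g))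
    (𝔤 : Submodule ℚ_[ℓ] (End ℚ_[ℓ] (∀ i, Fin (n i) → ℚ_[ℓ]))) (h𝔤 : IsMotivic ρ 𝔤) {r : ℕ}
    (hrk : RankAtMost 𝔤 r) (γ : Γ) {Q : ι → ℚ[X]}
    (hQ : ∀ i, (ρ i γ).charpoly = (Q i).map (algebraMap ℚ ℚ_[ℓ])) (hr : IndependentRoots r Q)
    (hss : FiniteIndexSemisimple (sumRep ρ)) (hend : EndosFixed (sumRep ρ) 𝔤) :
    TateIsKilledBy (sumRep ρ) 𝔤 := by
  classical
  obtain ⟨j, hj⟩ := exists_j ℓ ℚ_[ℓ] ℚ (algebraMap ℚ ℚ_[ℓ]) (algebraMap ℚ ℂ)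
  let alg : Algebra ℚ_[ℓ] ℂ := j.toAlgebra
  have h := inputs
  have h2 := inputs2
  obtain ⟨L, hL, hLie, hAd, hlog⟩ := h.lie ℚ_[ℓ] (∀ i, Fin (n i) → ℚ_[ℓ]) _ (sumRep ρ)
  have hLG : L ≤ 𝔤 := fun X hX => h𝔤.algebraic X fun m φ hφ => ((hL X).1 hX).2 m φ (h𝔤.tate m φ hφ)
  have hLT : ∀ X, X ∈ L ↔ ∀ (m : ℕ) (φ : Tensor ℚ_[ℓ] (∀ i, Fin (n i) → ℚ_[ℓ]) m),
      TateTensor (sumRep ρ) φ → KillsTensor X φ := fun X =>
    ⟨fun hX => ((hL X).1 hX).2, fun hX => (hL X).2 (mem_LT_of_semisimple (sumRep ρ) hss hX)⟩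
  obtain ⟨z, hz, hind⟩ := hr
  have hz' : ∀ i, End.HasEigenvalue ((sumRep ρ γ).baseChange ℂ) (z i) := by
    intro i
    obtain ⟨a, ha⟩ := hz i
    exact sumRep_eigen ρ γ (hQ a) ha
  have hcen := torus_cen (sumRep ρ) h h2.jord h2.cartan hL hLG h𝔤.bracket h𝔤.nondeg h𝔤.algebraic
    hrk γ z hz' hind
  have hND : NonDeg L := nonDeg_of_semisimple (ρ := sumRep ρ) hLT hLie hAd hss
  have hfull : L = 𝔤 := full_of_endos ρ hρ 𝔤 h𝔤 alg hss hLT hLie hLG hND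
    (tor_le (sumRep ρ) h hL γ) (tor_diag _) (tor_comm _) hcen hend
  exact fun m φ => ⟨fun hφ X hX => (hLT X).1 (hfull ▸ hX) m φ hφ, IsMotivic.tate h𝔤 m φ⟩

end main

end Pool.Agent.R931.ZF
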