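import Mathlib
import Pool.Agent.R931.ZF.Key
import Pool.Agent.R931.ZF.Full
import Pool.Agent.R931.PD.Sums

/-!
# Semisimplicity from the labels, if there are enough endomorphisms
-/

set_option autoImplicit false
set_option linter.unusedSectionVars false

namespace Pool.Agent.R931.ZF

open Function Polynomial Module NumberField IsDedekindDomain Pool.Agent.TH118.SG
  Pool.Agent.Y114.RM Pool.Agent.Y114.MU Pool.Agent.Y114.TF Pool.Agent.Y114.GF
  Pool.Agent.H204R3.GP Pool.Agent.R931.GD Pool.Agent.Y142.ZO Pool.Agent.Y142.ZI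
  Pool.Agent.Y142.SS Pool.Agent.R931.BD Pool.Agent.R931.ZL Pool.Agent.R931.ZM Pool.Agent.R931.PD
open Pool.Agent.Y142.ZD (DistPow dist_of_nice)
open Pool.Agent.Y142.ZS (NiceP nice_of_p)
open Pool.Agent.Y497.ZO (Mt Aj)
open Pool.Agent.Y936.SS (Om)

section diag

variable {k V I : Type} [Field k] [AddCommGroup V] [Module k V] [FiniteDimensional k V]
  [Fintype I]

/-- the diagonal endomorphisms which are constant on the orbits -/
noncomputable def diagH (b : Basis I k V) (H : Subgroup (Equiv.Perm I)) : Submodule k (End k V) where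
  carrier := {Y | (∀ i, Y (b i) = b.repr (Y (b i)) i • b i) ∧
    ∀ a ∈ H, ∀ i, b.repr (Y (b (a i))) (a i) = b.repr (Y (b i)) i}
  add_mem' := by
    rintro Y Z ⟨hY, hY'⟩ ⟨hZ, hZ'⟩
    refine ⟨fun i => ?_, fun a ha i => ?_⟩
    · rw [LinearMap.add_apply, map_add, Finsupp.add_apply, add_smul, ← hY, ← hZ]
    · rw [LinearMap.add_apply, LinearMap.add_apply, map_add, map_add, Finsupp.add_apply,
        Finsupp.add_apply, hY' a ha, hZ' a ha]
  zero_mem' := by
    refine ⟨fun i => ?_, fun a ha i => ?_⟩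
    · rw [LinearMap.zero_apply, map_zero, Finsupp.zero_apply, zero_smul]
    · rw [LinearMap.zero_apply, LinearMap.zero_apply, map_zero, Finsupp.zero_apply,
        Finsupp.zero_apply]
  smul_mem' := by
    rintro c Y ⟨hY, hY'⟩
    refine ⟨fun i => ?_, fun a ha i => ?_⟩
    · rw [LinearMap.smul_apply, map_smul, Finsupp.smul_apply, smul_eq_mul, mul_smul, ← hY]
    · rw [LinearMap.smul_apply, LinearMap.smul_apply, map_smul, map_smul, Finsupp.smul_apply,
        Finsupp.smul_apply, hY' a ha]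

theorem finrank_diagH (b : Basis I k V) (H : Subgroup (Equiv.Perm I)) :
    finrank k (diagH b H) ≤ orbitCount H :=
  finrank_le_orbits b H _ (fun _ hY => hY.1) (fun _ hY => hY.2)

end diag

section base

variable {k Ω n : Type} [Field k] [Field Ω] [Algebra k Ω] [Fintype n] [DecidableEq n]

theorem ext_retract (π : Ω →ₗ[k] k) {W : Submodule k (n → k)} {u : n → Ω} (hu : u ∈ ext Ω W) :
    (fun i => π (u i)) ∈ W := by
  have h1 : ∀ c : Ω, (fun i => π (c * u i)) ∈ W := by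
    refine Submodule.span_induction (p := fun u _ => ∀ c : Ω, (fun i => π (c * u i)) ∈ W)
      ?_ ?_ ?_ ?_ hu
    · rintro _ ⟨w, hw, rfl⟩ c
      have h2 : (fun i => π (c * algebraMap k Ω (w i))) = π c • w := by
        funext i
        rw [mul_comm, ← Algebra.smul_def, map_smul, Pi.smul_apply, smul_eq_mul, smul_eq_mul,
          mul_comm]
      rw [h2]
      exact W.smul_mem _ hw
    · intro c
      have h2 : (fun i => π (c * (0 : n → Ω) i)) = 0 := by
        funext i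
        rw [Pi.zero_apply, mul_zero, map_zero]
        rfl
      rw [h2]
      exact W.zero_mem
    · intro a b _ _ ha hb c
      have h2 : (fun i => π (c * (a + b) i)) = (fun i => π (c * a i)) + fun i => π (c * b i) := by
        funext i
        rw [Pi.add_apply, mul_add, map_add]
        rfl
      rw [h2]
      exact W.add_mem (ha c) (hb c)
    · intro c' a _ ha c
      have h2 : (fun i => π (c * (c' • a) i)) = fun i => π (c * c' * a i) := by
        funext i
        rw [Pi.smul_apply, smul_eq_mul, mul_assoc]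
      rw [h2]
      exact ha _
  have h2 := h1 1
  simpa only [one_mul] using h2

theorem retract_mO (π : Ω →ₗ[k] k) (A : Matrix n n k) (u : n → Ω) :
    (fun i => π (mO k Ω n A u i)) = A.mulVec fun i => π (u i) := by
  funext i
  rw [mO_apply', Matrix.mulVec, Matrix.mulVec, dotProduct, dotProduct, map_sum]
  refine Finset.sum_congr rfl fun j _ => ?_
  rw [Matrix.map_apply, ← Algebra.smul_def, map_smul, smul_eq_mul]

theorem mO_alg (A : Matrix n n k) (w : n → k) :
    mO k Ω n A (fun i => algebraMap k Ω (w i)) = fun i => algebraMap k Ω (A.mulVec w i) := by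
  funext i
  rw [mO_apply', Matrix.mulVec, Matrix.mulVec, dotProduct, dotProduct, map_sum]
  exact Finset.sum_congr rfl fun j _ => by rw [map_mul, Matrix.map_apply]

end base

section

variable {K : Type} [Field K] [NumberField K] {Γ : Type} [Group Γ] [TopologicalSpace Γ]
  [IsTopologicalGroup Γ] [CompactSpace Γ] {s : Gal(AlgebraicClosure K/K) →* Γ} {N : ℕ} {wt : ℤ}
  {c r : ℕ} {S : Set (HeightOneSpectrum (𝓞 K))} {P : HeightOneSpectrum (𝓞 K) → ℚ[X]}
  {ρ : ∀ (ℓ : ℕ) [Fact ℓ.Prime], Rep1 Γ N ℓ} {ℓ : ℕ} [Fact ℓ.Prime] {R : Set (Fin N → ℤ)}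

theorem comO_le_diagH {γ : Γ} {z : Fin N → Om ℓ} {e : Basis (Fin N) (Om ℓ) (Fin N → Om ℓ)}
    {f : ℚ_[ℓ][X]} (hd : OmDat ρ s S P r ℓ R γ z e f) {H : Subgroup (Equiv.Perm (Fin N))}
    (hH : LabelsO ρ ℓ e H) {Δ : Subgroup Γ} (hΔ : Δ.FiniteIndex) : comO ρ ℓ Δ ≤ diagH e H := by
  obtain ⟨M, hM, -, hMΔ⟩ := Subgroup.exists_pow_mem_of_index_ne_zero hΔ.index_ne_zero γ
  intro Y hY
  have hdiag : ∀ i, Y (e i) = e.repr (Y (e i)) i • e i := by
    intro i
    refine diag_of_comm e (pow_basis e hd.eig M) (hd.dist M hM) ?_ i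
    have h1 := hY _ hMΔ
    rwa [map_pow, map_pow] at h1
  refine ⟨hdiag, fun a ha i => ?_⟩
  set lam := e.repr (Y (e i)) i with hlam
  have hstab : ∀ δ ∈ Δ, ∀ w ∈ LinearMap.ker (Y - algebraMap (Om ℓ) _ lam),
      mOm ℓ N (matRep (ρ ℓ) δ) w ∈ LinearMap.ker (Y - algebraMap (Om ℓ) _ lam) := by
    intro δ hδ w hw
    rw [LinearMap.mem_ker, LinearMap.sub_apply, Module.algebraMap_end_apply, sub_eq_zero] at hw ⊢
    have h2 := LinearMap.congr_fun (hY δ hδ) w
    rw [Module.End.mul_apply, Module.End.mul_apply] at h2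
    rw [← h2, hw, map_smul]
  have h1 : e i ∈ LinearMap.ker (Y - algebraMap (Om ℓ) _ lam) := by
    rw [LinearMap.mem_ker, LinearMap.sub_apply, Module.algebraMap_end_apply, hdiag i, ← hlam,
      sub_self]
  have h2 := (hH Δ hΔ _ hstab a ha i).2 h1
  rw [LinearMap.mem_ker, LinearMap.sub_apply, Module.algebraMap_end_apply, sub_eq_zero] at h2
  rw [h2, map_smul, Finsupp.smul_apply, Basis.repr_self, Finsupp.single_eq_same, smul_eq_mul,
    mul_one]

theorem comO_eq {γ : Γ} {z : Fin N → Om ℓ} {e : Basis (Fin N) (Om ℓ) (Fin N → Om ℓ)}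
    {f : ℚ_[ℓ][X]} (hd : OmDat ρ s S P r ℓ R γ z e f) {H : Subgroup (Equiv.Perm (Fin N))}
    (hH : LabelsO ρ ℓ e H) {Δ : Subgroup Γ} (hΔ : Δ.FiniteIndex)
    (hdim : orbitCount H ≤ finrank (Om ℓ) (comO ρ ℓ Δ)) : comO ρ ℓ Δ = diagH e H :=
  Submodule.eq_of_le_of_finrank_le (comO_le_diagH hd hH hΔ) ((finrank_diagH e H).trans hdim)

theorem semi_of_labels {γ : Γ} {z : Fin N → Om ℓ} {e : Basis (Fin N) (Om ℓ) (Fin N → Om ℓ)}
    {f : ℚ_[ℓ][X]} (hd : OmDat ρ s S P r ℓ R γ z e f) {H : Subgroup (Equiv.Perm (Fin N))}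
    (hH : LabelsO ρ ℓ e H) {Δ₀ : Subgroup Γ} (hΔ₀ : Δ₀.FiniteIndex)
    (hdim : orbitCount H ≤ finrank (Om ℓ) (comO ρ ℓ Δ₀)) : Semisimple (ρ ℓ) := by
  classical
  intro Δ hΔ U hU
  have hcom := comO_eq hd hH hΔ₀ hdim
  let W : Submodule ℚ_[ℓ] (Fin N → ℚ_[ℓ]) := U.comap (uu ℓ N : _ →ₗ[ℚ_[ℓ]] _)
  have hWU : ∀ w : Fin N → ℚ_[ℓ], w ∈ W ↔ (fun _ => w : ∀ _ : Unit, Fin N → ℚ_[ℓ]) ∈ U :=
    fun w => Iff.rfl
  have hWs : ∀ δ ∈ Δ, ∀ w ∈ W, (matRep (ρ ℓ) δ).mulVec w ∈ W := by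
    intro δ hδ w hw
    have h1 := hU δ hδ _ ((hWU w).1 hw)
    rw [ZL.sumRep_eq] at h1
    exact h1
  have hext : ∀ δ ∈ Δ, ∀ u ∈ ext (Om ℓ) W, mOm ℓ N (matRep (ρ ℓ) δ) u ∈ ext (Om ℓ) W :=
    fun δ hδ => ext_stable (hWs δ hδ)
  -- the projection over the algebraic closure
  let Q : End (Om ℓ) (Fin N → Om ℓ) :=
    e.constr (Om ℓ) fun i => if e i ∈ ext (Om ℓ) W then e i else 0
  have hQe : ∀ i, Q (e i) = if e i ∈ ext (Om ℓ) W then e i else 0 := fun i =>
    e.constr_basis (Om ℓ) _ i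
  have hQmem : Q ∈ comO ρ ℓ Δ₀ := by
    rw [hcom]
    have h1 : ∀ i, e.repr (Q (e i)) i = if e i ∈ ext (Om ℓ) W then 1 else 0 := by
      intro i
      rw [hQe]
      split_ifs
      · rw [Basis.repr_self, Finsupp.single_eq_same]
      · rw [map_zero, Finsupp.zero_apply]
    refine ⟨fun i => ?_, fun a ha i => ?_⟩
    · rw [h1, hQe]
      split_ifs
      · rw [one_smul]
      · rw [zero_smul]
    · rw [h1, h1]
      have h2 := hH Δ hΔ _ hext a ha i
      by_cases h3 : e i ∈ ext (Om ℓ) W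
      · rw [if_pos h3, if_pos (h2.2 h3)]
      · rw [if_neg h3, if_neg fun h4 => h3 (h2.1 h4)]
  have hQ1 : ∀ u, Q u ∈ ext (Om ℓ) W := by
    intro u
    rw [← e.sum_repr u, map_sum]
    refine Submodule.sum_mem _ fun i _ => ?_
    rw [map_smul, hQe]
    refine Submodule.smul_mem _ _ ?_
    split_ifs with h1
    · exact h1
    · exact Submodule.zero_mem _
  have hQ2 : ∀ u ∈ ext (Om ℓ) W, Q u = u := by
    intro u hu
    conv_rhs => rw [← e.sum_repr u]
    conv_lhs => rw [← e.sum_repr u]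
    rw [map_sum]
    refine Finset.sum_congr rfl fun i _ => ?_
    rw [map_smul, hQe]
    by_cases hi : e.repr u i = 0
    · rw [hi, zero_smul, zero_smul]
    · rw [if_pos (comp_mem e hd.log.yinj (fun i => mO_eig hd.eig f i) (ext (Om ℓ) W)
        (hd.stab hΔ hext) hu hi)]
  -- the projection over `ℚ_ℓ`
  obtain ⟨π, hπ⟩ := LinearMap.exists_leftInverse_of_injective
    (Algebra.linearMap ℚ_[ℓ] (Om ℓ)) (by
      rw [LinearMap.ker_eq_bot]
      exact (algebraMap ℚ_[ℓ] (Om ℓ)).injective)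
  have hπ' : ∀ x : ℚ_[ℓ], π (algebraMap ℚ_[ℓ] (Om ℓ) x) = x := fun x => LinearMap.congr_fun hπ x
  let P₀ : (∀ _ : Unit, Fin N → ℚ_[ℓ]) → (∀ _ : Unit, Fin N → ℚ_[ℓ]) :=
    fun x _ i => π (Q (fun j => algebraMap ℚ_[ℓ] (Om ℓ) (x () j)) i)
  let P' : End ℚ_[ℓ] (∀ _ : Unit, Fin N → ℚ_[ℓ]) :=
    { toFun := P₀
      map_add' := by
        intro x y
        funext a i
        have h1 : (fun j => algebraMap ℚ_[ℓ] (Om ℓ) ((x + y) () j)) =
            (fun j => algebraMap ℚ_[ℓ] (Om ℓ) (x () j)) +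
              fun j => algebraMap ℚ_[ℓ] (Om ℓ) (y () j) := by
          funext j
          rw [Pi.add_apply, Pi.add_apply, map_add]
          rfl
        change π (Q (fun j => algebraMap ℚ_[ℓ] (Om ℓ) ((x + y) () j)) i) = _
        rw [h1, map_add, Pi.add_apply, map_add]
        rfl
      map_smul' := by
        intro t x
        funext a i
        have h1 : (fun j => algebraMap ℚ_[ℓ] (Om ℓ) ((t • x) () j)) =
            algebraMap ℚ_[ℓ] (Om ℓ) t • fun j => algebraMap ℚ_[ℓ] (Om ℓ) (x () j) := by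
          funext j
          rw [Pi.smul_apply, Pi.smul_apply, smul_eq_mul, map_mul]
          rfl
        change π (Q (fun j => algebraMap ℚ_[ℓ] (Om ℓ) ((t • x) () j)) i) = _
        rw [h1, map_smul, Pi.smul_apply, smul_eq_mul, ← Algebra.smul_def, map_smul]
        rfl }
  have hP' : ∀ x i, P' x () i = π (Q (fun j => algebraMap ℚ_[ℓ] (Om ℓ) (x () j)) i) :=
    fun x i => rfl
  refine Pool.Agent.Y41.RM.exists_compl_of_commute (sumRep (ρ ℓ)) Δ Δ₀ hΔ₀ U hU P' (fun x => ?_)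
    (fun x hx => ?_) fun δ hδ => ?_
  · have h1 := ext_retract π (hQ1 fun j => algebraMap ℚ_[ℓ] (Om ℓ) (x () j))
    exact (hWU _).1 h1
  · have hx' : x () ∈ W := (hWU _).2 hx
    funext a i
    change π (Q (fun j => algebraMap ℚ_[ℓ] (Om ℓ) (x () j)) i) = x a i
    rw [hQ2 _ (mem_ext.2 hx'), hπ']
  · refine LinearMap.ext fun x => ?_
    funext a i
    rw [ZL.sumRep_eq, Module.End.mul_apply, Module.End.mul_apply, lin_apply]
    change π (Q (fun j => algebraMap ℚ_[ℓ] (Om ℓ) ((matRep (ρ ℓ) δ).mulVec (x ()) j)) i) =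
      (matRep (ρ ℓ) δ).mulVec (fun i => π (Q (fun j => algebraMap ℚ_[ℓ] (Om ℓ) (x () j)) i)) i
    rw [← mO_alg (Ω := Om ℓ) (matRep (ρ ℓ) δ) (x ())]
    have h1 := LinearMap.congr_fun (hQmem δ hδ) fun j => algebraMap ℚ_[ℓ] (Om ℓ) (x () j)
    rw [Module.End.mul_apply, Module.End.mul_apply] at h1
    have h2 := congrFun (retract_mO π (matRep (ρ ℓ) δ)
      (Q fun j => algebraMap ℚ_[ℓ] (Om ℓ) (x () j))) i
    rw [← h2]
    exact congrArg (fun u => π (u i)) h1.symm

end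

end Pool.Agent.R931.ZF
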