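import Mathlib
import Pool.Agent.R931.ZF.Fin
import Pool.Agent.R931.ZF.Semi

/-!
# The zero-one law without a technical prime
-/

set_option autoImplicit false
set_option linter.unusedSectionVars false
set_option linter.unusedVariables false

namespace Pool.Agent.R931.ZF

open Function Polynomial Module NumberField IsDedekindDomain TensorProduct Pool.Agent.TH118.SG
  Pool.Agent.Y114.RM Pool.Agent.Y114.MU Pool.Agent.Y114.TF Pool.Agent.Y114.GF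
  Pool.Agent.H204R3.GP Pool.Agent.R931.GD Pool.Agent.Y142.ZO Pool.Agent.Y142.ZI
  Pool.Agent.Y142.SS Pool.Agent.R931.BD Pool.Agent.R931.ZL Pool.Agent.R931.ZM Pool.Agent.R931.PD
open Pool.Agent.Y142.ZD (DistPow dist_of_nice)
open Pool.Agent.Y142.ZS (NiceP nice_of_p S_SPL)
open Pool.Agent.Y936.SS (Om)

section

variable {K : Type} [Field K] [NumberField K] {Γ : Type} [Group Γ] [TopologicalSpace Γ]
  [IsTopologicalGroup Γ] [CompactSpace Γ] {s : Gal(AlgebraicClosure K/K) →* Γ} {N : ℕ} {wt : ℤ}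
  {c r : ℕ} {S : Set (HeightOneSpectrum (𝓞 K))} {P : HeightOneSpectrum (𝓞 K) → ℚ[X]}
  {ρ : ∀ (ℓ : ℕ) [Fact ℓ.Prime], Rep1 Γ N ℓ}

/-- the endomorphisms which commute with `𝔤` commute with a subgroup of finite index -/
theorem exists_comS {ℓ : ℕ} [Fact ℓ.Prime] {𝔤 : End1 N ℓ} (hmot : Motivic (ρ ℓ) 𝔤) {m : ℕ}
    (hend : m ≤ commutantDim 𝔤) :
    ∃ Δ : Subgroup Γ, Δ.FiniteIndex ∧ m ≤ finrank ℚ_[ℓ] (comS ρ ℓ Δ) := by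
  classical
  set 𝔤' : Submodule ℚ_[ℓ] (End ℚ_[ℓ] (∀ _ : Unit, Fin N → ℚ_[ℓ])) := 𝔤 with h𝔤'
  obtain ⟨Z, hZ, hZdim⟩ : ∃ Z : Submodule ℚ_[ℓ] (End ℚ_[ℓ] (∀ _ : Unit, Fin N → ℚ_[ℓ])),
      (∀ Y, Y ∈ Z ↔ ∀ X ∈ 𝔤', X * Y = Y * X) ∧ m ≤ finrank ℚ_[ℓ] Z := by
    refine ⟨Subalgebra.toSubmodule (Subalgebra.centralizer ℚ_[ℓ]
      {X : End ℚ_[ℓ] (∀ _ : Unit, Fin N → ℚ_[ℓ]) | X ∈ 𝔤'}), fun Y => ?_, hend⟩
    rw [Subalgebra.mem_toSubmodule, Subalgebra.mem_centralizer_iff]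
    rfl
  have hfin : FiniteDimensional ℚ_[ℓ] (End ℚ_[ℓ] (∀ _ : Unit, Fin N → ℚ_[ℓ])) := inferInstance
  have hfinZ : FiniteDimensional ℚ_[ℓ] Z := FiniteDimensional.finiteDimensional_submodule Z
  have hfree : Module.Free ℚ_[ℓ] Z := Module.Free.of_divisionRing ℚ_[ℓ] Z
  let β := Module.finBasis ℚ_[ℓ] Z
  have h1 : ∀ j, ∃ Δ : Subgroup Γ, Δ.FiniteIndex ∧ ∀ g ∈ Δ,
      sumRep (ρ ℓ) g * (β j : End ℚ_[ℓ] (∀ _ : Unit, Fin N → ℚ_[ℓ])) = β j * sumRep (ρ ℓ) g :=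
    fun j => comm_tate (sumRep (ρ ℓ)) (𝔤 := 𝔤') (fun m φ hφ => hmot.tate m φ hφ)
      ((hZ _).1 (β j).2)
  choose D hD1 hD2 using h1
  have hΔ' : (⨅ j, D j).FiniteIndex := Subgroup.finiteIndex_iInf hD1
  refine ⟨⨅ j, D j, hΔ', hZdim.trans (Submodule.finrank_mono ?_)⟩
  intro W hW γ hγ
  have hγj : ∀ j, γ ∈ D j := fun j => (Subgroup.mem_iInf.1 hγ) j
  have h3 : (⟨W, hW⟩ : Z) = ∑ j, β.repr ⟨W, hW⟩ j • β j := (β.sum_repr _).symm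
  have h4 : W = ∑ j, β.repr ⟨W, hW⟩ j • (β j : End ℚ_[ℓ] (∀ _ : Unit, Fin N → ℚ_[ℓ])) := by
    have h5 := congrArg (fun z : Z => (z : End ℚ_[ℓ] (∀ _ : Unit, Fin N → ℚ_[ℓ]))) h3
    simpa only [Submodule.coe_sum, Submodule.coe_smul] using h5
  rw [h4, Finset.mul_sum, Finset.sum_mul]
  refine Finset.sum_congr rfl fun j _ => ?_
  rw [mul_smul_comm, smul_mul_assoc, hD2 j γ (hγj j)]

/-- semisimplicity and the Tate tensors, from the labels -/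
theorem full_of_labels {𝔤 : ∀ (ℓ : ℕ) [Fact ℓ.Prime], End1 N ℓ}
    (h' : Setup K Γ s N wt c r S P ρ 𝔤) {v₀ : HeightOneSpectrum (𝓞 K)} (hv₀ : GoodPl S P r v₀)
    {ℓ : ℕ} [Fact ℓ.Prime] (hv₀ℓ : ¬ Above v₀ ℓ) {R : Set (Fin N → ℤ)} {m : ℕ}
    (hend : m ≤ commutantDim (𝔤 ℓ)) {γ : Γ} {z : Fin N → Om ℓ}
    {e : Basis (Fin N) (Om ℓ) (Fin N → Om ℓ)} {f : ℚ_[ℓ][X]} (hd : OmDat ρ s S P r ℓ R γ z e f)
    {H : Subgroup (Equiv.Perm (Fin N))} (hlab : LabelsO ρ ℓ e H) (hH : orbitCount H ≤ m) :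
    Semisimple (ρ ℓ) ∧ TateTensorsOf (ρ ℓ) (𝔤 ℓ) := by
  obtain ⟨Δ₀, hΔ₀, hdim⟩ := exists_comS (h'.motivic ℓ) hend
  have hss : Semisimple (ρ ℓ) := semi_of_labels hd hlab hΔ₀
    (((hH.trans hdim).trans (comS_leM Δ₀)).trans (comM_le Δ₀))
  obtain ⟨σ, hσ⟩ := Pool.Agent.W401.Frob.exists_frob v₀
  have hchar := h'.frob ℓ hv₀.1.1 hv₀ℓ hσ
  refine ⟨hss, full_of_ss (ρ ℓ) (h'.cont ℓ) _ (h'.motivic ℓ) (h'.rank ℓ) (s σ⁻¹)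
    (Q := fun _ => P v₀) (fun i => ?_) (independentRoots_one hv₀.2) hss
    (endos_of_dim (h'.motivic ℓ) (fun Δ hΔ => (comS_leO hd hlab hΔ).trans hH) hend)⟩
  rw [matRep_apply, ← Matrix.charpoly_toLin', Matrix.toLin'_toMatrix'] at hchar
  exact hchar

/-- the zero-one law for the Mumford-Tate conjecture -/
theorem main_MTG {𝔤 : ∀ (ℓ : ℕ) [Fact ℓ.Prime], End1 N ℓ} (h' : Setup K Γ s N wt c r S P ρ 𝔤)
    (R : Set (Fin N → ℤ)) (hRr : RankGE r R)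
    {J : Type} (T : J → Set (Equiv.Perm (Fin N))) (hne : ∃ j, (T j).Nonempty)
    (p : J → ℕ) [∀ j, Fact (p j).Prime] (τ : ∀ j, Gal(PadicAlgCl (p j)/ℚ_[p j]))
    (hτ : ∀ j, ∀ a ∈ T j, TypeOccurs s (ρ (p j)) R (τ j) a)
    (m : ℕ) (hm : OrbitBound (relAut R) T m)
    (hend : ∀ (ℓ : ℕ) [Fact ℓ.Prime], m ≤ commutantDim (𝔤 ℓ)) :
    HasDensityZero {ℓ | ∃ _ : Fact ℓ.Prime, ¬ (Semisimple (ρ ℓ) ∧ TateTensorsOf (ρ ℓ) (𝔤 ℓ))} := by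
  classical
  have h := setup_of_motivic h'
  obtain ⟨v₀, p₀, hp₀⟩ : ∃ (v₀ : HeightOneSpectrum (𝓞 K)) (p₀ : ℕ), (∃ v, GoodPl S P r v) →
      GoodPl S P r v₀ ∧ p₀.Prime ∧ Above v₀ p₀ := by
    by_cases hex : ∃ v, GoodPl S P r v
    · obtain ⟨v, hv⟩ := hex
      obtain ⟨p, hp, hpv⟩ := exists_prime' v
      exact ⟨v, p, fun _ => ⟨hv, hp, hpv⟩⟩
    · obtain ⟨j, a, ha⟩ := hne
      obtain ⟨σ₀, hσ₀⟩ := main_localT h R hRr (T j) (p j) (τ j) (hτ j)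
      obtain ⟨v, hv, -⟩ := hσ₀ a ha
      exact absurd ⟨v, hv⟩ hex
  refine main_F h R hRr T hne p τ hτ
    (fun ℓ _ => Semisimple (ρ ℓ) ∧ TateTensorsOf (ρ ℓ) (𝔤 ℓ)) {p₀} (Set.finite_singleton p₀) ?_
  intro G M hGA hMG hnorm hmeet hgood ℓ hℓp hℓ γ z e f H g y hd hg hHA hyA hyn hmc hlab
  have hH : orbitCount H ≤ m := hm G M H g y hGA hMG hnorm hmeet hg hHA hyA hyn hmc
  obtain ⟨hv₀, hp, hv₀p⟩ := hp₀ hgood
  exact full_of_labels h' hv₀ (fun hab => hℓ (above_inj hp hℓp.out hv₀p hab).symm) (hend ℓ) hd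
    hlab hH

end

end Pool.Agent.R931.ZF
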