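import Mathlib
import Pool.Agent.R931.ZF.CoefDefs
import Pool.Agent.R931.ZF.Main

/-!
# Irreducibility of the parts of a system with coefficients
-/

set_option autoImplicit false
set_option linter.unusedSectionVars false
set_option linter.unusedVariables false

namespace Pool.Agent.R931.ZF

open Function Polynomial Module NumberField IsDedekindDomain TensorProduct Pool.Agent.TH118.SG
  Pool.Agent.Y114.RM Pool.Agent.Y114.MU Pool.Agent.Y114.TF Pool.Agent.Y114.GF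
  Pool.Agent.H204R3.GP Pool.Agent.R931.GD Pool.Agent.Y142.ZO Pool.Agent.Y142.ZI
  Pool.Agent.Y142.SS Pool.Agent.R931.BD Pool.Agent.R931.ZL Pool.Agent.R931.ZM Pool.Agent.R931.PD
open Pool.Agent.Y936.SS (Om)

section part

variable {Γ : Type} [Group Γ] {N ℓ : ℕ} [Fact ℓ.Prime] {E : Type} [Field E] [NumberField E]

/-- the coefficients over the algebraic closure -/
noncomputable def coefO (ε : E →+* End ℚ_[ℓ] (Fin N → ℚ_[ℓ])) :
    E →+* End (Om ℓ) (Fin N → Om ℓ) := (mOm ℓ N).comp (matCoef ε)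

theorem coefO_apply (ε : E →+* End ℚ_[ℓ] (Fin N → ℚ_[ℓ])) (a : E) :
    coefO ε a = overClosure (ε a) := rfl

theorem trace_mOm (A : Matrix (Fin N) (Fin N) ℚ_[ℓ]) :
    LinearMap.trace (Om ℓ) (Fin N → Om ℓ) (mOm ℓ N A) = algebraMap ℚ_[ℓ] (Om ℓ) A.trace := by
  change LinearMap.trace (Om ℓ) (Fin N → Om ℓ) (Matrix.toLin' (A.map (algebraMap ℚ_[ℓ] (Om ℓ)))) = _
  rw [Matrix.trace_toLin'_eq]
  exact (AddMonoidHom.map_trace (algebraMap ℚ_[ℓ] (Om ℓ)).toAddMonoidHom A).symm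

theorem trace_coefO (ε : E →+* End ℚ_[ℓ] (Fin N → ℚ_[ℓ])) {n : ℕ}
    (htr : ∀ a, LinearMap.trace ℚ_[ℓ] (Fin N → ℚ_[ℓ]) (ε a) =
      (n : ℚ_[ℓ]) * ((Algebra.trace ℚ E a : ℚ) : ℚ_[ℓ])) (a : E) :
    LinearMap.trace (Om ℓ) (Fin N → Om ℓ) (coefO ε a) = n * ∑ σ : E →ₐ[ℚ] Om ℓ, σ a := by
  change LinearMap.trace (Om ℓ) (Fin N → Om ℓ) (mOm ℓ N (matCoef ε a)) = _
  rw [trace_mOm, matCoef_apply]
  have h1 : (LinearMap.toMatrix' (ε a)).trace = LinearMap.trace ℚ_[ℓ] (Fin N → ℚ_[ℓ]) (ε a) := by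
    rw [← Matrix.trace_toLin'_eq, Matrix.toLin'_toMatrix']
  rw [h1, htr, map_mul, map_natCast]
  congr 1
  rw [← trace_eq_sum_embeddings (Om ℓ)]
  have h2 : ((Algebra.trace ℚ E a : ℚ) : ℚ_[ℓ]) = algebraMap ℚ ℚ_[ℓ] (Algebra.trace ℚ E a) := by
    simp
  rw [h2]
  exact (IsScalarTower.algebraMap_apply ℚ ℚ_[ℓ] (Om ℓ) _).symm

theorem partAt_ne_bot (ε : E →+* End ℚ_[ℓ] (Fin N → ℚ_[ℓ])) {n : ℕ} (hn : 0 < n)
    (htr : ∀ a, LinearMap.trace ℚ_[ℓ] (Fin N → ℚ_[ℓ]) (ε a) =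
      (n : ℚ_[ℓ]) * ((Algebra.trace ℚ E a : ℚ) : ℚ_[ℓ])) (φ : E →+* Om ℓ) :
    partAt ε φ ≠ ⊥ := by
  classical
  intro hbot
  let pb := Field.powerBasisOfFiniteOfSeparable ℚ E
  set a := pb.gen with ha
  set A := coefO ε a with hA
  let φ' : E →ₐ[ℚ] Om ℓ := φ.toRatAlgHom
  have hφ' : ∀ b, φ' b = φ b := fun b => rfl
  -- the eigenspace of `A` for `φ a`
  have hinj : ∀ x, A x = φ a • x → x = 0 := by
    intro x hx
    by_contra hx0
    have h1 : A.HasEigenvector (φ a) x := ⟨End.mem_eigenspace_iff.2 hx, hx0⟩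
    have h2 : x ∈ partAt ε φ := by
      intro b
      obtain ⟨f, hf⟩ := pb.exists_eq_aeval' b
      have h3 : overClosure (ε b) = aeval A (f.map (algebraMap ℚ (Om ℓ))) := by
        rw [← coefO_apply, hf, aeval_map_algebraMap]
        exact (Polynomial.aeval_algHom_apply (coefO ε).toRatAlgHom a f).symm
      have h4 : φ b = eval (φ a) (f.map (algebraMap ℚ (Om ℓ))) := by
        rw [← hφ', hf, ← Polynomial.aeval_algHom_apply φ' a f, eval_map_algebraMap]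
        rfl
      rw [h3, h4]
      exact Module.End.aeval_apply_of_hasEigenvector h1
    rw [hbot] at h2
    exact hx0 h2
  -- the minimal polynomial
  set f := (minpoly ℚ a).map (algebraMap ℚ (Om ℓ)) with hf
  have hroot : ∀ σ : E →ₐ[ℚ] Om ℓ, eval (σ a) f = 0 := by
    intro σ
    rw [hf, eval_map_algebraMap, Polynomial.aeval_algHom_apply, minpoly.aeval, map_zero]
  have hfA : aeval A f = 0 := by
    rw [hf, aeval_map_algebraMap]
    have h1 := Polynomial.aeval_algHom_apply (coefO ε).toRatAlgHom a (minpoly ℚ a)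
    rw [minpoly.aeval, map_zero] at h1
    exact h1
  obtain ⟨g, hg⟩ := Polynomial.dvd_iff_isRoot.2 (show IsRoot f (φ a) from hroot φ')
  have hgA : aeval A g = 0 := by
    refine LinearMap.ext fun x => hinj _ ?_
    rw [hg, map_mul, map_sub, aeval_X, aeval_C] at hfA
    have h1 := LinearMap.congr_fun hfA x
    rw [Module.End.mul_apply, LinearMap.sub_apply, Module.algebraMap_end_apply] at h1
    exact sub_eq_zero.1 h1
  have hgφ : eval (φ a) g ≠ 0 := by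
    have hsep : f.Separable := (minpoly.irreducible (Algebra.IsIntegral.isIntegral a)).separable.map
    have h1 := hsep.aeval_derivative_ne_zero (x := φ a) (by
      rw [coe_aeval_eq_eval]
      exact hroot φ')
    rw [hg, derivative_mul, coe_aeval_eq_eval, eval_add, eval_mul, eval_mul, eval_sub, eval_X,
      eval_C, sub_self, zero_mul, add_zero, derivative_sub, derivative_X, derivative_C, sub_zero,
      eval_one, one_mul] at h1
    exact h1
  have htrace : ∀ q : (Om ℓ)[X], LinearMap.trace (Om ℓ) (Fin N → Om ℓ) (aeval A q) =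
      n * ∑ σ : E →ₐ[ℚ] Om ℓ, eval (σ a) q := by
    intro q
    induction q using Polynomial.induction_on' with
    | add p q hp hq =>
      rw [map_add, map_add, hp, hq, ← mul_add, ← Finset.sum_add_distrib]
      simp only [eval_add]
    | monomial k c =>
      rw [aeval_monomial, hA, ← map_pow, ← Algebra.smul_def, map_smul, trace_coefO ε htr, smul_eq_mul,
        mul_left_comm]
      congr 1
      rw [Finset.mul_sum]
      refine Finset.sum_congr rfl fun σ _ => ?_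
      rw [eval_monomial, map_pow]
  have h1 := htrace g
  rw [hgA, map_zero, Finset.sum_eq_single φ'] at h1
  · have h2 : (n : Om ℓ) ≠ 0 := by exact_mod_cast hn.ne'
    exact (mul_ne_zero h2 hgφ) h1.symm
  · intro σ _ hσ
    have h2 := hroot σ
    rw [hg, eval_mul, eval_sub, eval_X, eval_C] at h2
    refine (mul_eq_zero.1 h2).resolve_left fun h3 => hσ (pb.algHom_ext ?_)
    exact sub_eq_zero.1 h3
  · intro h
    exact absurd (Finset.mem_univ _) h

theorem partAt_disjoint (ε : E →+* End ℚ_[ℓ] (Fin N → ℚ_[ℓ])) {φ ψ : E →+* Om ℓ} (h : φ ≠ ψ)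
    {x : Fin N → Om ℓ} (hφ : x ∈ partAt ε φ) (hψ : x ∈ partAt ε ψ) : x = 0 := by
  by_contra hx
  apply h
  refine RingHom.ext fun a => ?_
  have h1 : φ a • x = ψ a • x := by rw [← hφ a, ← hψ a]
  exact smul_left_injective (Om ℓ) hx h1

end part

section

variable {K : Type} [Field K] [NumberField K] {Γ : Type} [Group Γ] [TopologicalSpace Γ]
  [IsTopologicalGroup Γ] [CompactSpace Γ] {s : Gal(AlgebraicClosure K/K) →* Γ} {N : ℕ} {wt : ℤ}
  {c r : ℕ} {S : Set (HeightOneSpectrum (𝓞 K))} {P : HeightOneSpectrum (𝓞 K) → ℚ[X]}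
  {ρ : ∀ (ℓ : ℕ) [Fact ℓ.Prime], Rep1 Γ N ℓ} {ℓ : ℕ} [Fact ℓ.Prime] {R : Set (Fin N → ℤ)}
  {E : Type} [Field E] [NumberField E]

theorem over_eq (γ : Γ) : overClosure (ρ ℓ () γ) = mOm ℓ N (matRep (ρ ℓ) γ) := rfl

/-- stable subspaces are spanned by eigenvectors -/
theorem OmDat.mem {γ : Γ} {z : Fin N → Om ℓ} {e : Basis (Fin N) (Om ℓ) (Fin N → Om ℓ)}
    {f : ℚ_[ℓ][X]} (hd : OmDat ρ s S P r ℓ R γ z e f) {Δ : Subgroup Γ} (hΔ : Δ.FiniteIndex)
    {U : Submodule (Om ℓ) (Fin N → Om ℓ)}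
    (hU : ∀ δ ∈ Δ, ∀ u ∈ U, mOm ℓ N (matRep (ρ ℓ) δ) u ∈ U) {u : Fin N → Om ℓ} (hu : u ∈ U)
    {i : Fin N} (hi : e.repr u i ≠ 0) : e i ∈ U :=
  comp_mem e hd.log.yinj (fun i => mO_eig hd.eig f i) U (hd.stab hΔ hU) hu hi

theorem OmDat.le {γ : Γ} {z : Fin N → Om ℓ} {e : Basis (Fin N) (Om ℓ) (Fin N → Om ℓ)}
    {f : ℚ_[ℓ][X]} (hd : OmDat ρ s S P r ℓ R γ z e f) {Δ : Subgroup Γ} (hΔ : Δ.FiniteIndex)
    {U W : Submodule (Om ℓ) (Fin N → Om ℓ)}
    (hU : ∀ δ ∈ Δ, ∀ u ∈ U, mOm ℓ N (matRep (ρ ℓ) δ) u ∈ U) (h : ∀ i, e i ∈ U → e i ∈ W) :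
    U ≤ W := by
  intro u hu
  rw [← e.sum_repr u]
  refine Submodule.sum_mem _ fun i _ => ?_
  by_cases hi : e.repr u i = 0
  · rw [hi, zero_smul]
    exact Submodule.zero_mem _
  · exact Submodule.smul_mem _ _ (h i (hd.mem hΔ hU hu hi))

/-- irreducibility from the labels -/
theorem irr_of_labels {γ : Γ} {z : Fin N → Om ℓ} {e : Basis (Fin N) (Om ℓ) (Fin N → Om ℓ)}
    {f : ℚ_[ℓ][X]} (hd : OmDat ρ s S P r ℓ R γ z e f) {H : Subgroup (Equiv.Perm (Fin N))}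
    (hH : LabelsO ρ ℓ e H) {ε : E →+* End ℚ_[ℓ] (Fin N → ℚ_[ℓ])} {n : ℕ} (hn : 0 < n)
    (hε : ActsFreely n (ρ ℓ) ε) (horb : orbitCount H ≤ finrank ℚ E) (φ : E →+* PadicAlgCl ℓ) :
    StronglyIrreducible (ρ ℓ) (partAt ε φ) := by
  classical
  have htop : (⊤ : Subgroup Γ).FiniteIndex := inferInstance
  have hst : ∀ φ : E →+* Om ℓ, ∀ δ ∈ (⊤ : Subgroup Γ), ∀ u ∈ partAt ε φ,
      mOm ℓ N (matRep (ρ ℓ) δ) u ∈ partAt ε φ := by
    intro φ δ _ u hu a
    rw [← over_eq]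
    have h1 : overClosure (ε a) * overClosure (ρ ℓ () δ) =
        overClosure (ρ ℓ () δ) * overClosure (ε a) := by
      change mOm ℓ N (matCoef ε a) * mOm ℓ N (matRep (ρ ℓ) δ) =
        mOm ℓ N (matRep (ρ ℓ) δ) * mOm ℓ N (matCoef ε a)
      rw [← map_mul, ← map_mul]
      congr 1
      rw [matCoef_apply, matRep_apply, ← LinearMap.toMatrix'_mul, ← LinearMap.toMatrix'_mul,
        hε.galois]
    have h2 := LinearMap.congr_fun h1 u
    rw [Module.End.mul_apply, Module.End.mul_apply] at h2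
    rw [h2, hu a, map_smul]
  have hne : ∀ φ : E →+* Om ℓ, ∃ i, e i ∈ partAt ε φ := by
    intro φ
    obtain ⟨x, hx, hx0⟩ := (Submodule.ne_bot_iff _).1 (partAt_ne_bot ε hn hε.trace φ)
    have h1 : ∃ i, e.repr x i ≠ 0 := by
      by_contra hcon
      push Not at hcon
      apply hx0
      rw [← e.sum_repr x]
      exact Finset.sum_eq_zero fun i _ => by rw [hcon i, zero_smul]
    obtain ⟨i, hi⟩ := h1
    exact ⟨i, hd.mem htop (hst φ) hx hi⟩
  choose i hi using hne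
  let Q : Type := MulAction.orbitRel.Quotient H (Fin N)
  have hQ : Finite Q := Quotient.finite _
  let F : (E →+* Om ℓ) → Q := fun φ => Quotient.mk _ (i φ)
  have horbit : ∀ j k : Fin N, (Quotient.mk _ j : Q) = Quotient.mk _ k →
      ∃ a ∈ H, a k = j := by
    intro j k hjk
    have h4 : (MulAction.orbitRel H (Fin N)) j k := Quotient.exact hjk
    rw [MulAction.orbitRel_apply] at h4
    obtain ⟨a, ha⟩ := h4
    exact ⟨a, a.2, ha⟩
  have hlab : ∀ (φ : E →+* Om ℓ) (j k : Fin N), (Quotient.mk _ j : Q) = Quotient.mk _ k →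
      e k ∈ partAt ε φ → e j ∈ partAt ε φ := by
    intro φ j k hjk hk
    obtain ⟨a, ha, rfl⟩ := horbit j k hjk
    exact (hH ⊤ htop _ (hst φ) a ha k).2 hk
  have hinj : Injective F := by
    intro φ ψ hφψ
    by_contra hne
    exact e.ne_zero (i ψ) (partAt_disjoint ε hne (hlab φ _ _ hφψ.symm (hi φ)) (hi ψ))
  have hcard : Nat.card Q ≤ Nat.card (E →+* Om ℓ) := by
    rw [Nat.card_eq_fintype_card (α := E →+* Om ℓ), NumberField.Embeddings.card]
    exact horb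
  have hbij : Bijective F := hinj.bijective_of_nat_card_le hcard
  refine ⟨partAt_ne_bot ε hn hε.trace φ, fun Δ hΔ W hW hWs => ?_⟩
  by_cases hex : ∃ j, e j ∈ W
  · right
    obtain ⟨j, hj⟩ := hex
    refine le_antisymm hW (hd.le htop (hst φ) fun k hk => ?_)
    have h1 : ∀ k, e k ∈ partAt ε φ → (Quotient.mk _ k : Q) = F φ := by
      intro k hk
      obtain ⟨ψ, hψ⟩ := hbij.2 (Quotient.mk _ k)
      by_cases h2 : ψ = φ
      · rw [← hψ, h2]
      · exact absurd (partAt_disjoint ε (Ne.symm h2) (hlab φ _ _ hψ hk) (hi ψ)) (e.ne_zero _)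
    obtain ⟨a, ha, rfl⟩ := horbit k j ((h1 k hk).trans (h1 j (hW hj)).symm)
    exact (hH Δ hΔ W hWs a ha j).2 hj
  · left
    push Not at hex
    rw [eq_bot_iff]
    exact hd.le hΔ hWs fun k hk => absurd hk (hex k)

/-- the zero-one law for irreducibility, with coefficients -/
theorem main_coef (h : SetupG K Γ s N wt c r S P ρ) (R : Set (Fin N → ℤ)) (hRr : RankGE r R)
    {J : Type} (T : J → Set (Equiv.Perm (Fin N))) (hne : ∃ j, (T j).Nonempty)
    (p : J → ℕ) [∀ j, Fact (p j).Prime] (τ : ∀ j, Gal(PadicAlgCl (p j)/ℚ_[p j]))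
    (hτ : ∀ j, ∀ a ∈ T j, TypeOccurs s (ρ (p j)) R (τ j) a)
    (n : ℕ) (hn : 0 < n) (ε : ∀ (ℓ : ℕ) [Fact ℓ.Prime], E →+* End ℚ_[ℓ] (Fin N → ℚ_[ℓ]))
    (hε : ∀ (ℓ : ℕ) [Fact ℓ.Prime], ActsFreely n (ρ ℓ) (ε ℓ))
    (hm : OrbitBound (relAut R) T (finrank ℚ E)) :
    HasDensityZero {ℓ | ∃ _ : Fact ℓ.Prime,
      ¬ ((∀ φ : E →+* PadicAlgCl ℓ, StronglyIrreducible (ρ ℓ) (partAt (ε ℓ) φ)) ∧
        ∀ Δ : Subgroup Γ, Δ.FiniteIndex →
          centralizerDim (ρ ℓ () '' (Δ : Set Γ)) ≤ finrank ℚ E)} := by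
  refine main_F h R hRr T hne p τ hτ (fun ℓ _ =>
    (∀ φ : E →+* PadicAlgCl ℓ, StronglyIrreducible (ρ ℓ) (partAt (ε ℓ) φ)) ∧
        ∀ Δ : Subgroup Γ, Δ.FiniteIndex →
          centralizerDim (ρ ℓ () '' (Δ : Set Γ)) ≤ finrank ℚ E) ∅ Set.finite_empty ?_
  intro G M hGA hMG hnorm hmeet hgood ℓ _ _ γ z e f H g y hd hg hHA hyA hyn hmc hlab
  have hH : orbitCount H ≤ finrank ℚ E := hm G M H g y hGA hMG hnorm hmeet hg hHA hyA hyn hmc
  refine ⟨fun φ => irr_of_labels hd hlab hn (hε ℓ) hH φ, fun Δ hΔ => ?_⟩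
  rw [centralizerDim_eq]
  exact ((com_leS Δ).trans (comS_leO hd hlab hΔ)).trans hH

end

end Pool.Agent.R931.ZF
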