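import Mathlib
import Pool.Agent.R931.ZF.Defs
import Pool.Agent.R931.ZL.Jordan

/-!
# Sufficient conditions for the combinatorial hypotheses
-/

set_option autoImplicit false
set_option linter.unusedSectionVars false

namespace Pool.Agent.R931.ZF

open Function Pool.Agent.R931.PD Pool.Agent.R931.ZL

variable {n : ℕ} {J : Type}

theorem orbitCount_mono {H H' : Subgroup (Equiv.Perm (Fin n))} (h : H ≤ H') :
    orbitCount H' ≤ orbitCount H := by
  classical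
  let Q := MulAction.orbitRel.Quotient H (Fin n)
  let Q' := MulAction.orbitRel.Quotient H' (Fin n)
  have hQ : Finite Q := Quotient.finite _
  let F : Q → Q' := Quotient.map' id (by
    intro i j hij
    have h1 : i ∈ MulAction.orbit H j := hij
    obtain ⟨a, ha⟩ := h1
    exact ⟨⟨a.1, h a.2⟩, ha⟩)
  have hF : Surjective F := by
    intro q
    obtain ⟨i, rfl⟩ := Quotient.exists_rep q
    exact ⟨Quotient.mk _ i, rfl⟩
  exact Nat.card_le_card_of_surjective F hF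

/-- If `A` is generated invariably by the types, and there is no proper normal subgroup modulo which the
elements of every `T j` are conjugate, then every property of `A` is forced. -/
theorem forces_of_invariable {A : Subgroup (Equiv.Perm (Fin n))}
    {T : J → Set (Equiv.Perm (Fin n))} (hT : GeneratesInvariably A (⋃ j, T j))
    (hT' : SeparatedModulo A T) {C : Subgroup (Equiv.Perm (Fin n)) → Prop} (hC : C A) :
    Forces A T C := by
  intro G M N g y hGA hMG hnorm hmeet hg hNA hyA hyN hm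
  have hG : G = A := by
    refine hT G hGA fun a ha => ?_
    obtain ⟨j, hj⟩ := Set.mem_iUnion.1 ha
    obtain ⟨x, hx, hxm⟩ := hmeet j
    obtain ⟨u, hu, h1⟩ := hxm a hj
    refine ⟨u, hu, ?_⟩
    have h2 := G.mul_mem (hMG h1) hx
    rwa [inv_mul_cancel_right] at h2
  subst hG
  have hM : M = G := by
    refine hT' M hMG hnorm fun j a ha b hb => ?_
    obtain ⟨x, hx, hxm⟩ := hmeet j
    obtain ⟨u, hu, h1⟩ := hxm a ha
    obtain ⟨w, hw, h2⟩ := hxm b hb
    refine ⟨u * w⁻¹, G.mul_mem hu (G.inv_mem hw), ?_⟩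
    have h3 := hnorm w hw _ (M.mul_mem h1 (M.inv_mem h2))
    have h4 : w * (u⁻¹ * a * u * x⁻¹ * (w⁻¹ * b * w * x⁻¹)⁻¹) * w⁻¹ =
        (u * w⁻¹)⁻¹ * a * (u * w⁻¹) * b⁻¹ := by group
    rwa [h4] at h3
  have h1 : ∀ a ∈ G, ∃ x ∈ G, x⁻¹ * a * x * y⁻¹ ∈ N := fun a ha => hm a (by
    change a * g⁻¹ ∈ M
    rw [hM]
    exact G.mul_mem ha (G.inv_mem hg))
  have hyN' : y⁻¹ ∈ N := by
    obtain ⟨x, -, hx⟩ := h1 1 G.one_mem
    rwa [mul_one, inv_mul_cancel, one_mul] at hx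
  have hN : N = G := by
    refine invGen_self G N hNA fun a ha => ?_
    obtain ⟨x, hx, h2⟩ := h1 a ha
    refine ⟨x, hx, ?_⟩
    have h3 := N.mul_mem h2 (N.inv_mem hyN')
    rwa [inv_inv, inv_mul_cancel_right] at h3
  rwa [hN]

theorem orbitBound_of_invariable {A : Subgroup (Equiv.Perm (Fin n))}
    {T : J → Set (Equiv.Perm (Fin n))} (hT : GeneratesInvariably A (⋃ j, T j))
    (hT' : SeparatedModulo A T) : OrbitBound A T (orbitCount A) :=
  forces_of_invariable (C := fun N => orbitCount N ≤ orbitCount A) hT hT' le_rfl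

/-- Let `A = W * Z` where `Z` is central in `A`, and suppose that for one `j₀` the types in `T j₀` contain `1`
and a set which generates `W` invariably.  Then the orbits are the orbits of `W`. -/
theorem forces_of_central {A W Z : Subgroup (Equiv.Perm (Fin n))} (hW : W ≤ A) (hZ : Z ≤ A)
    (hcen : ∀ z ∈ Z, ∀ a ∈ A, a * z = z * a) (hA : ∀ a ∈ A, ∃ w ∈ W, ∃ z ∈ Z, a = w * z)
    {T : J → Set (Equiv.Perm (Fin n))} {j₀ : J} {T₀ : Set (Equiv.Perm (Fin n))} (h1 : 1 ∈ T j₀)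
    (hT₀ : T₀ ⊆ T j₀) (hT₀W : T₀ ⊆ W) (hgen : GeneratesInvariably W T₀)
    {C : Subgroup (Equiv.Perm (Fin n)) → Prop} (hC : ∀ N, W ≤ N → C N) : Forces A T C := by
  -- conjugates of elements of `W`
  have hconj : ∀ w ∈ W, ∀ x ∈ A, ∃ u ∈ W, x⁻¹ * w * x = u⁻¹ * w * u := by
    intro w _ x hx
    obtain ⟨u, hu, z, hz, rfl⟩ := hA x hx
    refine ⟨u, hu, ?_⟩
    have h2 := hcen z hz (u⁻¹ * w * u) (A.mul_mem (A.mul_mem (A.inv_mem (hW hu)) (hW ‹_›)) (hW hu))
    have h3 : (u * z)⁻¹ * w * (u * z) = z⁻¹ * (u⁻¹ * w * u * z) := by group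
    rw [h3, h2]
    group
  intro G M N g y hGA hMG hnorm hmeet hg hNA hyA hyN hm
  have hWM : W ≤ M := by
    obtain ⟨x, hx, hxm⟩ := hmeet j₀
    have hx' : x⁻¹ ∈ M := by
      obtain ⟨u, -, hu⟩ := hxm 1 h1
      rwa [mul_one, inv_mul_cancel, one_mul] at hu
    have h2 := hgen (W ⊓ M) inf_le_left fun a ha => by
      obtain ⟨u, hu, h3⟩ := hxm a (hT₀ ha)
      obtain ⟨u', hu', h4⟩ := hconj a (hT₀W ha) u hu
      refine ⟨u', hu', ?_, ?_⟩
      · exact W.mul_mem (W.mul_mem (W.inv_mem hu') (hT₀W ha)) hu'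
      · rw [← h4]
        have h5 := M.mul_mem h3 (M.inv_mem hx')
        rwa [inv_inv, inv_mul_cancel_right] at h5
    rw [← h2]
    exact inf_le_right
  obtain ⟨w₀, hw₀, z₀, hz₀, hgz⟩ := hA g (hGA hg)
  have hcos : ∀ w ∈ W, ∃ x ∈ A, x⁻¹ * (w * z₀) * x * y⁻¹ ∈ N := by
    intro w hw
    refine hm (w * z₀) ?_
    change w * z₀ * g⁻¹ ∈ M
    have h3 : w * z₀ * g⁻¹ = w * w₀⁻¹ := by
      rw [hgz]
      group
    rw [h3]
    exact hWM (W.mul_mem hw (W.inv_mem hw₀))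
  have hz₀c : ∀ x ∈ A, x⁻¹ * z₀ * x = z₀ := by
    intro x hx
    rw [mul_assoc, ← hcen z₀ hz₀ x hx, ← mul_assoc, inv_mul_cancel, one_mul]
  have hzy : z₀ * y⁻¹ ∈ N := by
    obtain ⟨x, hx, h3⟩ := hcos 1 W.one_mem
    rwa [one_mul, hz₀c x hx] at h3
  refine hC N ?_
  have h2 := invGen_self W (W ⊓ N) inf_le_left fun a ha => by
    obtain ⟨u, hu, h3⟩ := hcos a ha
    obtain ⟨u', hu', h4⟩ := hconj a ha u hu
    refine ⟨u', hu', W.mul_mem (W.mul_mem (W.inv_mem hu') ha) hu', ?_⟩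
    rw [← h4]
    have h5 := N.mul_mem h3 (N.inv_mem hzy)
    have h6 : u⁻¹ * (a * z₀) * u * y⁻¹ * (z₀ * y⁻¹)⁻¹ = u⁻¹ * a * u * (u⁻¹ * z₀ * u) * z₀⁻¹ := by
      group
    rwa [h6, hz₀c u hu, mul_inv_cancel_right] at h5
  rw [← h2]
  exact inf_le_right

theorem orbitBound_of_central {A W Z : Subgroup (Equiv.Perm (Fin n))} (hW : W ≤ A) (hZ : Z ≤ A)
    (hcen : ∀ z ∈ Z, ∀ a ∈ A, a * z = z * a) (hA : ∀ a ∈ A, ∃ w ∈ W, ∃ z ∈ Z, a = w * z)
    {T : J → Set (Equiv.Perm (Fin n))} {j₀ : J} {T₀ : Set (Equiv.Perm (Fin n))} (h1 : 1 ∈ T j₀)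
    (hT₀ : T₀ ⊆ T j₀) (hT₀W : T₀ ⊆ W) (hgen : GeneratesInvariably W T₀) :
    OrbitBound A T (orbitCount W) :=
  forces_of_central (C := fun N => orbitCount N ≤ orbitCount W) hW hZ hcen hA h1 hT₀ hT₀W hgen
    fun _ h => orbitCount_mono h

end Pool.Agent.R931.ZF
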