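import Mathlib
import Pool.Agent.R931.ZF.Coef

/-!
# Semisimplicity of polarized systems, and of systems with enough endomorphisms
-/

set_option autoImplicit false
set_option linter.unusedSectionVars false
set_option linter.unusedVariables false

namespace Pool.Agent.R931.ZF

open Function Polynomial Module NumberField IsDedekindDomain TensorProduct Pool.Agent.TH118.SG
  Pool.Agent.Y114.RM Pool.Agent.Y114.MU Pool.Agent.Y114.TF Pool.Agent.Y114.GF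
  Pool.Agent.H204R3.GP Pool.Agent.R931.GD Pool.Agent.Y142.ZO Pool.Agent.Y142.ZI
  Pool.Agent.Y142.SS Pool.Agent.R931.BD Pool.Agent.R931.ZL Pool.Agent.R931.ZM Pool.Agent.R931.PD
open Pool.Agent.Y142.ZD (DistPow dist_of_nice)
open Pool.Agent.Y936.SS (Om)

section

variable {K : Type} [Field K] [NumberField K] {Γ : Type} [Group Γ] [TopologicalSpace Γ]
  [IsTopologicalGroup Γ] [CompactSpace Γ] {s : Gal(AlgebraicClosure K/K) →* Γ} {N : ℕ} {wt : ℤ}
  {c r : ℕ} {S : Set (HeightOneSpectrum (𝓞 K))} {P : HeightOneSpectrum (𝓞 K) → ℚ[X]}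
  {ρ : ∀ (ℓ : ℕ) [Fact ℓ.Prime], Rep1 Γ N ℓ} {ℓ : ℕ} [Fact ℓ.Prime] {R : Set (Fin N → ℤ)}

theorem dot_symm {F : Type} [Field F] {B : Matrix (Fin N) (Fin N) F}
    (hB : B.transpose = B ∨ B.transpose = -B) {x y : Fin N → F} (h : x ⬝ᵥ B.mulVec y = 0) :
    y ⬝ᵥ B.mulVec x = 0 := by
  have h1 : y ⬝ᵥ B.transpose.mulVec x = x ⬝ᵥ B.mulVec y := by
    rw [Matrix.mulVec_transpose, dotProduct_comm, Matrix.dotProduct_mulVec]
  rcases hB with hB | hB
  · rw [← h, ← h1, hB]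
  · rw [hB, Matrix.neg_mulVec, dotProduct_neg, h] at h1
    exact neg_eq_zero.1 h1

/-- complex conjugation as an automorphism of the relations -/
theorem dualO (h : SetupG K Γ s N wt c r S P ρ) {v : HeightOneSpectrum (𝓞 K)}
    (hv : GoodPl S P r v) {z : Fin N → Om ℓ} (hinj : Injective z)
    (hz : ∀ i, aeval (z i) ((P v).map (algebraMap ℚ ℚ_[ℓ])) = 0) (hR : relations z = R) :
    ∃ a ∈ relAut R, ∀ i, z (a i) * z i = (((q v : ℚ) ^ wt : ℚ) : Om ℓ) := by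
  obtain ⟨κ, cc, hcc⟩ := Pool.Agent.Y288.SS.t
  obtain ⟨ι⟩ := emb ℓ
  have hlift : ∀ i, ∃ y : QQ, aeval y (P v) = 0 ∧ ι y = z i := fun i =>
    lift_root ℓ ι hv.1.2.1.ne_zero (hz i)
  choose y hy hyx using hlift
  have hyinj : Injective y := by
    intro i j hij
    apply hinj
    rw [← hyx, ← hyx, hij]
  have hyR : relations y = R := by
    rw [← mrel_map ι y, show (fun i => ι (y i)) = z from funext hyx, hR]
  obtain ⟨a, ha⟩ := exists_equiv (y := fun i => cc (y i)) (cc.injective.comp hyinj) (u := y)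
    (fun i => exhaust hv.1.2.1.ne_zero (h.monic hv.1.1).2 hyinj hy (aeval_aut _ (hy i))) rfl
  refine ⟨a, mem_autR_of hyR ?_, fun i => ?_⟩
  · rw [show (fun i => y (a i)) = fun i => cc (y i) from funext ha]
    exact (mrel_map (cc : QQ ≃ₐ[ℚ] QQ).toRingEquiv.toRingHom y).trans hyR
  · have h0 : y i ≠ 0 := h.ne_zero hv.1.1 (hy i)
    have h1 : cc (y i) = (((q v : ℚ) ^ wt : ℚ) : QQ) / y i := by
      refine conj_root hcc (fun z hz => ?_) (hy i) h0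
      rw [h.pure hv.1.1 z hz]
      push_cast
      rfl
    have h2 : y (a i) * y i = (((q v : ℚ) ^ wt : ℚ) : QQ) := by
      rw [ha, h1, div_mul_cancel₀ _ h0]
    rw [← hyx, ← hyx, ← map_mul, h2, map_ratCast]

/-- semisimplicity from the labels and the polarization -/
theorem semi_pol (h : SetupG K Γ s N wt c r S P ρ) {γ : Γ} {z : Fin N → Om ℓ} {e : Basis (Fin N) (Om ℓ) (Fin N → Om ℓ)}
    {f : ℚ_[ℓ][X]} (hd : OmDat ρ s S P r ℓ R γ z e f) {H : Subgroup (Equiv.Perm (Fin N))}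
    (hH : LabelsO ρ ℓ e H) (hdu : SelfDualOrbits R H) (hpol : Polarized (ρ ℓ)) :
    Semisimple (ρ ℓ) := by
  classical
  obtain ⟨B, ⟨hdet, hsym⟩, hsim⟩ := hpol
  have hzinj : Injective z := fun i j hij => hd.dist 1 one_pos (by
    change z i ^ 1 = z j ^ 1
    rw [pow_one, pow_one, hij])
  -- the form over the algebraic closure
  set BO : Matrix (Fin N) (Fin N) (Om ℓ) := B.map (algebraMap ℚ_[ℓ] (Om ℓ)) with hBO
  have hsymO : BO.transpose = BO ∨ BO.transpose = -BO := by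
    rcases hsym with h | h
    · left
      rw [hBO, ← Matrix.transpose_map, h]
    · right
      rw [hBO, ← Matrix.transpose_map, h]
      ext i j
      simp
  have hdetO : BO.det ≠ 0 := by
    rw [hBO, ← RingHom.mapMatrix_apply, ← RingHom.map_det]
    exact (map_ne_zero_iff _ (algebraMap ℚ_[ℓ] (Om ℓ)).injective).2 hdet
  have hz0 : ∀ i, z i ≠ 0 := fun i => ne_zero_of_root (ρ ℓ) γ (hd.log.zroot i)
  obtain ⟨c₀, hc₀⟩ := hsim γ
  set M := matRep (ρ ℓ) γ with hM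
  have hsimO : ∀ x y : Fin N → Om ℓ, mOm ℓ N M x ⬝ᵥ BO.mulVec (mOm ℓ N M y) =
      algebraMap ℚ_[ℓ] (Om ℓ) c₀ * (x ⬝ᵥ BO.mulVec y) := by
    intro x y
    set MO := M.map (algebraMap ℚ_[ℓ] (Om ℓ)) with hMO
    have h1 : MO.transpose * BO * MO = algebraMap ℚ_[ℓ] (Om ℓ) c₀ • BO := by
      have h2 : M.transpose * B * M = c₀ • B := hc₀
      have h3 := congrArg (fun Z : Matrix (Fin N) (Fin N) ℚ_[ℓ] =>
        Z.map (algebraMap ℚ_[ℓ] (Om ℓ))) h2
      simp only [Matrix.map_mul] at h3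
      rw [hMO, hBO, ← Matrix.transpose_map, h3]
      ext i j
      simp
    have h4 : mOm ℓ N M x ⬝ᵥ BO.mulVec (mOm ℓ N M y) =
        x ⬝ᵥ (MO.transpose * BO * MO).mulVec y := by
      rw [mO_apply', mO_apply', ← hMO, ← Matrix.mulVec_mulVec, ← Matrix.mulVec_mulVec,
        Matrix.mulVec_transpose, dotProduct_comm x, ← Matrix.dotProduct_mulVec, dotProduct_comm]
    rw [h4, h1, Matrix.smul_mulVec, dotProduct_smul, smul_eq_mul]
  -- the dual index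
  have hprod : ∀ i j, e i ⬝ᵥ BO.mulVec (e j) ≠ 0 → z i * z j = algebraMap ℚ_[ℓ] (Om ℓ) c₀ := by
    intro i j hij
    have h1 := hsimO (e i) (e j)
    rw [hd.eig, hd.eig, Matrix.mulVec_smul, dotProduct_smul, smul_dotProduct, smul_eq_mul,
      smul_eq_mul, ← mul_assoc, mul_comm (z j)] at h1
    exact mul_right_cancel₀ hij h1
  have hrad : ∀ x : Fin N → Om ℓ, (∀ j, x ⬝ᵥ BO.mulVec (e j) = 0) → x = 0 := by
    intro x hx
    have h1 : ∀ y, y ⬝ᵥ BO.mulVec x = 0 := by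
      intro y
      refine dot_symm hsymO ?_
      rw [← e.sum_repr y, Matrix.mulVec_sum, dotProduct_sum]
      refine Finset.sum_eq_zero fun j _ => ?_
      rw [Matrix.mulVec_smul, dotProduct_smul, hx, smul_zero]
    have h2 : BO.mulVec x = 0 := dotProduct_eq_zero _ fun y => by
      rw [dotProduct_comm]
      exact h1 y
    exact Matrix.eq_zero_of_mulVec_eq_zero hdetO h2
  have hex : ∀ i, ∃ j, e i ⬝ᵥ BO.mulVec (e j) ≠ 0 := by
    intro i
    by_contra hno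
    push Not at hno
    exact e.ne_zero i (hrad _ hno)
  choose ψ hψ using hex
  have hψz : ∀ i, z i * z (ψ i) = algebraMap ℚ_[ℓ] (Om ℓ) c₀ := fun i => hprod i _ (hψ i)
  have hψinj : Injective ψ := by
    intro i j hij
    apply hzinj
    have h1 := hψz i
    rw [hij, ← hψz j] at h1
    exact mul_right_cancel₀ (hz0 _) h1
  have hψu : ∀ i j, e i ⬝ᵥ BO.mulVec (e j) ≠ 0 → j = ψ i := by
    intro i j hij
    apply hzinj
    have h1 := hprod i j hij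
    rw [← hψz i] at h1
    exact mul_left_cancel₀ (hz0 i) h1
  let π : Equiv.Perm (Fin N) := Equiv.ofBijective ψ (Finite.injective_iff_bijective.1 hψinj)
  have hN : 0 < N := h.pos
  -- it is given by the complex conjugation
  obtain ⟨v, hv, hzv⟩ := hd.place
  obtain ⟨κ, hκ, hκz⟩ := dualO h hv hzinj hzv hd.rel
  set q₁ : Om ℓ := (((q v : ℚ) ^ wt : ℚ) : Om ℓ) with hq₁
  have hq0 : q₁ ≠ 0 := by
    rw [← hκz ⟨0, hN⟩]
    exact mul_ne_zero (hz0 _) (hz0 _)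
  have hpow : (algebraMap ℚ_[ℓ] (Om ℓ) c₀) ^ N = q₁ ^ N := by
    have e1 : ∏ i, z (ψ i) = ∏ i, z i := Equiv.prod_comp π z
    have e2 : ∏ i, z (κ i) = ∏ i, z i := Equiv.prod_comp κ z
    have h1 : ∏ i, (z i * z (ψ i)) = (algebraMap ℚ_[ℓ] (Om ℓ) c₀) ^ N := by
      rw [Finset.prod_congr rfl fun i _ => hψz i, Finset.prod_const, Finset.card_univ,
        Fintype.card_fin]
    have h2 : ∏ i, (z (κ i) * z i) = q₁ ^ N := by
      rw [Finset.prod_congr rfl fun i _ => hκz i, Finset.prod_const, Finset.card_univ,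
        Fintype.card_fin]
    rw [← h1, ← h2, Finset.prod_mul_distrib, Finset.prod_mul_distrib, e1, e2]
  have hψκ : ∀ i, ψ i = κ i := by
    intro i
    apply hd.dist N hN
    change z (ψ i) ^ N = z (κ i) ^ N
    have h2 : (z i * z (ψ i)) ^ N = (z (κ i) * z i) ^ N := by
      rw [hψz, hκz, hpow]
    rw [mul_pow, mul_pow, mul_comm (z (κ i) ^ N)] at h2
    exact mul_left_cancel₀ (pow_ne_zero _ (hz0 i)) h2
  have hdual : ∀ i, ∃ a ∈ H, a i = ψ i := by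
    intro i
    rw [hψκ]
    refine hdu κ hκ (fun i j => ?_) i
    rw [← hd.rel]
    exact dual_rel z hz0 hq0 (hκz i) (hκz j)
  intro Δ hΔ U hU
  let W : Submodule ℚ_[ℓ] (Fin N → ℚ_[ℓ]) := U.comap (uu ℓ N : _ →ₗ[ℚ_[ℓ]] _)
  have hWU : ∀ w : Fin N → ℚ_[ℓ], w ∈ W ↔ (fun _ => w : ∀ _ : Unit, Fin N → ℚ_[ℓ]) ∈ U :=
    fun w => Iff.rfl
  have hWs : ∀ δ ∈ Δ, ∀ w ∈ W, (matRep (ρ ℓ) δ).mulVec w ∈ W := by
    intro δ hδ w hw
    have h1 := hU δ hδ _ ((hWU w).1 hw)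
    rw [ZL.sumRep_eq] at h1
    exact h1
  -- the bilinear form over `ℚ_ℓ`
  let Bf : LinearMap.BilinForm ℚ_[ℓ] (∀ _ : Unit, Fin N → ℚ_[ℓ]) :=
    (Matrix.toLinearMap₂' ℚ_[ℓ] B).compl₁₂ (LinearMap.proj ()) (LinearMap.proj ())
  have hBf : ∀ x y, Bf x y = x () ⬝ᵥ B.mulVec (y ()) := fun x y =>
    Matrix.toLinearMap₂'_apply' B (x ()) (y ())
  have hrefl : Bf.IsRefl := by
    intro x y hxy
    rw [hBf] at hxy ⊢
    exact dot_symm hsym hxy
  have hUo : ∀ δ ∈ Δ, ∀ y ∈ Bf.orthogonal U, sumRep (ρ ℓ) δ y ∈ Bf.orthogonal U := by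
    intro δ hδ y hy
    rw [LinearMap.BilinForm.mem_orthogonal_iff] at hy ⊢
    intro w hw
    obtain ⟨c, hc⟩ := hsim δ
    have hδM : ∀ x : ∀ _ : Unit, Fin N → ℚ_[ℓ], (sumRep (ρ ℓ) δ x) () =
        (matRep (ρ ℓ) δ).mulVec (x ()) := by
      intro x
      rw [ZL.sumRep_eq]
      rfl
    have h1 : ∀ x y : ∀ _ : Unit, Fin N → ℚ_[ℓ], Bf (sumRep (ρ ℓ) δ x) (sumRep (ρ ℓ) δ y) =
        c * Bf x y := by
      intro x y
      rw [hBf, hBf, hδM, hδM]
      have h2 : (matRep (ρ ℓ) δ).mulVec (x ()) ⬝ᵥ B.mulVec ((matRep (ρ ℓ) δ).mulVec (y ())) =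
          x () ⬝ᵥ ((matRep (ρ ℓ) δ).transpose * B * matRep (ρ ℓ) δ).mulVec (y ()) := by
        rw [← Matrix.mulVec_mulVec, ← Matrix.mulVec_mulVec, Matrix.mulVec_transpose,
          dotProduct_comm (x ()), ← Matrix.dotProduct_mulVec, dotProduct_comm]
      have h3 : (matRep (ρ ℓ) δ).transpose * B * matRep (ρ ℓ) δ = c • B := hc
      rw [h2, h3, Matrix.smul_mulVec, dotProduct_smul, smul_eq_mul]
    have h2 := h1 (sumRep (ρ ℓ) δ⁻¹ w) y
    rw [← Module.End.mul_apply, ← map_mul, mul_inv_cancel, map_one, Module.End.one_apply] at h2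
    change Bf w (sumRep (ρ ℓ) δ y) = 0
    rw [h2, hy _ (hU _ (Δ.inv_mem hδ) w hw), mul_zero]
  refine ⟨Bf.orthogonal U, hUo, (LinearMap.BilinForm.isCompl_orthogonal_iff_disjoint hrefl).2 ?_⟩
  rw [Submodule.disjoint_def]
  intro u hu hu'
  by_contra hu0
  let W' : Submodule ℚ_[ℓ] (Fin N → ℚ_[ℓ]) := (Bf.orthogonal U).comap (uu ℓ N : _ →ₗ[ℚ_[ℓ]] _)
  have hWU' : ∀ w : Fin N → ℚ_[ℓ], w ∈ W' ↔
      (fun _ => w : ∀ _ : Unit, Fin N → ℚ_[ℓ]) ∈ Bf.orthogonal U := fun w => Iff.rfl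
  have hWs' : ∀ δ ∈ Δ, ∀ w ∈ W', (matRep (ρ ℓ) δ).mulVec w ∈ W' := by
    intro δ hδ w hw
    have h1 := hUo δ hδ _ ((hWU' w).1 hw)
    rw [ZL.sumRep_eq] at h1
    exact h1
  -- the two subspaces over the algebraic closure are orthogonal
  have horth : ∀ x ∈ ext (Om ℓ) W, ∀ y ∈ ext (Om ℓ) W', x ⬝ᵥ BO.mulVec y = 0 := by
    intro x hx y hy
    have h1 : ∀ w ∈ W, ∀ y ∈ ext (Om ℓ) W',
        (fun i => algebraMap ℚ_[ℓ] (Om ℓ) (w i)) ⬝ᵥ BO.mulVec y = 0 := by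
      intro w hw y hy
      refine Submodule.span_induction (p := fun y _ =>
        (fun i => algebraMap ℚ_[ℓ] (Om ℓ) (w i)) ⬝ᵥ BO.mulVec y = 0) ?_ ?_ ?_ ?_ hy
      · rintro _ ⟨w', hw', rfl⟩
        have h2 : w ⬝ᵥ B.mulVec w' = 0 := by
          have h3 := (LinearMap.BilinForm.mem_orthogonal_iff.1 ((hWU' w').1 hw')) _
            ((hWU w).1 hw)
          change Bf _ _ = 0 at h3
          rw [hBf] at h3
          exact h3
        have h3 : (fun i => algebraMap ℚ_[ℓ] (Om ℓ) (w i)) ⬝ᵥ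
            BO.mulVec (fun i => algebraMap ℚ_[ℓ] (Om ℓ) (w' i)) =
            algebraMap ℚ_[ℓ] (Om ℓ) (w ⬝ᵥ B.mulVec w') := by
          simp only [dotProduct, Matrix.mulVec, hBO, Matrix.map_apply, map_sum, map_mul]
        rw [h3, h2, map_zero]
      · rw [Matrix.mulVec_zero, dotProduct_zero]
      · intro a b _ _ ha hb
        rw [Matrix.mulVec_add, dotProduct_add, ha, hb, add_zero]
      · intro a b _ hb
        rw [Matrix.mulVec_smul, dotProduct_smul, hb, smul_zero]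
    refine Submodule.span_induction (p := fun x _ => x ⬝ᵥ BO.mulVec y = 0) ?_ ?_ ?_ ?_ hx
    · rintro _ ⟨w, hw, rfl⟩
      exact h1 w hw y hy
    · rw [zero_dotProduct]
    · intro a b _ _ ha hb
      rw [add_dotProduct, ha, hb, add_zero]
    · intro a b _ hb
      rw [smul_dotProduct, hb, smul_zero]
  have huW : (fun i => algebraMap ℚ_[ℓ] (Om ℓ) (u () i)) ∈ ext (Om ℓ) W :=
    mem_ext.2 ((hWU _).2 hu)
  have huW' : (fun i => algebraMap ℚ_[ℓ] (Om ℓ) (u () i)) ∈ ext (Om ℓ) W' :=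
    mem_ext.2 ((hWU' _).2 hu')
  obtain ⟨i, hi⟩ : ∃ i, e.repr (fun i => algebraMap ℚ_[ℓ] (Om ℓ) (u () i)) i ≠ 0 := by
    by_contra hno
    push Not at hno
    apply hu0
    have h1 : (fun i => algebraMap ℚ_[ℓ] (Om ℓ) (u () i)) = 0 := by
      rw [← e.sum_repr (fun i => algebraMap ℚ_[ℓ] (Om ℓ) (u () i))]
      exact Finset.sum_eq_zero fun j _ => by rw [hno j, zero_smul]
    funext a i
    cases a
    exact (algebraMap ℚ_[ℓ] (Om ℓ)).injective (by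
      rw [Pi.zero_apply, Pi.zero_apply, map_zero]
      exact congrFun h1 i)
  have h1 : e i ∈ ext (Om ℓ) W := hd.mem hΔ (fun δ hδ => ext_stable (hWs δ hδ)) huW hi
  have h2 : e i ∈ ext (Om ℓ) W' := hd.mem hΔ (fun δ hδ => ext_stable (hWs' δ hδ)) huW' hi
  obtain ⟨a, ha, hai⟩ := hdual i
  have h3 : e (ψ i) ∈ ext (Om ℓ) W := by
    rw [← hai]
    exact (hH Δ hΔ _ (fun δ hδ => ext_stable (hWs δ hδ)) a ha i).2 h1
  exact hψ i (dot_symm hsymO (horth _ h3 _ h2))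

theorem main_semiF (h : SetupG K Γ s N wt c r S P ρ)
    (hpol : ∀ (ℓ : ℕ) [Fact ℓ.Prime], Polarized (ρ ℓ)) (R : Set (Fin N → ℤ)) (hRr : RankGE r R)
    {J : Type} (T : J → Set (Equiv.Perm (Fin N))) (hne : ∃ j, (T j).Nonempty)
    (p : J → ℕ) [∀ j, Fact (p j).Prime] (τ : ∀ j, Gal(PadicAlgCl (p j)/ℚ_[p j]))
    (hτ : ∀ j, ∀ a ∈ T j, TypeOccurs s (ρ (p j)) R (τ j) a)
    (hm : Forces (relAut R) T (SelfDualOrbits R)) :
    HasDensityZero {ℓ | ∃ _ : Fact ℓ.Prime, ¬ Semisimple (ρ ℓ)} := by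
  refine main_F h R hRr T hne p τ hτ (fun ℓ _ => Semisimple (ρ ℓ)) ∅ Set.finite_empty ?_
  intro G M hGA hMG hnorm hmeet hgood ℓ _ _ γ z e f H g y hd hg hHA hyA hyn hmc hlab
  exact semi_pol h hd hlab (hm G M H g y hGA hMG hnorm hmeet hg hHA hyA hyn hmc) (hpol ℓ)

/-- semisimplicity and endomorphisms, if there are enough endomorphisms -/
theorem main_endF (h : SetupG K Γ s N wt c r S P ρ) (R : Set (Fin N → ℤ)) (hRr : RankGE r R)
    {J : Type} (T : J → Set (Equiv.Perm (Fin N))) (hne : ∃ j, (T j).Nonempty)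
    (p : J → ℕ) [∀ j, Fact (p j).Prime] (τ : ∀ j, Gal(PadicAlgCl (p j)/ℚ_[p j]))
    (hτ : ∀ j, ∀ a ∈ T j, TypeOccurs s (ρ (p j)) R (τ j) a)
    (m : ℕ) (hm : OrbitBound (relAut R) T m)
    (hend : ∀ (ℓ : ℕ) [Fact ℓ.Prime], ∃ Δ : Subgroup Γ, Δ.FiniteIndex ∧
      m ≤ centralizerDim (ρ ℓ () '' (Δ : Set Γ))) :
    HasDensityZero {ℓ | ∃ _ : Fact ℓ.Prime, ¬ (Semisimple (ρ ℓ) ∧
      ∀ Δ : Subgroup Γ, Δ.FiniteIndex → centralizerDim (ρ ℓ () '' (Δ : Set Γ)) ≤ m)} := by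
  refine main_F h R hRr T hne p τ hτ (fun ℓ _ => Semisimple (ρ ℓ) ∧
      ∀ Δ : Subgroup Γ, Δ.FiniteIndex → centralizerDim (ρ ℓ () '' (Δ : Set Γ)) ≤ m)
      ∅ Set.finite_empty ?_
  intro G M hGA hMG hnorm hmeet hgood ℓ _ _ γ z e f H g y hd hg hHA hyA hyn hmc hlab
  have hH : orbitCount H ≤ m := hm G M H g y hGA hMG hnorm hmeet hg hHA hyA hyn hmc
  obtain ⟨Δ₀, hΔ₀, hdim⟩ := hend ℓ
  rw [centralizerDim_eq] at hdim
  refine ⟨semi_of_labels hd hlab hΔ₀ ((((hH.trans hdim).trans (com_leS Δ₀)).trans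
    (comS_leM Δ₀)).trans (comM_le Δ₀)), fun Δ hΔ => ?_⟩
  rw [centralizerDim_eq]
  exact ((com_leS Δ).trans (comS_leO hd hlab hΔ)).trans hH

end

end Pool.Agent.R931.ZF
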