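import Mathlib
import Pool.Agent.R931.ZF.Pol

/-!
# The primes which split in a number field
-/

set_option autoImplicit false
set_option linter.unusedSectionVars false
set_option linter.unusedVariables false

namespace Pool.Agent.R931.ZF

open Function Polynomial Module NumberField IsDedekindDomain TensorProduct Pool.Agent.TH118.SG
  Pool.Agent.Y114.RM Pool.Agent.Y114.MU Pool.Agent.Y114.TF Pool.Agent.Y114.GF
  Pool.Agent.H204R3.GP Pool.Agent.R931.GD Pool.Agent.Y142.ZO Pool.Agent.Y142.ZI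
  Pool.Agent.Y142.SS Pool.Agent.R931.BD Pool.Agent.R931.ZL Pool.Agent.R931.ZM Pool.Agent.R931.PD
open Pool.Agent.Y936.SS (Om)

section

variable {K : Type} [Field K] [NumberField K] {Γ : Type} [Group Γ] [TopologicalSpace Γ]
  [IsTopologicalGroup Γ] [CompactSpace Γ] {s : Gal(AlgebraicClosure K/K) →* Γ} {N : ℕ} {wt : ℤ}
  {c r : ℕ} {S : Set (HeightOneSpectrum (𝓞 K))} {P : HeightOneSpectrum (𝓞 K) → ℚ[X]}
  {ρ : ∀ (ℓ : ℕ) [Fact ℓ.Prime], Rep1 Γ N ℓ}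

/-- the law for the primes which split in a number field, general form -/
theorem main_FS (h : SetupG K Γ s N wt c r S P ρ) (R : Set (Fin N → ℤ)) (hRr : RankGE r R)
    {J : Type} (T : J → Set (Equiv.Perm (Fin N))) (hne : ∃ j, (T j).Nonempty)
    (p : J → ℕ) [∀ j, Fact (p j).Prime] (τ : ∀ j, Gal(PadicAlgCl (p j)/ℚ_[p j]))
    (hτ : ∀ j, ∀ a ∈ T j, TypeOccurs s (ρ (p j)) R (τ j) a)
    (C : ∀ (ℓ : ℕ) [Fact ℓ.Prime], Prop) (B : Set ℕ) (hB : B.Finite)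
    (hC : (∃ v, GoodPl S P r v) → ∀ (ℓ : ℕ) [Fact ℓ.Prime], ℓ ∉ B →
      ∀ (γ : Γ) (z : Fin N → Om ℓ) (e : Basis (Fin N) (Om ℓ) (Fin N → Om ℓ)) (f : ℚ_[ℓ][X])
      (H : Subgroup (Equiv.Perm (Fin N))), OmDat ρ s S P r ℓ R γ z e f →
      (∀ D : Subgroup (Equiv.Perm (Fin N)) → Prop, ForcesSplit (relAut R) T D → D H) →
      LabelsO ρ ℓ e H → C ℓ) :
    ∃ f : ℤ[X], f.Monic ∧ HasDensityZero {ℓ | ∃ _ : Fact ℓ.Prime,
      (f.map (Int.castRingHom (ZMod ℓ))).Splits ∧ ¬ C ℓ} := by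
  obtain ⟨G, M, hGA, hMG, hnorm, hmeet, ⟨v₀, hv₀⟩, hd⟩ := typesJ h R hRr T hne p τ hτ
  obtain ⟨f, hf, b, hb⟩ := exists_poly hv₀
  refine ⟨f, hf, ?_⟩
  refine Y142.ZI.DensityZero.mono ((hd.union (densityZero_finite (Set.finite_le_nat b))).union
    (densityZero_finite hB)) ?_
  rintro ℓ ⟨hp, hspl, hno⟩
  by_contra hnot
  rw [Set.mem_union, not_or, Set.mem_union, not_or] at hnot
  obtain ⟨⟨hn1, hn2⟩, hn3⟩ := hnot
  have hbℓ : b < ℓ := not_le.1 hn2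
  have hcore := hb ℓ hbℓ hp hspl
  by_cases hloc : ∃ g ∈ G, (InCore S P r ℓ → g ∈ M) ∧
      ∀ a, a * g⁻¹ ∈ M → LocTypT S P r ℓ R (τL ℓ) a
  · obtain ⟨g, hg, hgM, hloc⟩ := hloc
    have hgM' := hgM hcore
    have hloc' : ∀ a ∈ (M : Set (Equiv.Perm (Fin N))), LocTypT S P r ℓ R (τL ℓ) a := fun a ha =>
      hloc a (M.mul_mem ha (M.inv_mem hgM'))
    obtain ⟨γ, z, e, f, H, y, hd, hHA, hyA, hyn, hm, hlab⟩ := label_coset h (τL ℓ)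
      (T := (M : Set (Equiv.Perm (Fin N)))) ⟨1, M.one_mem⟩ (fun a ha => hGA (hMG ha)) hloc'
    refine hno (hC ⟨v₀, hv₀⟩ ℓ hn3 γ z e f H hd (fun D hD => ?_) hlab)
    have hyH : y ∈ H := by
      obtain ⟨x, -, hx⟩ := hm 1 M.one_mem
      rw [mul_one, inv_mul_cancel, one_mul] at hx
      have h1 := H.inv_mem hx
      rwa [inv_inv] at h1
    refine hD G M H hGA hMG hnorm hmeet ⟨hHA, fun a ha => ?_⟩
    obtain ⟨x, hx, hxa⟩ := hm a ha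
    refine ⟨x, hx, ?_⟩
    have h1 := H.mul_mem hxa hyH
    rwa [inv_mul_cancel_right] at h1
  · exact hn1 ⟨hp, hloc⟩

/-- the Mumford-Tate conjecture at the primes which split in a number field -/
theorem main_MTS {𝔤 : ∀ (ℓ : ℕ) [Fact ℓ.Prime], End1 N ℓ} (h' : Setup K Γ s N wt c r S P ρ 𝔤)
    (R : Set (Fin N → ℤ)) (hRr : RankGE r R)
    {J : Type} (T : J → Set (Equiv.Perm (Fin N))) (hne : ∃ j, (T j).Nonempty)
    (p : J → ℕ) [∀ j, Fact (p j).Prime] (τ : ∀ j, Gal(PadicAlgCl (p j)/ℚ_[p j]))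
    (hτ : ∀ j, ∀ a ∈ T j, TypeOccurs s (ρ (p j)) R (τ j) a)
    (m : ℕ) (hm : ForcesSplit (relAut R) T fun H => orbitCount H ≤ m)
    (hend : ∀ (ℓ : ℕ) [Fact ℓ.Prime], m ≤ commutantDim (𝔤 ℓ)) :
    ∃ f : ℤ[X], f.Monic ∧ HasDensityZero {ℓ | ∃ _ : Fact ℓ.Prime,
      (f.map (Int.castRingHom (ZMod ℓ))).Splits ∧
        ¬ (Semisimple (ρ ℓ) ∧ TateTensorsOf (ρ ℓ) (𝔤 ℓ))} := by
  classical
  have h := setup_of_motivic h'
  obtain ⟨v₀, p₀, hp₀⟩ : ∃ (v₀ : HeightOneSpectrum (𝓞 K)) (p₀ : ℕ), (∃ v, GoodPl S P r v) →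
      GoodPl S P r v₀ ∧ p₀.Prime ∧ Above v₀ p₀ := by
    by_cases hex : ∃ v, GoodPl S P r v
    · obtain ⟨v, hv⟩ := hex
      obtain ⟨p, hp, hpv⟩ := exists_prime' v
      exact ⟨v, p, fun _ => ⟨hv, hp, hpv⟩⟩
    · obtain ⟨j, a, ha⟩ := hne
      obtain ⟨σ₀, hσ₀⟩ := main_localT h R hRr (T j) (p j) (τ j) (hτ j)
      obtain ⟨v, hv, -⟩ := hσ₀ a ha
      exact absurd ⟨v, hv⟩ hex
  refine main_FS h R hRr T hne p τ hτ
    (fun ℓ _ => Semisimple (ρ ℓ) ∧ TateTensorsOf (ρ ℓ) (𝔤 ℓ)) {p₀} (Set.finite_singleton p₀) ?_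
  intro hgood ℓ hℓp hℓ γ z e f H hd hD hlab
  obtain ⟨hv₀, hp, hv₀p⟩ := hp₀ hgood
  exact full_of_labels h' hv₀ (fun hab => hℓ (above_inj hp hℓp.out hv₀p hab).symm) (hend ℓ) hd
    hlab (hD _ hm)

end

end Pool.Agent.R931.ZF
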